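import Pool.Agent.Helper82.GS.Chart

/-!
# Linear algebra of the acceleration (module GS-1)
-/

set_option maxSynthPendingDepth 3

namespace Pool.Agent.Helper82.GS

open MeasureTheory Filter Topology
open scoped ContDiff Manifold

theorem PosDef.exists_equiv {A : Bil} (hA : PosDef A) :
    ∃ e : P2 ≃L[ℝ] (P2 →L[ℝ] ℝ), (e : P2 →L[ℝ] (P2 →L[ℝ] ℝ)) = A := by
  have hinj : Function.Injective (A : P2 →ₗ[ℝ] (P2 →L[ℝ] ℝ)) := by
    rw [← LinearMap.ker_eq_bot, LinearMap.ker_eq_bot']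
    intro v hv
    by_contra h0
    have h1 := hA.2 v h0
    have h2 : A v = 0 := hv
    rw [h2] at h1
    simp at h1
  have hfr : Module.finrank ℝ P2 = Module.finrank ℝ (P2 →L[ℝ] ℝ) := by
    rw [← (LinearMap.toContinuousLinearMap (𝕜 := ℝ) (E := P2) (F' := ℝ)).finrank_eq]
    exact (Subspace.dual_finrank_eq (K := ℝ) (V := P2)).symm
  refine ⟨(LinearMap.linearEquivOfInjective (A : P2 →ₗ[ℝ] (P2 →L[ℝ] ℝ)) hinj
    hfr).toContinuousLinearEquiv, ?_⟩
  ext v
  rfl

/-- `inverse A` solves `A a = σ`. -/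
theorem PosDef.apply_inverse {A : Bil} (hA : PosDef A) (σ : P2 →L[ℝ] ℝ) :
    A (ContinuousLinearMap.inverse A σ) = σ := by
  obtain ⟨e, rfl⟩ := hA.exists_equiv
  rw [ContinuousLinearMap.inverse_equiv]
  simp

theorem PosDef.inverse_apply {A : Bil} (hA : PosDef A) (a : P2) :
    ContinuousLinearMap.inverse A (A a) = a := by
  obtain ⟨e, rfl⟩ := hA.exists_equiv
  rw [ContinuousLinearMap.inverse_equiv]
  simp

/-- Characterisation of the acceleration. -/
theorem acc_iff {A : Bil} (hA : PosDef A) (B : P2 →L[ℝ] Bil) (v a : P2) :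
    (∀ w, A a w + B v v w = 1 / 2 * B w v v) ↔ a = acc A B v := by
  constructor
  · intro h
    have h1 : A a = force B v := by
      ext w
      rw [force_apply]
      linarith [h w]
    unfold acc
    rw [← h1, hA.inverse_apply]
  · rintro rfl w
    unfold acc
    rw [hA.apply_inverse, force_apply]
    ring

theorem PosDef.smul {A : Bil} (hA : PosDef A) {s : ℝ} (hs : 0 < s) : PosDef (s • A) := by
  constructor
  · intro v w
    simp only [smul_apply, smul_eq_mul]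
    rw [hA.1 v w]
  · intro v hv
    simp only [smul_apply, smul_eq_mul]
    exact mul_pos hs (hA.2 v hv)

private theorem PosDef.injective {A : Bil} (hA : PosDef A) {a b : P2} (h : A a = A b) : a = b := by
  rw [← hA.inverse_apply a, h, hA.inverse_apply]

private theorem inverse_smul {A : Bil} (hA : PosDef A) {s : ℝ} (hs : s ≠ 0) (σ : P2 →L[ℝ] ℝ) :
    ContinuousLinearMap.inverse (s • A) σ = s⁻¹ • ContinuousLinearMap.inverse A σ := by
  obtain ⟨e, he⟩ := hA.exists_equiv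
  have h1 : ((e.trans (ContinuousLinearEquiv.smulLeft (Units.mk0 s hs)) : P2 ≃L[ℝ] (P2 →L[ℝ] ℝ)) :
      P2 →L[ℝ] (P2 →L[ℝ] ℝ)) = s • A := by
    rw [← he]
    ext v w
    simp [Units.smul_def]
  rw [← h1, ContinuousLinearMap.inverse_equiv]
  apply (e.trans (ContinuousLinearEquiv.smulLeft (Units.mk0 s hs))).injective
  rw [ContinuousLinearEquiv.coe_coe, ContinuousLinearEquiv.apply_symm_apply]
  have h2 : ∀ v, (e.trans (ContinuousLinearEquiv.smulLeft (Units.mk0 s hs))) v = (s • A) v := by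
    intro v
    rw [← h1]
    rfl
  rw [h2]
  simp only [smul_apply, map_smul]
  rw [hA.apply_inverse, smul_smul, inv_mul_cancel₀ hs, one_smul]

/-- The acceleration for a conformally changed metric `s A`, whose derivative is `σ ⊗ A + s B`. -/
theorem acc_conf {A : Bil} (hA : PosDef A) (B : P2 →L[ℝ] Bil) (v : P2) {s : ℝ} (hs : s ≠ 0) (σ : P2 →L[ℝ] ℝ) :
    acc (s • A) (σ.smulRight A + s • B) v =
      acc A B v + (1 / (2 * s)) • ((A v v) • ContinuousLinearMap.inverse A σ - (2 * σ v) • v) := by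
  unfold acc
  rw [inverse_smul hA hs]
  apply hA.injective
  rw [map_smul, map_add, map_smul, map_sub, map_smul, map_smul, hA.apply_inverse,
    hA.apply_inverse, hA.apply_inverse]
  ext w
  simp only [smul_apply, add_apply, force_apply,
    ContinuousLinearMap.smulRight_apply, smul_eq_mul, sub_apply]
  field_simp
  ring

/-- Cauchy-Schwarz for a covector. -/
theorem PosDef.cauchy {A : Bil} (hA : PosDef A) (ℓ : P2 →L[ℝ] ℝ) (v : P2) :
    (ℓ v) ^ 2 ≤ ℓ (ContinuousLinearMap.inverse A ℓ) * A v v := by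
  set a := ContinuousLinearMap.inverse A ℓ with ha
  have h1 : A a = ℓ := hA.apply_inverse ℓ
  have hnn : ∀ u, 0 ≤ A u u := by
    intro u
    by_cases h : u = 0
    · subst h; simp
    · exact (hA.2 u h).le
  have h2 : ∀ t : ℝ, 0 ≤ (A v v) * (t * t) + (2 * ℓ v) * t + ℓ a := by
    intro t
    have h3 := hnn (a + t • v)
    have h4 : A (a + t • v) (a + t • v) = (A v v) * (t * t) + (2 * ℓ v) * t + ℓ a := by
      simp only [map_add, map_smul, add_apply, smul_apply,
        smul_eq_mul]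
      rw [hA.1 v a, h1]
      ring
    rw [← h4]
    exact h3
  have h5 := discrim_le_zero h2
  unfold discrim at h5
  nlinarith

private theorem contDiff_force {n : WithTop ℕ∞} :
    ContDiff ℝ n (fun t : (P2 →L[ℝ] Bil) × P2 => force t.1 t.2) := by
  unfold force
  have h1 : ContDiff ℝ n (fun t : (P2 →L[ℝ] Bil) × P2 => t.1.flip) :=
    (ContinuousLinearMap.flipₗᵢ ℝ P2 P2 (P2 →L[ℝ] ℝ)).contDiff.comp contDiff_fst
  have h2 : ContDiff ℝ n (fun t : (P2 →L[ℝ] Bil) × P2 => t.1.flip t.2) :=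
    h1.clm_apply contDiff_snd
  have h3 : ContDiff ℝ n (fun t : (P2 →L[ℝ] Bil) × P2 => (t.1.flip t.2).flip) :=
    (ContinuousLinearMap.flipₗᵢ ℝ P2 P2 ℝ).contDiff.comp h2
  have h4 : ContDiff ℝ n (fun t : (P2 →L[ℝ] Bil) × P2 => (t.1.flip t.2).flip t.2) :=
    h3.clm_apply contDiff_snd
  have h5 : ContDiff ℝ n (fun t : (P2 →L[ℝ] Bil) × P2 => t.1 t.2) :=
    contDiff_fst.clm_apply contDiff_snd
  have h6 : ContDiff ℝ n (fun t : (P2 →L[ℝ] Bil) × P2 => t.1 t.2 t.2) :=
    h5.clm_apply contDiff_snd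
  exact (h4.const_smul (1 / 2 : ℝ)).sub h6

private theorem contDiffAt_acc {n : WithTop ℕ∞} {A : Bil} (hA : PosDef A) (B : P2 →L[ℝ] Bil)
    (v : P2) :
    ContDiffAt ℝ n (fun t : Bil × (P2 →L[ℝ] Bil) × P2 => acc t.1 t.2.1 t.2.2) (A, B, v) := by
  unfold acc
  obtain ⟨e, he⟩ := hA.exists_equiv
  have h1 : ContDiffAt ℝ n (ContinuousLinearMap.inverse : Bil → _) A := by
    rw [← he]
    exact contDiffAt_map_inverse e
  have h2 : ContDiffAt ℝ n (fun t : Bil × (P2 →L[ℝ] Bil) × P2 =>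
      ContinuousLinearMap.inverse t.1) (A, B, v) :=
    ContDiffAt.comp (A, B, v) h1 contDiffAt_fst
  have h3 : ContDiffAt ℝ n (fun t : Bil × (P2 →L[ℝ] Bil) × P2 =>
      force t.2.1 t.2.2) (A, B, v) :=
    (contDiff_force.comp contDiff_snd).contDiffAt
  exact h2.clm_apply h3

/-- Joint continuity of the acceleration. -/
theorem continuousAt_acc {A : Bil} (hA : PosDef A) (B : P2 →L[ℝ] Bil) (v : P2) :
    ContinuousAt (fun t : Bil × (P2 →L[ℝ] Bil) × P2 => acc t.1 t.2.1 t.2.2) (A, B, v) :=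
  (contDiffAt_acc (n := 0) hA B v).continuousAt

/-- Smoothness of the acceleration. -/
theorem contDiffOn_acc {D : Set P2} (hD : IsOpen D) {G : P2 → Bil} (hG : ContDiffOn ℝ ∞ G D)
    (hpos : ∀ y ∈ D, PosDef (G y)) :
    ContDiffOn ℝ ∞ (fun q : P2 × P2 => acc (G q.1) (fderiv ℝ G q.1) q.2) (D ×ˢ Set.univ) := by
  rintro ⟨y, v⟩ ⟨hy, -⟩
  have hy' : y ∈ D := hy
  apply ContDiffAt.contDiffWithinAt
  have h1 := contDiffAt_acc (n := ∞) (hpos y hy') (fderiv ℝ G y) v
  have hGy : ContDiffAt ℝ ∞ G y := hG.contDiffAt (hD.mem_nhds hy')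
  have hfd : ContDiffOn ℝ ∞ (fderiv ℝ G) D :=
    hG.fderiv_of_isOpen hD (by simp)
  have hfdy : ContDiffAt ℝ ∞ (fderiv ℝ G) y := hfd.contDiffAt (hD.mem_nhds hy')
  have h2 : ContDiffAt ℝ ∞ (fun q : P2 × P2 => (G q.1, fderiv ℝ G q.1, q.2)) (y, v) :=
    (ContDiffAt.comp (y, v) hGy contDiffAt_fst).prodMk
      ((ContDiffAt.comp (y, v) hfdy contDiffAt_fst).prodMk contDiffAt_snd)
  exact ContDiffAt.comp (y, v) h1 h2

/-- Uniform positivity on compact sets. -/
theorem exists_lower_bound {K : Set P2} (hK : IsCompact K) {G : P2 → Bil} (hG : ContinuousOn G K)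
    (hpos : ∀ y ∈ K, PosDef (G y)) : ∃ c > 0, ∀ y ∈ K, ∀ v : P2, c * ‖v‖ ^ 2 ≤ G y v v := by
  rcases K.eq_empty_or_nonempty with rfl | ⟨y₀, hy₀⟩
  · exact ⟨1, one_pos, fun y hy => absurd hy (Set.notMem_empty y)⟩
  have hcomp : IsCompact (K ×ˢ Metric.sphere (0 : P2) 1) := hK.prod (isCompact_sphere 0 1)
  have hne : (K ×ˢ Metric.sphere (0 : P2) 1).Nonempty := by
    refine ⟨(y₀, EuclideanSpace.single 0 1), hy₀, ?_⟩
    simp
  have hcont : ContinuousOn (fun q : P2 × P2 => G q.1 q.2 q.2)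
      (K ×ˢ Metric.sphere (0 : P2) 1) := by
    have h1 : ContinuousOn (fun q : P2 × P2 => G q.1) (K ×ˢ Metric.sphere (0 : P2) 1) :=
      hG.comp continuousOn_fst (fun q hq => hq.1)
    exact (h1.clm_apply continuousOn_snd).clm_apply continuousOn_snd
  obtain ⟨⟨y₁, v₁⟩, ⟨hy₁, hv₁⟩, hmin⟩ := hcomp.exists_isMinOn hne hcont
  have hv₁' : v₁ ≠ 0 := by
    rintro rfl
    simp at hv₁
  refine ⟨G y₁ v₁ v₁, (hpos y₁ hy₁).2 v₁ hv₁', ?_⟩
  intro y hy v
  by_cases hv : v = 0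
  · subst hv; simp
  have hn : 0 < ‖v‖ := norm_pos_iff.2 hv
  have h2 := hmin (show (y, ‖v‖⁻¹ • v) ∈ K ×ˢ Metric.sphere (0 : P2) 1 from
    ⟨hy, by
      rw [mem_sphere_zero_iff_norm, norm_smul, norm_inv, norm_norm, inv_mul_cancel₀ hn.ne']⟩)
  simp only [Set.mem_ofPred_eq, map_smul, smul_apply, smul_eq_mul] at h2
  have h3 : ‖v‖⁻¹ * (‖v‖⁻¹ * G y v v) = G y v v / ‖v‖ ^ 2 := by field_simp
  rw [h3, le_div_iff₀ (by positivity)] at h2
  exact h2

private theorem gram_pos {A : Bil} (hA : PosDef A) :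
    0 < A (EuclideanSpace.single 0 1) (EuclideanSpace.single 0 1) *
      A (EuclideanSpace.single 1 1) (EuclideanSpace.single 1 1) -
      A (EuclideanSpace.single 0 1) (EuclideanSpace.single 1 1) ^ 2 := by
  set e0 : P2 := EuclideanSpace.single 0 1 with he0
  set e1 : P2 := EuclideanSpace.single 1 1 with he1
  have h0 : e0 ≠ 0 := by
    intro h
    have := congrArg (fun v : P2 => v 0) h
    simp [he0] at this
  have h00 := hA.2 e0 h0
  set w : P2 := (A e0 e0) • e1 - (A e0 e1) • e0 with hw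
  have hw0 : w ≠ 0 := by
    intro h
    have := congrArg (fun v : P2 => v 1) h
    simp [hw, he0, he1] at this
    exact h00.ne' this
  have h1 := hA.2 w hw0
  have h2 : A w w = A e0 e0 * (A e0 e0 * A e1 e1 - A e0 e1 ^ 2) := by
    rw [hw]
    simp only [map_sub, map_smul, sub_apply, smul_apply, smul_eq_mul]
    rw [hA.1 e1 e0]
    ring
  rw [h2] at h1
  exact pos_of_mul_pos_right h1 h00.le

theorem dens_pos {A : Bil} (hA : PosDef A) : 0 < dens A := Real.sqrt_pos.2 (gram_pos hA)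

theorem dens_smul {s : ℝ} (hs : 0 ≤ s) (A : Bil) : dens (s • A) = s * dens A := by
  unfold dens
  simp only [smul_apply, smul_eq_mul]
  rw [← Real.sqrt_sq hs, ← Real.sqrt_mul (sq_nonneg s)]
  congr 1
  rw [Real.sqrt_sq hs]
  ring

theorem contDiffOn_dens {D : Set P2} {G : P2 → Bil} (hG : ContDiffOn ℝ ∞ G D)
    (hpos : ∀ y ∈ D, PosDef (G y)) : ContDiffOn ℝ ∞ (fun y => dens (G y)) D := by
  unfold dens
  have h1 : ∀ v w : P2, ContDiffOn ℝ ∞ (fun y => G y v w) D := fun v w =>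
    (hG.clm_apply contDiffOn_const).clm_apply contDiffOn_const
  apply ContDiffOn.sqrt
  · exact ((h1 _ _).mul (h1 _ _)).sub ((h1 _ _).pow 2)
  · intro y hy
    exact (gram_pos (hpos y hy)).ne'

end Pool.Agent.Helper82.GS
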