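import Pool.Agent.Helper82.GS.OscBound
import Pool.Agent.Helper82.GS.Acc

/-!
# Conformal perturbations of a metric on the surface (module GS-8)
-/

set_option maxSynthPendingDepth 3

namespace Pool.Agent.Helper82.GS

open MeasureTheory Filter Topology
open scoped ContDiff Manifold

variable {S : Type*} [TopologicalSpace S] [ChartedSpace P2 S]

open Classical in
/-- Extension by zero of a function in a chart. -/
noncomputable def ext (e : OpenPartialHomeomorph S P2) (f : P2 → ℝ) (x : S) : ℝ := if x ∈ e.source then f (e x) else 0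

open Classical in
/-- Multiplication of a metric by a positive smooth function. -/
noncomputable def RMetric.scale (g : RMetric S) (s : S → ℝ)
    (hs : ∀ e ∈ atlas P2 S, ContDiffOn ℝ ∞ (s ∘ e.symm) e.target) (hpos : ∀ x, 0 < s x) : RMetric S where
  comp e y := s (e.symm y) • g.comp e y
  smooth e he := (hs e he).smul (g.smooth e he)
  posDef e he y hy := (g.posDef e he y hy).smul (hpos _)
  change e he e' he' x hx hx' v w := by
    have h := g.change e he e' he' x hx hx' v w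
    simp only [e.left_inv hx, e'.left_inv hx', ContinuousLinearMap.smul_apply, h]
  zero_off e y h := by rw [g.zero_off e y h, smul_zero]

/-- Transition maps are smooth. -/
theorem trans_smooth [IsManifold (modelWithCornersSelf ℝ P2) ∞ S] {e e' : OpenPartialHomeomorph S P2}
    (he : e ∈ atlas P2 S) (he' : e' ∈ atlas P2 S) :
    ContDiffOn ℝ ∞ (e ∘ e'.symm) (e'.target ∩ e'.symm ⁻¹' e.source) := by
  have h := HasGroupoid.compatible (G := contDiffGroupoid ∞ (modelWithCornersSelf ℝ P2)) he' he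
  rw [contDiffGroupoid, mem_groupoid_of_pregroupoid] at h
  have h1 := h.1
  simpa [contDiffPregroupoid] using h1

/-- The extension by zero, in another chart, over the source of the chart. -/
theorem ext_of_mem {e : OpenPartialHomeomorph S P2} (f : P2 → ℝ) {x : S} (hx : x ∈ e.source) :
    ext e f x = f (e x) := by
  simp [ext, hx]

/-- The extension by zero vanishes off the image of the support. -/
theorem ext_of_notMem {e : OpenPartialHomeomorph S P2} {f : P2 → ℝ} {K : Set P2} (hfK : ∀ y, y ∉ K → f y = 0)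
    {x : S} (hx : x ∉ e.symm '' K) : ext e f x = 0 := by
  unfold ext
  split_ifs with h
  · apply hfK
    intro hK
    exact hx ⟨e x, hK, e.left_inv h⟩
  · rfl

variable [T2Space S] [IsManifold (modelWithCornersSelf ℝ P2) ∞ S]

omit [IsManifold (modelWithCornersSelf ℝ P2) ∞ S] in
theorem isClosed_symm_image {e : OpenPartialHomeomorph S P2} {K : Set P2} (hK : IsCompact K)
    (hKe : K ⊆ e.target) : IsClosed (e.symm '' K) :=
  (hK.image_of_continuousOn (e.continuousOn_symm.mono hKe)).isClosed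

/-- The extension by zero of a smooth function supported in a compact subset of the chart is smooth. -/
theorem ext_smooth {e : OpenPartialHomeomorph S P2} (he : e ∈ atlas P2 S) {f : P2 → ℝ} (hf : ContDiff ℝ ∞ f)
    {K : Set P2} (hK : IsCompact K) (hKe : K ⊆ e.target) (hfK : ∀ y, y ∉ K → f y = 0) :
    ∀ e' ∈ atlas P2 S, ContDiffOn ℝ ∞ (ext e f ∘ e'.symm) e'.target := by
  intro e' he' y hy
  refine ContDiffAt.contDiffWithinAt ?_
  by_cases hx : e'.symm y ∈ e.source
  · have hO : IsOpen (e'.target ∩ e'.symm ⁻¹' e.source) :=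
      e'.isOpen_inter_preimage_symm e.open_source
    have h1 : ContDiffAt ℝ ∞ (f ∘ (e ∘ e'.symm)) y :=
      hf.contDiffAt.comp y ((trans_smooth he he').contDiffAt (hO.mem_nhds ⟨hy, hx⟩))
    refine h1.congr_of_eventuallyEq ?_
    filter_upwards [hO.mem_nhds ⟨hy, hx⟩] with z hz
    exact ext_of_mem f hz.2
  · have hO : IsOpen (e'.target ∩ e'.symm ⁻¹' (e.symm '' K)ᶜ) :=
      e'.isOpen_inter_preimage_symm (isClosed_symm_image hK hKe).isOpen_compl
    have hyO : y ∈ e'.target ∩ e'.symm ⁻¹' (e.symm '' K)ᶜ := by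
      refine ⟨hy, ?_⟩
      rintro ⟨z, hz, hzy⟩
      exact hx (hzy ▸ e.map_target (hKe hz))
    refine (contDiffAt_const (c := (0 : ℝ))).congr_of_eventuallyEq ?_
    filter_upwards [hO.mem_nhds hyO] with z hz
    exact ext_of_notMem hfK hz.2

/-- The oscillating perturbations of order `N^{-m}` are small in all derivatives of order less than `m`, in all
charts. -/
theorem pert_small (g : RMetric S) {e : OpenPartialHomeomorph S P2} (he : e ∈ atlas P2 S) {χ : P2 → ℝ}
    (hχ : ContDiff ℝ ∞ χ) {K : Set P2} (hK : IsCompact K) (hKe : K ⊆ e.target) (hχK : ∀ y, y ∉ K → χ y = 0)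
    (ℓ : P2 →L[ℝ] ℝ) (m : ℕ) {e' : OpenPartialHomeomorph S P2} (he' : e' ∈ atlas P2 S) {K' : Set P2}
    (hK' : IsCompact K') (hKe' : K' ⊆ e'.target) {k : ℕ} (hk : k < m) {δ : ℝ} (hδ : 0 < δ) :
    ∀ᶠ N : ℕ in atTop, ∀ y ∈ K',
      ‖iteratedFDeriv ℝ k (fun z => (1 + ext e (fun z => ((N : ℝ) ^ m)⁻¹ * (χ z * Real.cos (N * ℓ z))) (e'.symm z)) •
        g.comp e' z) y - iteratedFDeriv ℝ k (g.comp e') y‖ < δ := by
  set O : Set P2 := e'.target ∩ e'.symm ⁻¹' e.source with hOdef
  have hO : IsOpen O := e'.isOpen_inter_preimage_symm e.open_source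
  set C : Set S := e.symm '' K with hCdef
  have hC : IsClosed C := isClosed_symm_image hK hKe
  have hCs : C ⊆ e.source := by
    rintro x ⟨z, hz, rfl⟩
    exact e.map_target (hKe hz)
  have hO2 : IsOpen (e'.target ∩ e'.symm ⁻¹' Cᶜ) := e'.isOpen_inter_preimage_symm hC.isOpen_compl
  have hK2 : IsCompact (K' ∩ e'.symm ⁻¹' C) := by
    have h1 : IsClosed (K' ∩ e'.symm ⁻¹' C) :=
      (e'.continuousOn_symm.mono hKe').preimage_isClosed_of_isClosed hK'.isClosed hC
    exact hK'.of_isClosed_subset h1 Set.inter_subset_left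
  have hK2O : K' ∩ e'.symm ⁻¹' C ⊆ O := fun y hy => ⟨hKe' hy.1, hCs hy.2⟩
  have hΨ : ContDiffOn ℝ ∞ (e ∘ e'.symm) O := trans_smooth he he'
  have hh : ContDiffOn ℝ ∞ (fun y => ℓ ((e ∘ e'.symm) y)) O := ℓ.contDiff.comp_contDiffOn hΨ
  have hG : ContDiffOn ℝ ∞ (g.comp e') e'.target := g.smooth e' he'
  have hF : ContDiffOn ℝ ∞ (fun y => χ ((e ∘ e'.symm) y) • g.comp e' y) O :=
    (hχ.comp_contDiffOn hΨ).smul (hG.mono Set.inter_subset_left)
  obtain ⟨B, hB⟩ := osc_bound hO hh hK2 hK2O k hF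
  have hfN : ∀ N : ℕ, ContDiff ℝ ∞ (fun z => ((N : ℝ) ^ m)⁻¹ * (χ z * Real.cos (N * ℓ z))) := by
    intro N
    exact contDiff_const.mul (hχ.mul (Real.contDiff_cos.comp (contDiff_const.mul ℓ.contDiff)))
  have hfK : ∀ N : ℕ, ∀ y, y ∉ K → ((N : ℝ) ^ m)⁻¹ * (χ y * Real.cos (N * ℓ y)) = 0 := by
    intro N y hy
    rw [hχK y hy, zero_mul, mul_zero]
  have hlim : Tendsto (fun N : ℕ => |B| * (1 / (N : ℝ))) atTop (𝓝 0) := by
    have := (tendsto_one_div_atTop_nhds_zero_nat (𝕜 := ℝ)).const_mul |B|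
    rwa [mul_zero] at this
  filter_upwards [hlim.eventually_lt_const hδ, eventually_ge_atTop 1] with N hN hN1 y hy
  have hyt : y ∈ e'.target := hKe' hy
  set E : P2 → ℝ := fun z => ext e (fun z => ((N : ℝ) ^ m)⁻¹ * (χ z * Real.cos (N * ℓ z))) (e'.symm z) with hE
  have hEs : ContDiffAt ℝ ∞ E y :=
    (ext_smooth he (hfN N) hK hKe (hfK N) e' he').contDiffAt (e'.open_target.mem_nhds hyt)
  have hGy : ContDiffAt ℝ ∞ (g.comp e') y := hG.contDiffAt (e'.open_target.mem_nhds hyt)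
  have hsplit : (fun z => (1 + E z) • g.comp e' z) = g.comp e' + fun z => E z • g.comp e' z := by
    funext z
    rw [add_smul, one_smul]
    rfl
  have hk' : ((k : ℕ) : WithTop ℕ∞) ≤ ∞ := by exact_mod_cast le_top
  have hdiff : iteratedFDeriv ℝ k (fun z => (1 + E z) • g.comp e' z) y - iteratedFDeriv ℝ k (g.comp e') y =
      iteratedFDeriv ℝ k (fun z => E z • g.comp e' z) y := by
    have hEG : ContDiffAt ℝ k (fun z => E z • g.comp e' z) y := (hEs.smul hGy).of_le hk'
    rw [hsplit, iteratedFDeriv_add_apply (hGy.of_le hk') hEG, add_sub_cancel_left]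
  show ‖iteratedFDeriv ℝ k (fun z => (1 + E z) • g.comp e' z) y - iteratedFDeriv ℝ k (g.comp e') y‖ < δ
  rw [hdiff]
  by_cases hyC : e'.symm y ∈ C
  · have hyO : y ∈ O := hK2O ⟨hy, hyC⟩
    have heq : (fun z => E z • g.comp e' z) =ᶠ[𝓝 y] fun z => ((N : ℝ) ^ m)⁻¹ •
        (Real.cos (N * ℓ ((e ∘ e'.symm) z)) • (χ ((e ∘ e'.symm) z) • g.comp e' z)) := by
      filter_upwards [hO.mem_nhds hyO] with z hz
      have h1 : E z = ((N : ℝ) ^ m)⁻¹ * (χ (e (e'.symm z)) * Real.cos (N * ℓ (e (e'.symm z)))) :=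
        ext_of_mem _ hz.2
      rw [h1, smul_smul, smul_smul]
      congr 1
      simp only [Function.comp_apply]
      ring
    have hs : ContDiffAt ℝ k (fun z => Real.cos (N * ℓ ((e ∘ e'.symm) z)) •
        (χ ((e ∘ e'.symm) z) • g.comp e' z)) y := by
      have h1 : ContDiffAt ℝ ∞ (fun z => Real.cos (N * ℓ ((e ∘ e'.symm) z))) y :=
        Real.contDiff_cos.contDiffAt.comp y
          (contDiffAt_const.mul (hh.contDiffAt (hO.mem_nhds hyO)))
      exact (h1.smul (hF.contDiffAt (hO.mem_nhds hyO))).of_le hk'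
    rw [(Filter.EventuallyEq.iteratedFDeriv ℝ heq k).self_of_nhds, iteratedFDeriv_const_smul_apply' hs, norm_smul]
    have hN0 : (0 : ℝ) < N := by exact_mod_cast hN1
    have h2 := (hB N hN1 y ⟨hy, hyC⟩).1
    have h3 : ‖((N : ℝ) ^ m)⁻¹‖ = ((N : ℝ) ^ m)⁻¹ := by
      rw [norm_inv, norm_pow, Real.norm_of_nonneg hN0.le]
    rw [h3]
    have h4 : ((N : ℝ) ^ m)⁻¹ * (B * (N : ℝ) ^ k) ≤ |B| * (1 / (N : ℝ)) := by
      have h5 : ((N : ℝ) ^ m)⁻¹ * (N : ℝ) ^ k ≤ 1 / (N : ℝ) := by
        rw [inv_mul_le_iff₀ (by positivity), mul_one_div, le_div_iff₀ hN0, ← pow_succ]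
        exact pow_le_pow_right₀ (by exact_mod_cast hN1) hk
      calc ((N : ℝ) ^ m)⁻¹ * (B * (N : ℝ) ^ k) = B * (((N : ℝ) ^ m)⁻¹ * (N : ℝ) ^ k) := by ring
        _ ≤ |B| * (((N : ℝ) ^ m)⁻¹ * (N : ℝ) ^ k) :=
            mul_le_mul_of_nonneg_right (le_abs_self B) (by positivity)
        _ ≤ |B| * (1 / (N : ℝ)) := mul_le_mul_of_nonneg_left h5 (abs_nonneg B)
    exact ((mul_le_mul_of_nonneg_left h2 (by positivity)).trans h4).trans_lt hN
  · have heq : (fun z => E z • g.comp e' z) =ᶠ[𝓝 y] fun _ => (0 : Bil) := by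
      filter_upwards [hO2.mem_nhds ⟨hyt, hyC⟩] with z hz
      have h1 : E z = 0 := ext_of_notMem (hfK N) hz.2
      rw [h1, zero_smul]
    rw [(Filter.EventuallyEq.iteratedFDeriv ℝ heq k).self_of_nhds]
    have h0 : iteratedFDeriv ℝ k (fun _ : P2 => (0 : Bil)) y = 0 := by
      rw [iteratedFDeriv_fun_zero]
      rfl
    rw [h0, norm_zero]
    exact hδ

end Pool.Agent.Helper82.GS
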