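import Pool.Agent.Helper82.GS.Scale

/-!
# Existence and uniqueness of the area measure (module GS-15)
-/

set_option maxSynthPendingDepth 3

namespace Pool.Agent.Helper82.GS

open MeasureTheory Filter Topology
open scoped ContDiff Manifold ENNReal

/-- The Gram determinant under a change of variables. -/
theorem dens_pullback {A A' : Bil} (hA' : ∀ v w, A' v w = A' w v) (L : P2 →L[ℝ] P2)
    (h : ∀ v w, A v w = A' (L v) (L w)) : dens A = |L.det| * dens A' := by
  set E0 : P2 := EuclideanSpace.single 0 1 with hE0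
  set E1 : P2 := EuclideanSpace.single 1 1 with hE1
  have hexp : ∀ w : P2, w = w 0 • E0 + w 1 • E1 := by
    intro w
    ext i
    fin_cases i <;> simp [hE0, hE1]
  have hdet : L.det = (L E0) 0 * (L E1) 1 - (L E1) 0 * (L E0) 1 := by
    have h1 : L.det = LinearMap.det (L : P2 →ₗ[ℝ] P2) := rfl
    rw [h1, ← LinearMap.det_toMatrix (EuclideanSpace.basisFun (Fin 2) ℝ).toBasis,
      Matrix.det_fin_two]
    simp [LinearMap.toMatrix_apply, EuclideanSpace.basisFun_apply, hE0, hE1]
  have h00 : A E0 E0 = (L E0) 0 ^ 2 * A' E0 E0 + 2 * ((L E0) 0 * (L E0) 1) * A' E0 E1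
      + (L E0) 1 ^ 2 * A' E1 E1 := by
    rw [h]
    have h1 := hexp (L E0)
    set a := (L E0) 0
    set c := (L E0) 1
    rw [h1]
    simp only [map_add, map_smul, add_apply, smul_apply,
      smul_eq_mul]
    rw [hA' E1 E0]
    ring
  have h11 : A E1 E1 = (L E1) 0 ^ 2 * A' E0 E0 + 2 * ((L E1) 0 * (L E1) 1) * A' E0 E1
      + (L E1) 1 ^ 2 * A' E1 E1 := by
    rw [h]
    have h1 := hexp (L E1)
    set a := (L E1) 0
    set c := (L E1) 1
    rw [h1]
    simp only [map_add, map_smul, add_apply, smul_apply,
      smul_eq_mul]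
    rw [hA' E1 E0]
    ring
  have h01 : A E0 E1 = (L E0) 0 * (L E1) 0 * A' E0 E0 +
      ((L E0) 0 * (L E1) 1 + (L E0) 1 * (L E1) 0) * A' E0 E1 + (L E0) 1 * (L E1) 1 * A' E1 E1 := by
    rw [h]
    have h1 := hexp (L E0)
    have h2 := hexp (L E1)
    set a := (L E0) 0
    set c := (L E0) 1
    set b := (L E1) 0
    set d := (L E1) 1
    rw [h1, h2]
    simp only [map_add, map_smul, add_apply, smul_apply,
      smul_eq_mul]
    rw [hA' E1 E0]
    ring
  unfold dens
  rw [← hE0, ← hE1, h00, h11, h01, ← Real.sqrt_sq_eq_abs, ← Real.sqrt_mul (sq_nonneg _), hdet]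
  congr 1
  ring

section

variable {S : Type*} [TopologicalSpace S] [ChartedSpace P2 S]

/-- The transition map is smooth. -/
theorem transition_contDiffOn [IsManifold (modelWithCornersSelf ℝ P2) ∞ S]
    {e e' : OpenPartialHomeomorph S P2} (he : e ∈ atlas P2 S) (he' : e' ∈ atlas P2 S) :
    ContDiffOn ℝ ∞ (e' ∘ e.symm) (e.symm ≫ₕ e').source := by
  have h1 : e.symm ≫ₕ e' ∈ contDiffGroupoid ∞ (modelWithCornersSelf ℝ P2) :=
    HasGroupoid.compatible he he'
  have h2 := contMDiffOn_of_mem_contDiffGroupoid h1
  rw [contMDiffOn_iff_contDiffOn] at h2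
  exact h2

variable [MeasurableSpace S] [BorelSpace S]

omit [ChartedSpace P2 S] in
/-- The image of a measurable subset of the source of a chart. -/
theorem measurableSet_image_chart (e : OpenPartialHomeomorph S P2) {A : Set S}
    (hA : MeasurableSet A) (hAe : A ⊆ e.source) : MeasurableSet (e '' A) := by
  rw [e.image_eq_target_inter_inv_preimage hAe]
  have h1 : Measurable (e.target.domRestrict e.symm) :=
    (continuousOn_iff_continuous_domRestrict.1 e.continuousOn_symm).measurable
  have h2 := MeasurableSet.subtype_image e.open_target.measurableSet (h1 hA)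
  convert h2 using 1
  ext y
  simp [and_comm]

/-- The chart measure. -/
noncomputable def nu (g : RMetric S) (e : OpenPartialHomeomorph S P2) : Measure S :=
  Measure.map e.symm ((volume.withDensity (fun y => ENNReal.ofReal (dens (g.comp e y)))).restrict
    e.target)

theorem nu_apply (g : RMetric S) (e : OpenPartialHomeomorph S P2) {A : Set S}
    (hA : MeasurableSet A) (hAe : A ⊆ e.source) :
    nu g e A = ∫⁻ y in e '' A, ENNReal.ofReal (dens (g.comp e y)) := by
  unfold nu
  have hm : AEMeasurable e.symm
      ((volume.withDensity (fun y => ENNReal.ofReal (dens (g.comp e y)))).restrict e.target) :=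
    e.continuousOn_symm.aemeasurable e.open_target.measurableSet
  rw [Measure.map_apply_of_aemeasurable hm hA, Measure.restrict_apply' e.open_target.measurableSet,
    Set.inter_comm, ← e.image_eq_target_inter_inv_preimage hAe,
    withDensity_apply _ (measurableSet_image_chart e hA hAe)]

/-- Compatibility of the chart measures. -/
theorem nu_compat [IsManifold (modelWithCornersSelf ℝ P2) ∞ S] (g : RMetric S)
    {e e' : OpenPartialHomeomorph S P2} (he : e ∈ atlas P2 S) (he' : e' ∈ atlas P2 S) {A : Set S}
    (hA : MeasurableSet A) (hAe : A ⊆ e.source) (hAe' : A ⊆ e'.source) :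
    nu g e A = nu g e' A := by
  rw [nu_apply g e hA hAe, nu_apply g e' hA hAe']
  have hD : MeasurableSet (e '' A) := measurableSet_image_chart e hA hAe
  have himg : e' '' A = (e' ∘ e.symm) '' (e '' A) := by
    rw [← Set.image_comp]
    refine Set.image_congr (fun x hx => ?_)
    simp [e.left_inv (hAe hx)]
  have hsrc : ∀ x ∈ A, e x ∈ (e.symm ≫ₕ e').source := by
    intro x hx
    rw [OpenPartialHomeomorph.trans_source]
    refine ⟨e.map_source (hAe hx), ?_⟩
    show e.symm (e x) ∈ e'.source
    rw [e.left_inv (hAe hx)]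
    exact hAe' hx
  have hder : ∀ y ∈ e '' A, HasFDerivWithinAt (e' ∘ e.symm) (fderiv ℝ (e' ∘ e.symm) y) (e '' A) y := by
    rintro _ ⟨x, hx, rfl⟩
    have h1 := (transition_contDiffOn he he').differentiableOn (by norm_num)
    have h2 := h1.differentiableAt ((e.symm ≫ₕ e').open_source.mem_nhds (hsrc x hx))
    exact h2.hasFDerivAt.hasFDerivWithinAt
  have hinj : Set.InjOn (e' ∘ e.symm) (e '' A) := by
    rintro _ ⟨x, hx, rfl⟩ _ ⟨z, hz, rfl⟩ hxz
    simp only [Function.comp, e.left_inv (hAe hx), e.left_inv (hAe hz)] at hxz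
    rw [e'.injOn (hAe' hx) (hAe' hz) hxz]
  rw [himg, lintegral_image_eq_lintegral_abs_det_fderiv_mul volume hD hder hinj]
  refine setLIntegral_congr_fun hD ?_
  rintro _ ⟨x, hx, rfl⟩
  simp only [Function.comp, e.left_inv (hAe hx)]
  rw [← ENNReal.ofReal_mul (abs_nonneg _)]
  congr 1
  refine dens_pullback (g.posDef e' he' _ (e'.map_source (hAe' hx))).1 _ (fun v w => ?_)
  exact g.change e he e' he' x (hAe hx) (hAe' hx) v w

end

theorem exists_unique_area {S : Type*} [TopologicalSpace S] [CompactSpace S] [T2Space S] [ChartedSpace P2 S]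
    [IsManifold (modelWithCornersSelf ℝ P2) ∞ S] [MeasurableSpace S] [BorelSpace S] (g : RMetric S) :
    ∃! μ : Measure S, IsArea g μ := by
  classical
  rcases isEmpty_or_nonempty S with hS | hS
  · refine ⟨0, ?_, fun μ _ => Subsingleton.elim _ _⟩
    intro e he A _ _
    have h1 : A = ∅ := Set.eq_empty_of_isEmpty A
    simp [h1]
  · -- a countable family of charts covering `S`
    obtain ⟨c, hc, hcov⟩ : ∃ c : ℕ → OpenPartialHomeomorph S P2, (∀ i, c i ∈ atlas P2 S) ∧
        (⋃ i, (c i).source) = Set.univ := by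
      obtain ⟨t, ht⟩ := isCompact_univ.elim_finite_subcover (fun x : S => (chartAt P2 x).source)
        (fun x => (chartAt P2 x).open_source)
        (fun x _ => Set.mem_iUnion.2 ⟨x, mem_chart_source P2 x⟩)
      have htne : (t : Set S).Nonempty := by
        obtain ⟨x⟩ := hS
        obtain ⟨y, hy⟩ := Set.mem_iUnion.1 (ht (Set.mem_univ x))
        obtain ⟨hy1, _⟩ := Set.mem_iUnion.1 hy
        exact ⟨y, hy1⟩
      obtain ⟨f, hf⟩ := t.countable_toSet.exists_eq_range htne
      refine ⟨fun i => chartAt P2 (f i), fun i => chart_mem_atlas P2 _, ?_⟩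
      refine Set.eq_univ_of_univ_subset (fun x _ => ?_)
      obtain ⟨y, hy⟩ := Set.mem_iUnion.1 (ht (Set.mem_univ x))
      obtain ⟨hy1, hy2⟩ := Set.mem_iUnion.1 hy
      have h3 : y ∈ Set.range f := by
        rw [← hf]
        exact hy1
      obtain ⟨i, hi⟩ := h3
      refine Set.mem_iUnion.2 ⟨i, ?_⟩
      show x ∈ (chartAt P2 (f i)).source
      rw [hi]
      exact hy2
    set B : ℕ → Set S := disjointed (fun i => (c i).source) with hB
    have hBm : ∀ i, MeasurableSet (B i) := fun i =>
      MeasurableSet.disjointed (fun i => (c i).open_source.measurableSet) i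
    have hBd : Pairwise (Function.onFun Disjoint B) := disjoint_disjointed _
    have hBs : ∀ i, B i ⊆ (c i).source := fun i => disjointed_subset _ i
    have hBu : (⋃ i, B i) = Set.univ := by
      rw [hB, iUnion_disjointed]
      exact hcov
    -- decomposition of a measure
    have hdec : ∀ (μ : Measure S) (A : Set S), MeasurableSet A → μ A = ∑' i, μ (A ∩ B i) := by
      intro μ A hA
      rw [← measure_iUnion]
      · rw [← Set.inter_iUnion, hBu, Set.inter_univ]
      · intro i j hij
        exact (hBd hij).mono Set.inter_subset_right Set.inter_subset_right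
      · exact fun i => hA.inter (hBm i)
    set μ : Measure S := Measure.sum (fun i => (nu g (c i)).restrict (B i)) with hμ
    have hμA : ∀ A, MeasurableSet A → μ A = ∑' i, nu g (c i) (A ∩ B i) := by
      intro A hA
      rw [hμ, Measure.sum_apply _ hA]
      refine tsum_congr (fun i => ?_)
      rw [Measure.restrict_apply hA]
    have harea : IsArea g μ := by
      intro e he A hA hAe
      rw [← nu_apply g e hA hAe, hμA A hA, hdec (nu g e) A hA]
      refine tsum_congr (fun i => ?_)
      exact nu_compat g (hc i) he (hA.inter (hBm i)) (Set.inter_subset_right.trans (hBs i))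
        (Set.inter_subset_left.trans hAe)
    refine ⟨μ, harea, ?_⟩
    intro μ' hμ'
    refine Measure.ext (fun A hA => ?_)
    rw [hdec μ' A hA, hdec μ A hA]
    refine tsum_congr (fun i => ?_)
    rw [hμ' (c i) (hc i) _ (hA.inter (hBm i)) (Set.inter_subset_right.trans (hBs i)),
      harea (c i) (hc i) _ (hA.inter (hBm i)) (Set.inter_subset_right.trans (hBs i))]

end Pool.Agent.Helper82.GS
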