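import Pool.Agent.Helper82.GS.Bridge
import Pool.Agent.Helper82.GS.AreaExists

/-!
# The theorem for the metrics of the statement
-/

set_option maxSynthPendingDepth 3

namespace Pool.Agent.Helper82.GS

open MeasureTheory Filter Topology
open scoped ContDiff Manifold

variable {S : Type*} [TopologicalSpace S] [ChartedSpace P2 S]

theorem dcomp_eq (g : Stmt.RMetric P2 S) {e : OpenPartialHomeomorph S P2} (he : e ∈ atlas P2 S) {y : P2}
    (hy : y ∈ e.target) (u v w : P2) : g.dcomp e y u v w = fderiv ℝ ((toR g).comp e) y u v w := by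
  have h1 : HasFDerivAt ((toR g).comp e) (fderiv ℝ ((toR g).comp e) y) y :=
    ((contDiffAt_comp (toR g) he hy).differentiableAt (by simp)).hasFDerivAt
  have e1 : (fun z => g.comp e z v w) = fun z => (toR g).comp e z v w := by
    funext z
    rw [toR_apply]
  have h2 : HasFDerivAt (fun z => (toR g).comp e z v w)
      ((ContinuousLinearMap.apply ℝ ℝ w).comp ((ContinuousLinearMap.apply ℝ (P2 →L[ℝ] ℝ) v).comp
        (fderiv ℝ ((toR g).comp e) y))) y :=
    (ContinuousLinearMap.apply ℝ ℝ w).hasFDerivAt.comp y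
      ((ContinuousLinearMap.apply ℝ (P2 →L[ℝ] ℝ) v).hasFDerivAt.comp y h1)
  unfold Stmt.RMetric.dcomp Stmt.dir
  rw [e1, h2.fderiv]
  rfl

theorem isGeodesic_iff (g : Stmt.RMetric P2 S) (γ : ℝ → S) : Stmt.IsGeodesic g γ ↔ IsGeodesic (toR g) γ := by
  unfold Stmt.IsGeodesic IsGeodesic
  refine and_congr_right fun _ => forall_congr' fun e => ?_
  refine forall_congr' fun he => forall_congr' fun t => forall_congr' fun ht => ?_
  refine and_congr_right fun _ => ?_
  have hy : e (γ t) ∈ e.target := e.map_source ht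
  refine and_congr ?_ (forall_congr' fun w => ?_)
  · rw [toR_apply]
    rfl
  · rw [dcomp_eq g he hy, dcomp_eq g he hy, toR_apply]
    rfl

theorem isClosedGeodesic_iff (g : Stmt.RMetric P2 S) (γ : ℝ → S) (T : ℝ) :
    Stmt.IsClosedGeodesic g γ T ↔ IsClosedGeodesic (toR g) γ T := by
  unfold Stmt.IsClosedGeodesic IsClosedGeodesic
  rw [isGeodesic_iff]

theorem dense_of_dense {g : Stmt.RMetric P2 S} (h : ClosedGeodesicsDense (toR g)) : Stmt.ClosedGeodesicsDense g := by
  intro e he y hy v hv ε hε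
  obtain ⟨γ, T, hγ, t, ht, h1, h2⟩ := h e he y hy v (by rw [toR_apply]; exact hv) ε hε
  exact ⟨γ, T, (isClosedGeodesic_iff g γ T).mpr hγ, t, ht, h1, h2⟩

variable [MeasurableSpace S]

theorem dens_toR (g : Stmt.RMetric P2 S) (e : OpenPartialHomeomorph S P2) (y : P2) :
    dens ((toR g).comp e y) = Stmt.dens (g.comp e y) := by
  simp only [dens, Stmt.dens, toR_apply]

theorem isArea_iff (g : Stmt.RMetric P2 S) (μ : Measure S) : Stmt.IsArea g μ ↔ IsArea (toR g) μ := by
  unfold Stmt.IsArea IsArea
  simp only [dens_toR]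

theorem equi_of_equi {g : Stmt.RMetric P2 S} (h : Stmt.Equidistributed g) : Equidistributed (toR g) := by
  obtain ⟨μ, hμ, C, hC, hav⟩ := h
  refine ⟨μ, (isArea_iff g μ).mp hμ, C, fun k c hc => (isClosedGeodesic_iff g _ _).mp (hC k c hc), ?_⟩
  intro a ha
  exact hav a ha

theorem exists_unique_area' [CompactSpace S] [T2Space S] [IsManifold (modelWithCornersSelf ℝ P2) ∞ S]
    [BorelSpace S] (g : Stmt.RMetric P2 S) : ∃! μ : Measure S, Stmt.IsArea g μ := by
  simp only [isArea_iff]
  exact exists_unique_area (toR g)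

theorem main' (S : Type*) [TopologicalSpace S] [CompactSpace S] [T2Space S] [ChartedSpace P2 S]
    [IsManifold (modelWithCornersSelf ℝ P2) ∞ S] [MeasurableSpace S] [BorelSpace S] :
    ∀ᶠ g in residual (Stmt.RMetric P2 S), Stmt.Equidistributed g → Stmt.ClosedGeodesicsDense g := by
  have h := (tendsto_residual_of_isOpenMap (continuous_toR (S := S)) isOpenMap_toR).eventually (main S)
  filter_upwards [h] with g hg hE
  exact dense_of_dense (hg (equi_of_equi hE))

end Pool.Agent.Helper82.GS
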