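import Mathlib

/-!
# Riemannian metrics on closed surfaces, closed geodesics, area: definitions

`S` is a compact smooth surface (a manifold modelled on the Euclidean plane `P2`).  A Riemannian metric is given by its
components in the charts of the atlas, with the usual transformation rule.
-/

namespace Pool.Agent.Helper82.GS

open MeasureTheory Filter Topology
open scoped ContDiff Manifold

/-- The Euclidean plane. -/
abbrev P2 := EuclideanSpace ℝ (Fin 2)

/-- Bilinear forms on the plane. -/
abbrev Bil := P2 →L[ℝ] P2 →L[ℝ] ℝ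

/-- Symmetric positive definite bilinear forms. -/
def PosDef (A : Bil) : Prop := (∀ v w, A v w = A w v) ∧ ∀ v, v ≠ 0 → 0 < A v v

/-- The area density of a bilinear form: the square root of its Gram determinant. -/
noncomputable def dens (A : Bil) : ℝ :=
  Real.sqrt (A (EuclideanSpace.single 0 1) (EuclideanSpace.single 0 1) *
    A (EuclideanSpace.single 1 1) (EuclideanSpace.single 1 1) -
    A (EuclideanSpace.single 0 1) (EuclideanSpace.single 1 1) ^ 2)

section Surface

variable (S : Type*) [TopologicalSpace S] [ChartedSpace P2 S]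

/-- A smooth Riemannian metric on `S`, given by its components `comp e y` in the charts `e` of the atlas, at the points
`y` of the target of `e` (and zero elsewhere). -/
structure RMetric where
  /-- The components of the metric in a chart. -/
  comp : OpenPartialHomeomorph S P2 → P2 → Bil
  smooth : ∀ e ∈ atlas P2 S, ContDiffOn ℝ ∞ (comp e) e.target
  posDef : ∀ e ∈ atlas P2 S, ∀ y ∈ e.target, PosDef (comp e y)
  change : ∀ e ∈ atlas P2 S, ∀ e' ∈ atlas P2 S, ∀ x ∈ e.source, x ∈ e'.source → ∀ v w : P2,
    comp e (e x) v w =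
      comp e' (e' x) (fderiv ℝ (e' ∘ e.symm) (e x) v) (fderiv ℝ (e' ∘ e.symm) (e x) w)
  zero_off : ∀ e y, e ∉ atlas P2 S ∨ y ∉ e.target → comp e y = 0

variable {S}

/-- Metrics whose derivatives of order `r` in the chart `e` are uniformly `δ`-close to those of `g₀` on `K`. -/
def RMetric.near (g₀ : RMetric S) (e : OpenPartialHomeomorph S P2) (K : Set P2) (r : ℕ) (δ : ℝ) : Set (RMetric S) :=
  {g | ∀ y ∈ K, ‖iteratedFDeriv ℝ r (g.comp e) y - iteratedFDeriv ℝ r (g₀.comp e) y‖ < δ}

/-- The smooth topology on the space of Riemannian metrics: uniform convergence of all derivatives of the components on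
the compact subsets of the charts. -/
instance RMetric.topology : TopologicalSpace (RMetric S) :=
  TopologicalSpace.generateFrom {U | ∃ (g₀ : RMetric S) (e : OpenPartialHomeomorph S P2) (K : Set P2) (r : ℕ) (δ : ℝ),
    e ∈ atlas P2 S ∧ IsCompact K ∧ K ⊆ e.target ∧ U = g₀.near e K r δ}

/-- A unit speed geodesic: in every chart it is of class `C^2`, of speed one, and satisfies the Euler-Lagrange equation
of the energy, `d/dt g(c', w) = (1/2) (D_w g)(c', c')` for all constant vectors `w`. -/
def IsGeodesic (g : RMetric S) (γ : ℝ → S) : Prop :=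
  Continuous γ ∧ ∀ e ∈ atlas P2 S, ∀ t, γ t ∈ e.source →
    ContDiffAt ℝ 2 (e ∘ γ) t ∧
    g.comp e (e (γ t)) (deriv (e ∘ γ) t) (deriv (e ∘ γ) t) = 1 ∧
    ∀ w : P2, g.comp e (e (γ t)) (deriv (deriv (e ∘ γ)) t) w +
        fderiv ℝ (g.comp e) (e (γ t)) (deriv (e ∘ γ) t) (deriv (e ∘ γ) t) w =
      (1 / 2) * fderiv ℝ (g.comp e) (e (γ t)) w (deriv (e ∘ γ) t) (deriv (e ∘ γ) t)

/-- A closed geodesic with period (length) `T`. -/
def IsClosedGeodesic (g : RMetric S) (γ : ℝ → S) (T : ℝ) : Prop :=
  IsGeodesic g γ ∧ 0 < T ∧ ∀ t, γ (t + T) = γ t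

/-- The closed geodesics of `g` are dense in the unit tangent bundle: in every chart, every unit vector at every point
is approximated by the velocities of closed geodesics. -/
def ClosedGeodesicsDense (g : RMetric S) : Prop :=
  ∀ e ∈ atlas P2 S, ∀ y ∈ e.target, ∀ v : P2, g.comp e y v v = 1 → ∀ ε > 0,
    ∃ (γ : ℝ → S) (T : ℝ), IsClosedGeodesic g γ T ∧
      ∃ t, γ t ∈ e.source ∧ ‖e (γ t) - y‖ < ε ∧ ‖deriv (e ∘ γ) t - v‖ < ε

/-- The average of a function over a finite family of closed geodesics, each given by a curve and its length. -/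
noncomputable def average (L : List ((ℝ → S) × ℝ)) (a : S → ℝ) : ℝ :=
  (L.map fun c => ∫ t in (0 : ℝ)..c.2, a (c.1 t)).sum / (L.map fun c => c.2).sum

variable [MeasurableSpace S]

/-- The area measure of `g`: in every chart it is Lebesgue measure with density the square root of the Gram
determinant. -/
def IsArea (g : RMetric S) (μ : Measure S) : Prop :=
  ∀ e ∈ atlas P2 S, ∀ A : Set S, MeasurableSet A → A ⊆ e.source →
    μ A = ∫⁻ y in e '' A, ENNReal.ofReal (dens (g.comp e y))

/-- The closed geodesics of `g` are equidistributed in the surface: for some sequence of finite families of closed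
geodesics the averages of every continuous function tend to its area average. -/
def Equidistributed (g : RMetric S) : Prop :=
  ∃ μ : Measure S, IsArea g μ ∧ ∃ C : ℕ → List ((ℝ → S) × ℝ),
    (∀ k, ∀ c ∈ C k, IsClosedGeodesic g c.1 c.2) ∧
    ∀ a : S → ℝ, Continuous a →
      Tendsto (fun k => average (C k) a) atTop (𝓝 ((∫ x, a x ∂μ) / μ.real Set.univ))

end Surface

end Pool.Agent.Helper82.GS
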