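import Pool.Agent.Helper82.GS.Scale

/-!
# Directions, reversal and change of chart (module GS-13)
-/

set_option maxSynthPendingDepth 3

namespace Pool.Agent.Helper82.GS

open MeasureTheory Filter Topology
open scoped ContDiff Manifold

/-- The functional `w ↦ v 0 * w 1 - v 1 * w 0`. -/
private noncomputable def perp (v : P2) : P2 →L[ℝ] ℝ :=
  (v 0) • EuclideanSpace.proj (1 : Fin 2) - (v 1) • EuclideanSpace.proj (0 : Fin 2)

private theorem perp_apply (v w : P2) : perp v w = v 0 * w 1 - v 1 * w 0 := by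
  simp [perp]

private theorem perp_self (v : P2) : perp v v = 0 := by
  rw [perp_apply]; ring

private theorem perp_ne_zero {v : P2} (hv : v ≠ 0) : perp v ≠ 0 := by
  intro h
  apply hv
  have h0 : perp v (EuclideanSpace.single 1 1) = 0 := by rw [h]; rfl
  have h1 : perp v (EuclideanSpace.single 0 1) = 0 := by rw [h]; rfl
  rw [perp_apply] at h0 h1
  simp at h0 h1
  ext i
  fin_cases i
  · simpa using h0
  · simpa using h1

private theorem perp_ker {v w : P2} (hv : v ≠ 0) (h : perp v w = 0) : ∃ t : ℝ, w = t • v := by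
  rw [perp_apply] at h
  by_cases h0 : v 0 = 0
  · have h1 : v 1 ≠ 0 := by
      intro h1
      apply hv
      ext i
      fin_cases i
      · simpa using h0
      · simpa using h1
    refine ⟨w 1 / v 1, ?_⟩
    ext i
    fin_cases i
    · have : w 0 = 0 := by
        rw [h0, zero_mul, zero_sub, neg_eq_zero] at h
        exact (mul_eq_zero.1 h).resolve_left h1
      simp [this, h0]
    · simp [h1]
  · refine ⟨w 0 / v 0, ?_⟩
    ext i
    fin_cases i
    · simp [h0]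
    · simp only [Fin.mk_one, PiLp.smul_apply, smul_eq_mul]
      field_simp
      linarith

private theorem tendsto_clm {E F : Type*} [NormedAddCommGroup E] [NormedSpace ℝ E] [NormedAddCommGroup F]
    [NormedSpace ℝ F] {f : ℕ → E →L[ℝ] F} {x : ℕ → E} {f₀ : E →L[ℝ] F} {x₀ : E}
    (hf : Tendsto f atTop (𝓝 f₀)) (hx : Tendsto x atTop (𝓝 x₀)) :
    Tendsto (fun n => f n (x n)) atTop (𝓝 (f₀ x₀)) :=
  ((isBoundedBilinearMap_apply (𝕜 := ℝ)).continuous.tendsto (f₀, x₀)).comp (hf.prodMk_nhds hx)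

/-- Compactness: unit vectors near the kernel of `perp v₀` over points near `y₀` are near `±v₀`. -/
private theorem dir_aux {D : Set P2} (hD : IsOpen D) {G : P2 → Bil} (hG : ContDiffOn ℝ ∞ G D)
    (hpos : ∀ y ∈ D, PosDef (G y)) {y₀ v₀ : P2} (hy : y₀ ∈ D) (hv : G y₀ v₀ v₀ = 1) {ε : ℝ} (hε : 0 < ε) :
    ∃ δ > 0, Metric.closedBall y₀ δ ⊆ D ∧ ∀ (y v : P2) (ℓ : P2 →L[ℝ] ℝ), ‖y - y₀‖ ≤ δ →
      ‖ℓ - perp v₀‖ ≤ δ → |ℓ v| ≤ δ * ‖v‖ → G y v v = 1 → ‖v - v₀‖ < ε ∨ ‖-v - v₀‖ < ε := by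
  have hv0 : v₀ ≠ 0 := by
    rintro rfl
    simp at hv
  obtain ⟨ρ, hρ, hρD⟩ := Metric.nhds_basis_closedBall.mem_iff.1 (hD.mem_nhds hy)
  obtain ⟨c, hc, hcb⟩ := exists_lower_bound (isCompact_closedBall y₀ ρ) (hG.continuousOn.mono hρD)
    (fun y hy => hpos y (hρD hy))
  by_contra hcon
  push Not at hcon
  -- a sequence of bad data
  have hseq : ∀ n : ℕ, ∃ (y v : P2) (ℓ : P2 →L[ℝ] ℝ), ‖y - y₀‖ ≤ min ρ (1 / ((n : ℝ) + 1)) ∧
      ‖ℓ - perp v₀‖ ≤ 1 / ((n : ℝ) + 1) ∧ |ℓ v| ≤ 1 / ((n : ℝ) + 1) * ‖v‖ ∧ G y v v = 1 ∧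
      ε ≤ ‖v - v₀‖ ∧ ε ≤ ‖-v - v₀‖ := by
    intro n
    have hn : (0 : ℝ) < 1 / ((n : ℝ) + 1) := by positivity
    have hm : 0 < min ρ (1 / ((n : ℝ) + 1)) := lt_min hρ hn
    obtain ⟨y, v, ℓ, h1, h2, h3, h4, h5, h6⟩ := hcon _ hm
      ((Metric.closedBall_subset_closedBall (min_le_left _ _)).trans hρD)
    exact ⟨y, v, ℓ, h1, h2.trans (min_le_right _ _),
      h3.trans (mul_le_mul_of_nonneg_right (min_le_right _ _) (norm_nonneg _)), h4, h5, h6⟩
  choose y v ℓ h1 h2 h3 h4 h5 h6 using hseq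
  have hball : ∀ n, y n ∈ Metric.closedBall y₀ ρ := fun n => by
    rw [mem_closedBall_iff_norm]
    exact (h1 n).trans (min_le_left _ _)
  have hvb : ∀ n, v n ∈ Metric.closedBall (0 : P2) (Real.sqrt (1 / c)) := by
    intro n
    rw [mem_closedBall_zero_iff]
    apply Real.le_sqrt_of_sq_le
    rw [le_div_iff₀ hc]
    have := hcb (y n) (hball n) (v n)
    rw [h4 n] at this
    linarith
  obtain ⟨v', -, φ, hφ, hφv⟩ := (isCompact_closedBall (0 : P2) (Real.sqrt (1 / c))).tendsto_subseq hvb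
  have hlim : Tendsto (fun n : ℕ => 1 / ((n : ℝ) + 1)) atTop (𝓝 0) :=
    tendsto_one_div_add_atTop_nhds_zero_nat
  have hlimφ : Tendsto (fun n : ℕ => 1 / ((φ n : ℝ) + 1)) atTop (𝓝 0) := hlim.comp hφ.tendsto_atTop
  have hyφ : Tendsto (fun n => y (φ n)) atTop (𝓝 y₀) := by
    rw [tendsto_iff_norm_sub_tendsto_zero]
    exact squeeze_zero (fun n => norm_nonneg _) (fun n => (h1 (φ n)).trans (min_le_right _ _)) hlimφ
  have hℓφ : Tendsto (fun n => ℓ (φ n)) atTop (𝓝 (perp v₀)) := by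
    rw [tendsto_iff_norm_sub_tendsto_zero]
    exact squeeze_zero (fun n => norm_nonneg _) (fun n => h2 (φ n)) hlimφ
  have hvφ : Tendsto (fun n => v (φ n)) atTop (𝓝 v') := hφv
  have hGφ : Tendsto (fun n => G (y (φ n)) (v (φ n)) (v (φ n))) atTop (𝓝 (G y₀ v' v')) := by
    have hGc : Tendsto (fun n => G (y (φ n))) atTop (𝓝 (G y₀)) :=
      ((hG.continuousOn.continuousAt (hD.mem_nhds hy)).tendsto).comp hyφ
    exact tendsto_clm (tendsto_clm hGc hvφ) hvφ
  have hG1 : G y₀ v' v' = 1 := by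
    refine tendsto_nhds_unique hGφ ?_
    simp only [h4]
    exact tendsto_const_nhds
  have hker : perp v₀ v' = 0 := by
    have ha : Tendsto (fun n => |ℓ (φ n) (v (φ n))|) atTop (𝓝 |perp v₀ v'|) :=
      (tendsto_clm hℓφ hvφ).abs
    have hb : Tendsto (fun n => |ℓ (φ n) (v (φ n))|) atTop (𝓝 0) := by
      refine squeeze_zero (fun n => abs_nonneg _) (fun n => h3 (φ n)) ?_
      have := hlimφ.mul hvφ.norm
      rwa [zero_mul] at this
    exact abs_eq_zero.1 (tendsto_nhds_unique ha hb)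
  obtain ⟨t, ht⟩ := perp_ker hv0 hker
  have ht2 : t * t = 1 := by
    rw [ht] at hG1
    simp only [map_smul, smul_apply, smul_eq_mul] at hG1
    rw [hv] at hG1
    linarith
  have h7 : ε ≤ ‖v' - v₀‖ :=
    ge_of_tendsto (hvφ.sub_const v₀).norm (Eventually.of_forall fun n => h5 (φ n))
  have h8 : ε ≤ ‖-v' - v₀‖ :=
    ge_of_tendsto (hvφ.neg.sub_const v₀).norm (Eventually.of_forall fun n => h6 (φ n))
  rcases mul_self_eq_one_iff.1 ht2 with rfl | rfl
  · rw [ht, one_smul, sub_self, norm_zero] at h7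
    linarith
  · rw [ht, neg_smul, one_smul, neg_neg, sub_self, norm_zero] at h8
    linarith

/-- Around a unit vector `v₀` at `y₀`: a countable supply of open sets of directions. -/
theorem exists_direction {D : Set P2} (hD : IsOpen D) {G : P2 → Bil} (hG : ContDiffOn ℝ ∞ G D)
    (hpos : ∀ y ∈ D, PosDef (G y)) {Q : Set P2} (hQ : Dense Q) {L : Set (P2 →L[ℝ] ℝ)} (hL : Dense L)
    {y₀ v₀ : P2} (hy : y₀ ∈ D) (hv : G y₀ v₀ v₀ = 1) {ε : ℝ} (hε : 0 < ε) :
    ∃ p ∈ Q, ∃ ℓ ∈ L, ∃ n : ℕ, ℓ ≠ 0 ∧ Metric.closedBall p (1 / ((n : ℝ) + 1)) ⊆ D ∧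
      ∀ y v : P2, ‖y - p‖ < 1 / ((n : ℝ) + 1) → |ℓ v| < 1 / ((n : ℝ) + 1) * ‖v‖ → G y v v = 1 →
        ‖y - y₀‖ < ε ∧ (‖v - v₀‖ < ε ∨ ‖-v - v₀‖ < ε) := by
  have hv0 : v₀ ≠ 0 := by
    rintro rfl
    simp at hv
  obtain ⟨δ, hδ, hδD, h⟩ := dir_aux hD hG hpos hy hv hε
  obtain ⟨n, hn⟩ := exists_nat_one_div_lt (show (0 : ℝ) < min (δ / 2) (ε / 2) by positivity)
  have hn0 : (0 : ℝ) < 1 / ((n : ℝ) + 1) := by positivity
  have hn1 : 1 / ((n : ℝ) + 1) < δ / 2 := hn.trans_le (min_le_left _ _)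
  have hn2 : 1 / ((n : ℝ) + 1) < ε / 2 := hn.trans_le (min_le_right _ _)
  obtain ⟨p, hpQ, hp⟩ := hQ.exists_dist_lt y₀ hn0
  have hpp : 0 < ‖perp v₀‖ := norm_pos_iff.2 (perp_ne_zero hv0)
  obtain ⟨ℓ, hℓL, hℓ⟩ := hL.exists_dist_lt (perp v₀) (show (0 : ℝ) < min δ ‖perp v₀‖ from lt_min hδ hpp)
  rw [dist_eq_norm] at hp hℓ
  refine ⟨p, hpQ, ℓ, hℓL, n, ?_, ?_, ?_⟩
  · rintro rfl
    rw [sub_zero] at hℓ
    exact lt_irrefl _ (hℓ.trans_le (min_le_right _ _))
  · refine subset_trans ?_ hδD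
    intro y hy
    rw [mem_closedBall_iff_norm] at hy ⊢
    have h1 : ‖y - y₀‖ ≤ ‖y - p‖ + ‖y₀ - p‖ := by
      have : y - y₀ = (y - p) - (y₀ - p) := by abel
      rw [this]
      exact norm_sub_le _ _
    linarith
  · intro y v hyp hℓv hGv
    have h1 : ‖y - y₀‖ ≤ ‖y - p‖ + ‖y₀ - p‖ := by
      have : y - y₀ = (y - p) - (y₀ - p) := by abel
      rw [this]
      exact norm_sub_le _ _
    refine ⟨by linarith, h y v ℓ (by linarith) ?_ ?_ hGv⟩
    · rw [norm_sub_rev]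
      exact (hℓ.trans_le (min_le_left _ _)).le
    · exact hℓv.le.trans (mul_le_mul_of_nonneg_right (by linarith) (norm_nonneg _))

variable {S : Type*} [TopologicalSpace S] [ChartedSpace P2 S]

/-- Reversal of a closed geodesic. -/
theorem IsClosedGeodesic.reverse {g : RMetric S} {γ : ℝ → S} {T : ℝ} (h : IsClosedGeodesic g γ T) :
    IsClosedGeodesic g (fun t => γ (-t)) T := by
  obtain ⟨⟨hc, hg⟩, hT, hper⟩ := h
  refine ⟨⟨hc.comp continuous_neg, ?_⟩, hT, ?_⟩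
  · intro e he t ht
    obtain ⟨h1, h2, h3⟩ := hg e he (-t) ht
    have e1 : (e ∘ fun t => γ (-t)) = fun t => (e ∘ γ) (-t) := rfl
    have d1 : ∀ s, deriv (fun t => (e ∘ γ) (-t)) s = - deriv (e ∘ γ) (-s) := fun s =>
      deriv_comp_neg _ _
    have d1' : deriv (fun t => (e ∘ γ) (-t)) = fun s => - deriv (e ∘ γ) (-s) := funext d1
    have d2 : deriv (deriv (fun t => (e ∘ γ) (-t))) t = deriv (deriv (e ∘ γ)) (-t) := by
      rw [d1']
      have : (fun s => - deriv (e ∘ γ) (-s)) = - fun s => deriv (e ∘ γ) (-s) := rfl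
      rw [this, deriv.neg, deriv_comp_neg, neg_neg]
    rw [e1]
    refine ⟨h1.comp t contDiff_neg.contDiffAt, ?_, ?_⟩
    · show g.comp e (e (γ (-t))) _ _ = 1
      rw [d1]
      simpa using h2
    · intro w
      have := h3 w
      rw [d1, d2]
      simpa using this
  · intro t
    show γ (-(t + T)) = γ (-t)
    have := hper (-t - T)
    rw [sub_add_cancel] at this
    rw [this]
    congr 1
    ring

/-- Density in the charts of a cover implies density in every chart. -/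
theorem dense_of_cover [IsManifold (modelWithCornersSelf ℝ P2) ∞ S] {g : RMetric S}
    {F : Set (OpenPartialHomeomorph S P2)} (hF : F ⊆ atlas P2 S) (hcov : ∀ x : S, ∃ e ∈ F, x ∈ e.source)
    (hd : ∀ e ∈ F, ∀ y ∈ e.target, ∀ v : P2, g.comp e y v v = 1 → ∀ ε > 0,
      ∃ (γ : ℝ → S) (T : ℝ), IsClosedGeodesic g γ T ∧
        ∃ t, γ t ∈ e.source ∧ ‖e (γ t) - y‖ < ε ∧ ‖deriv (e ∘ γ) t - v‖ < ε) :
    ClosedGeodesicsDense g := by
  intro e he y hy v hv ε hε
  obtain ⟨e', he'F, hx'⟩ := hcov (e.symm y)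
  have he' := hF he'F
  have hx : e.symm y ∈ e.source := e.map_target hy
  set y' := e' (e.symm y) with hy'
  have hy't : y' ∈ e'.target := e'.map_source hx'
  set v' := fderiv ℝ (e' ∘ e.symm) y v with hv'
  -- transition maps
  have hO1 : IsOpen (e'.target ∩ e'.symm ⁻¹' e.source) :=
    e'.isOpen_inter_preimage_symm e.open_source
  have hO2 : IsOpen (e.target ∩ e.symm ⁻¹' e'.source) :=
    e.isOpen_inter_preimage_symm e'.open_source
  have hΨ : ContDiffOn ℝ ∞ (e ∘ e'.symm) (e'.target ∩ e'.symm ⁻¹' e.source) := trans_smooth he he'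
  have hΦ : ContDiffOn ℝ ∞ (e' ∘ e.symm) (e.target ∩ e.symm ⁻¹' e'.source) := trans_smooth he' he
  have hy'O : y' ∈ e'.target ∩ e'.symm ⁻¹' e.source := by
    refine ⟨hy't, ?_⟩
    show e'.symm y' ∈ e.source
    rw [hy', e'.left_inv hx']
    exact hx
  have hyO : y ∈ e.target ∩ e.symm ⁻¹' e'.source := ⟨hy, hx'⟩
  have hey : (e ∘ e'.symm) y' = y := by
    show e (e'.symm y') = y
    rw [hy', e'.left_inv hx', e.right_inv hy]
  have hΨd : DifferentiableAt ℝ (e ∘ e'.symm) y' :=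
    ((hΨ.differentiableOn (by simp)).differentiableAt (hO1.mem_nhds hy'O))
  have hΦd : DifferentiableAt ℝ (e' ∘ e.symm) y :=
    ((hΦ.differentiableOn (by simp)).differentiableAt (hO2.mem_nhds hyO))
  have hcomp : (fderiv ℝ (e ∘ e'.symm) y').comp (fderiv ℝ (e' ∘ e.symm) y) =
      ContinuousLinearMap.id ℝ P2 := by
    have h1 : fderiv ℝ ((e ∘ e'.symm) ∘ (e' ∘ e.symm)) y =
        (fderiv ℝ (e ∘ e'.symm) ((e' ∘ e.symm) y)).comp (fderiv ℝ (e' ∘ e.symm) y) :=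
      fderiv_comp y hΨd hΦd
    have h2 : ((e ∘ e'.symm) ∘ (e' ∘ e.symm)) =ᶠ[𝓝 y] id := by
      filter_upwards [hO2.mem_nhds hyO] with z hz
      show e (e'.symm (e' (e.symm z))) = z
      rw [e'.left_inv hz.2, e.right_inv hz.1]
    rw [h2.fderiv_eq, fderiv_id] at h1
    exact h1.symm
  have hback : fderiv ℝ (e ∘ e'.symm) y' v' = v := by
    have := DFunLike.congr_fun hcomp v
    simpa using this
  have hunit : g.comp e' y' v' v' = 1 := by
    have h1 := g.change e he e' he' (e.symm y) hx hx' v v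
    rw [e.right_inv hy] at h1
    rw [← hv, h1]
  -- continuity
  have hcont1 : ContinuousAt (e ∘ e'.symm) y' := hΨd.continuousAt
  have hcont2 : ContinuousAt (fun q : P2 × P2 => fderiv ℝ (e ∘ e'.symm) q.1 q.2) (y', v') := by
    have h1 : ContinuousAt (fderiv ℝ (e ∘ e'.symm)) y' :=
      (hΨ.continuousOn_fderiv_of_isOpen hO1 (by simp)).continuousAt (hO1.mem_nhds hy'O)
    have h2 : ContinuousAt (fun q : P2 × P2 => fderiv ℝ (e ∘ e'.symm) q.1) (y', v') :=
      ContinuousAt.comp (x := (y', v')) (f := Prod.fst) h1 continuousAt_fst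
    exact h2.clm_apply continuousAt_snd
  obtain ⟨δ₁, hδ₁, h₁⟩ := Metric.continuousAt_iff.1 hcont1 ε hε
  obtain ⟨δ₂, hδ₂, h₂⟩ := Metric.continuousAt_iff.1 hcont2 ε hε
  obtain ⟨δ₃, hδ₃, h₃⟩ := Metric.isOpen_iff.1 hO1 y' hy'O
  obtain ⟨γ, T, hγ, t, ht, ht1, ht2⟩ := hd e' he'F y' hy't v' hunit (min δ₁ (min δ₂ δ₃)) (by positivity)
  have ht1' : dist (e' (γ t)) y' < min δ₁ (min δ₂ δ₃) := by rw [dist_eq_norm]; exact ht1
  have hz : e' (γ t) ∈ e'.target ∩ e'.symm ⁻¹' e.source :=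
    h₃ (Metric.mem_ball.2 (ht1'.trans_le ((min_le_right _ _).trans (min_le_right _ _))))
  have hte : γ t ∈ e.source := by
    have := hz.2
    rwa [Set.mem_preimage, e'.left_inv ht] at this
  refine ⟨γ, T, hγ, t, hte, ?_, ?_⟩
  · have := h₁ (ht1'.trans_le (min_le_left _ _))
    rw [hey, dist_eq_norm] at this
    have h4 : (e ∘ e'.symm) (e' (γ t)) = e (γ t) := by
      show e (e'.symm (e' (γ t))) = _
      rw [e'.left_inv ht]
    rwa [h4] at this
  · have h5 : deriv (e ∘ γ) t = fderiv ℝ (e ∘ e'.symm) (e' (γ t)) (deriv (e' ∘ γ) t) := by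
      have h6 : (e ∘ γ) =ᶠ[𝓝 t] ((e ∘ e'.symm) ∘ (e' ∘ γ)) := by
        filter_upwards [hγ.1.1.continuousAt.preimage_mem_nhds (e'.open_source.mem_nhds ht)] with s hs
        show e (γ s) = e (e'.symm (e' (γ s)))
        rw [e'.left_inv hs]
      rw [h6.deriv_eq]
      have h7 : DifferentiableAt ℝ (e ∘ e'.symm) ((e' ∘ γ) t) :=
        (hΨ.differentiableOn (by simp)).differentiableAt (hO1.mem_nhds hz)
      have h8 : DifferentiableAt ℝ (e' ∘ γ) t :=
        ((hγ.1.2 e' he' t ht).1).differentiableAt (by norm_num)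
      exact (h7.hasFDerivAt.comp_hasDerivAt t h8.hasDerivAt).deriv
    have h9 := h₂ (x := (e' (γ t), deriv (e' ∘ γ) t)) (by
      rw [Prod.dist_eq]
      refine max_lt ?_ ?_
      · exact ht1'.trans_le ((min_le_right _ _).trans (min_le_left _ _))
      · rw [dist_eq_norm]
        exact ht2.trans_le ((min_le_right _ _).trans (min_le_left _ _)))
    simp only [hback] at h9
    rw [h5, ← dist_eq_norm]
    exact h9

end Pool.Agent.Helper82.GS
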