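import Pool.Agent.Helper82.GS.Scale

/-!
# The area measure (module GS-11)
-/

set_option maxSynthPendingDepth 3

namespace Pool.Agent.Helper82.GS

open MeasureTheory Filter Topology
open scoped ContDiff Manifold

variable {S : Type*} [TopologicalSpace S] [ChartedSpace P2 S] [MeasurableSpace S] [BorelSpace S]

omit [MeasurableSpace S] [BorelSpace S] in
/-- The area density is continuous on the target of a chart. -/
theorem RMetric.continuousOn_dens (g : RMetric S) {e : OpenPartialHomeomorph S P2} (he : e ∈ atlas P2 S) :
    ContinuousOn (fun y => dens (g.comp e y)) e.target :=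
  (contDiffOn_dens (g.smooth e he) (g.posDef e he)).continuousOn

omit [ChartedSpace P2 S] in
/-- The part in the source of the preimage of a measurable set under a chart is measurable. -/
theorem measurableSet_source_inter_preimage (e : OpenPartialHomeomorph S P2) {B : Set P2} (hB : MeasurableSet B) :
    MeasurableSet (e ⁻¹' B ∩ e.source) := by
  have h1 : Measurable (e.source.restrict e) := e.continuousOn.restrict.measurable
  have h2 : MeasurableSet (e.source.restrict e ⁻¹' B) := h1 hB
  have h3 := e.open_source.measurableSet.subtype_image h2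
  have h4 : (Subtype.val '' (e.source.restrict e ⁻¹' B) : Set S) = e ⁻¹' B ∩ e.source := by
    ext x
    constructor
    · rintro ⟨z, hz, rfl⟩
      exact ⟨hz, z.2⟩
    · rintro ⟨hx1, hx2⟩
      exact ⟨⟨x, hx2⟩, hx1, rfl⟩
  rwa [h4] at h3

/-- The area measure is finite. -/
theorem IsArea.finite [CompactSpace S] {g : RMetric S} {μ : Measure S} (h : IsArea g μ) : μ Set.univ < ⊤ := by
  have hloc : ∀ x : S, ∃ U : Set S, IsOpen U ∧ x ∈ U ∧ μ U < ⊤ := by
    intro x
    set e := chartAt P2 x with hedef
    have he : e ∈ atlas P2 S := chart_mem_atlas P2 x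
    have hx : x ∈ e.source := mem_chart_source P2 x
    have ht : e.target ∈ 𝓝 (e x) := e.open_target.mem_nhds (e.map_source hx)
    obtain ⟨r, hr, hrt⟩ := Metric.nhds_basis_closedBall.mem_iff.1 ht
    refine ⟨e.source ∩ e ⁻¹' Metric.ball (e x) r, e.isOpen_inter_preimage Metric.isOpen_ball,
      ⟨hx, Metric.mem_ball_self hr⟩, ?_⟩
    have hm : MeasurableSet (e.source ∩ e ⁻¹' Metric.ball (e x) r) :=
      (e.isOpen_inter_preimage Metric.isOpen_ball).measurableSet
    rw [h e he _ hm Set.inter_subset_left]
    have hcont : ContinuousOn (fun y => dens (g.comp e y)) (Metric.closedBall (e x) r) :=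
      (g.continuousOn_dens he).mono hrt
    obtain ⟨C, hC⟩ := (isCompact_closedBall (e x) r).exists_bound_of_continuousOn hcont
    have hsub : e '' (e.source ∩ e ⁻¹' Metric.ball (e x) r) ⊆ Metric.closedBall (e x) r := by
      rintro _ ⟨z, ⟨-, hz⟩, rfl⟩
      exact Metric.ball_subset_closedBall hz
    calc ∫⁻ y in e '' (e.source ∩ e ⁻¹' Metric.ball (e x) r), ENNReal.ofReal (dens (g.comp e y))
        ≤ ∫⁻ y in Metric.closedBall (e x) r, ENNReal.ofReal (dens (g.comp e y)) :=
          lintegral_mono_set hsub
      _ ≤ ∫⁻ _ in Metric.closedBall (e x) r, ENNReal.ofReal C := by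
          refine setLIntegral_mono measurable_const fun y hy => ?_
          exact ENNReal.ofReal_le_ofReal ((le_abs_self _).trans (hC y hy))
      _ = ENNReal.ofReal C * volume (Metric.closedBall (e x) r) := setLIntegral_const _ _
      _ < ⊤ := ENNReal.mul_lt_top ENNReal.ofReal_lt_top measure_closedBall_lt_top
  choose U hUo hxU hU using hloc
  obtain ⟨t, ht⟩ := isCompact_univ.elim_finite_subcover U hUo fun x _ => Set.mem_iUnion.2 ⟨x, hxU x⟩
  calc μ Set.univ ≤ μ (⋃ i ∈ t, U i) := measure_mono ht
    _ ≤ ∑ i ∈ t, μ (U i) := measure_biUnion_finset_le t U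
    _ < ⊤ := ENNReal.sum_lt_top.2 fun i _ => hU i

/-- The area measure transported by a chart. -/
theorem IsArea.map_restrict {g : RMetric S} {μ : Measure S} (h : IsArea g μ)
    {e : OpenPartialHomeomorph S P2} (he : e ∈ atlas P2 S) :
    Measure.map e (μ.restrict e.source) =
      (volume.restrict e.target).withDensity fun y => ENNReal.ofReal (dens (g.comp e y)) := by
  have hae : AEMeasurable e (μ.restrict e.source) :=
    e.continuousOn.aemeasurable e.open_source.measurableSet
  refine Measure.ext fun B hB => ?_
  rw [Measure.map_apply_of_aemeasurable hae hB, Measure.restrict_apply' e.open_source.measurableSet,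
    h e he _ (measurableSet_source_inter_preimage e hB) Set.inter_subset_right,
    withDensity_apply _ hB, Measure.restrict_restrict hB]
  have himg : e '' (e ⁻¹' B ∩ e.source) = B ∩ e.target := by
    ext y
    constructor
    · rintro ⟨x, ⟨hx1, hx2⟩, rfl⟩
      exact ⟨hx1, e.map_source hx2⟩
    · rintro ⟨hy1, hy2⟩
      refine ⟨e.symm y, ⟨?_, e.map_target hy2⟩, e.right_inv hy2⟩
      rw [Set.mem_preimage, e.right_inv hy2]
      exact hy1
  rw [himg]

/-- Integral of a function supported in a chart. -/
theorem IsArea.integral_ext [T2Space S] {g : RMetric S} {μ : Measure S} (h : IsArea g μ)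
    {e : OpenPartialHomeomorph S P2} (he : e ∈ atlas P2 S) {b : P2 → ℝ} (hb : Continuous b) {K : Set P2}
    (hK : IsCompact K) (hKe : K ⊆ e.target) (hbK : ∀ y, y ∉ K → b y = 0) :
    ∫ x, ext e b x ∂μ = ∫ y, b y * dens (g.comp e y) := by
  have hae : AEMeasurable e (μ.restrict e.source) :=
    e.continuousOn.aemeasurable e.open_source.measurableSet
  have hdm : AEMeasurable (fun y => dens (g.comp e y)) (volume.restrict e.target) :=
    (g.continuousOn_dens he).aemeasurable e.open_target.measurableSet
  have h1 : ∫ x, ext e b x ∂μ = ∫ x in e.source, b (e x) ∂μ := by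
    have h0 : ∫ x, ext e b x ∂μ = ∫ x in e.source, ext e b x ∂μ := by
      refine (setIntegral_eq_integral_of_forall_compl_eq_zero fun x hx => ?_).symm
      simp only [ext, hx, if_false]
    rw [h0]
    refine setIntegral_congr_fun e.open_source.measurableSet fun x hx => ?_
    simp only [ext, hx, if_true]
  have h2 : ∫ x in e.source, b (e x) ∂μ = ∫ y, b y ∂(Measure.map e (μ.restrict e.source)) :=
    (integral_map hae hb.aestronglyMeasurable).symm
  rw [h1, h2, h.map_restrict he,
    integral_withDensity_eq_integral_toReal_smul₀ hdm.ennreal_ofReal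
      (Filter.Eventually.of_forall fun y => ENNReal.ofReal_lt_top)]
  have h3 : ∫ y in e.target, (ENNReal.ofReal (dens (g.comp e y))).toReal • b y =
      ∫ y in e.target, b y * dens (g.comp e y) := by
    refine setIntegral_congr_fun e.open_target.measurableSet fun y hy => ?_
    have : 0 ≤ dens (g.comp e y) := (dens_pos (g.posDef e he y hy)).le
    simp only [ENNReal.toReal_ofReal this, smul_eq_mul, mul_comm]
  rw [h3]
  refine setIntegral_eq_integral_of_forall_compl_eq_zero fun y hy => ?_
  rw [hbK y fun hyK => hy (hKe hyK), zero_mul]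

end Pool.Agent.Helper82.GS
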