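import Pool.Agent.Helper82.GS.Lift
import Pool.Agent.Helper82.GS.Meas

/-!
# A certificate and equidistribution give a closed geodesic through the open set (module GS-12)
-/

set_option maxSynthPendingDepth 3

namespace Pool.Agent.Helper82.GS

open MeasureTheory Filter Topology
open scoped ContDiff Manifold

variable {S : Type*} [TopologicalSpace S] [ChartedSpace P2 S] [MeasurableSpace S] [BorelSpace S]

theorem exists_geodesic_of_cert [CompactSpace S] [T2Space S] {g : RMetric S} {e : OpenPartialHomeomorph S P2}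
    (he : e ∈ atlas P2 S) {p : P2} {ℓ : P2 →L[ℝ] ℝ} {r : ℝ} (hr : 0 < r) (hball : Metric.closedBall p r ⊆ e.target)
    (hc : Cert (g.comp e) p ℓ r) (hE : Equidistributed g) :
    ∃ (γ : ℝ → S) (T : ℝ), IsClosedGeodesic g γ T ∧
      ∃ t, γ t ∈ e.source ∧ ‖e (γ t) - p‖ < r ∧ |ℓ (deriv (e ∘ γ) t)| < r * ‖deriv (e ∘ γ) t‖ := by
  obtain ⟨K, b, u, hK, hKb, hb, hbK, hu, huK, hineq, hneg⟩ := hc
  obtain ⟨μ, hμ, C, hC, hlim⟩ := hE
  by_contra hcon
  have hKe : K ⊆ e.target := hKb.trans (Metric.ball_subset_closedBall.trans hball)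
  have hint : ∀ (γ : ℝ → S) (T : ℝ), IsClosedGeodesic g γ T →
      0 ≤ ∫ t in (0 : ℝ)..T, ext e b (γ t) := by
    intro γ T hγ
    refine integral_nonneg_of_avoid hγ he hr hball hK hKb hb hbK hu huK hineq ?_
    intro t ht1 ht2
    by_contra h3
    exact hcon ⟨γ, T, hγ, t, ht1, ht2, lt_of_not_ge h3⟩
  have hcont : Continuous (ext e b) := continuous_ext hb hK hKe hbK
  have havg : ∀ k, 0 ≤ average (C k) (ext e b) := by
    intro k
    unfold average
    refine div_nonneg (List.sum_nonneg ?_) (List.sum_nonneg ?_)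
    · intro x hx
      rw [List.mem_map] at hx
      obtain ⟨c, hc, rfl⟩ := hx
      exact hint c.1 c.2 (hC k c hc)
    · intro x hx
      rw [List.mem_map] at hx
      obtain ⟨c, hc, rfl⟩ := hx
      exact (hC k c hc).2.1.le
  have h1 : 0 ≤ (∫ x, ext e b x ∂μ) / μ.real Set.univ :=
    ge_of_tendsto' (hlim _ hcont) havg
  have h2 : ∫ x, ext e b x ∂μ < 0 := by
    rw [hμ.integral_ext he hb hK hKe hbK]
    exact hneg
  have h3 : 0 < μ.real Set.univ := by
    have h4 : μ ≠ 0 := by
      rintro rfl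
      simp at h2
    rw [measureReal_def]
    exact ENNReal.toReal_pos (fun h => h4 (Measure.measure_univ_eq_zero.1 h)) hμ.finite.ne
  exact absurd (div_neg_of_neg_of_pos h2 h3) (not_lt.2 h1)

end Pool.Agent.Helper82.GS
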