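import Pool.Agent.Helper82.GS.Topo
import Pool.Agent.Helper82.GS.Geo
import Pool.Agent.Helper82.GS.Dir
import Pool.Agent.Helper82.GS.AreaExists

/-!
# The main theorem (module GS-14)
-/

set_option maxSynthPendingDepth 3

namespace Pool.Agent.Helper82.GS

open MeasureTheory Filter Topology
open scoped ContDiff Manifold

theorem exists_finite_cover (S : Type*) [TopologicalSpace S] [CompactSpace S] [ChartedSpace P2 S] :
    ∃ F : Set (OpenPartialHomeomorph S P2), F.Finite ∧ F ⊆ atlas P2 S ∧ ∀ x : S, ∃ e ∈ F, x ∈ e.source := by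
  obtain ⟨t, ht⟩ := isCompact_univ.elim_finite_subcover (fun x : S => (chartAt P2 x).source)
    (fun x => (chartAt P2 x).open_source) (fun x _ => Set.mem_iUnion.2 ⟨x, mem_chart_source P2 x⟩)
  refine ⟨(fun x => chartAt P2 x) '' (t : Set S), t.finite_toSet.image _, ?_, fun x => ?_⟩
  · rintro _ ⟨x, -, rfl⟩
    exact chart_mem_atlas P2 x
  · have hx := ht (Set.mem_univ x)
    simp only [Set.mem_iUnion] at hx
    obtain ⟨y, hy, hxy⟩ := hx
    exact ⟨chartAt P2 y, ⟨y, hy, rfl⟩, hxy⟩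

theorem main (S : Type*) [TopologicalSpace S] [CompactSpace S] [T2Space S] [ChartedSpace P2 S]
    [IsManifold (modelWithCornersSelf ℝ P2) ∞ S] [MeasurableSpace S] [BorelSpace S] :
    ∀ᶠ g in residual (RMetric S), Equidistributed g → ClosedGeodesicsDense g := by
  obtain ⟨F, hFfin, hFat, hFcov⟩ := exists_finite_cover S
  obtain ⟨Q, hQc, hQd⟩ := TopologicalSpace.exists_countable_dense P2
  obtain ⟨L, hLc, hLd⟩ := TopologicalSpace.exists_countable_dense (P2 →L[ℝ] ℝ)
  have hev : ∀ᶠ g in residual (RMetric S), ∀ e ∈ F, ∀ p ∈ Q, ∀ ℓ ∈ L, ∀ n : ℕ, ℓ ≠ 0 →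
      Metric.closedBall p (1 / ((n : ℝ) + 1)) ⊆ e.target → Cert (g.comp e) p ℓ (1 / ((n : ℝ) + 1)) := by
    rw [eventually_countable_ball hFfin.countable]
    intro e he
    rw [eventually_countable_ball hQc]
    intro p _
    rw [eventually_countable_ball hLc]
    intro ℓ _
    rw [eventually_countable_forall]
    intro n
    by_cases hℓ : ℓ = 0
    · exact Eventually.of_forall fun g h => absurd hℓ h
    by_cases hb : Metric.closedBall p (1 / ((n : ℝ) + 1)) ⊆ e.target
    · have hr : (0 : ℝ) < 1 / ((n : ℝ) + 1) := by positivity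
      have := residual_of_dense_open (isOpen_cert (hFat he) ℓ hr hb) (dense_cert (hFat he) hℓ hr hb)
      filter_upwards [this] with g hg _ _
      exact hg
    · exact Eventually.of_forall fun g _ h => absurd h hb
  filter_upwards [hev] with g hg hE
  refine dense_of_cover hFat hFcov ?_
  intro e he y hy v hv ε hε
  obtain ⟨p, hp, ℓ, hℓ, n, hℓ0, hball, hU⟩ := exists_direction e.open_target (g.smooth e (hFat he))
    (g.posDef e (hFat he)) hQd hLd hy hv hε
  have hr : (0 : ℝ) < 1 / ((n : ℝ) + 1) := by positivity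
  obtain ⟨γ, T, hγ, t, ht, h1, h2⟩ := exists_geodesic_of_cert (hFat he) hr hball
    (hg e he p hp ℓ hℓ n hℓ0 hball) hE
  have hunit : g.comp e (e (γ t)) (deriv (e ∘ γ) t) (deriv (e ∘ γ) t) = 1 := (hγ.1.2 e (hFat he) t ht).2.1
  obtain ⟨h3, h4⟩ := hU _ _ h1 h2 hunit
  rcases h4 with h4 | h4
  · exact ⟨γ, T, hγ, t, ht, h3, h4⟩
  · refine ⟨fun s => γ (-s), T, hγ.reverse, -t, by simpa using ht, by simpa using h3, ?_⟩
    have hd : deriv (e ∘ fun s => γ (-s)) (-t) = -deriv (e ∘ γ) t := by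
      have h5 : (e ∘ fun s => γ (-s)) = fun s => (e ∘ γ) (-s) := rfl
      rw [h5, deriv_comp_neg]
      simp
    rw [hd]
    exact h4

end Pool.Agent.Helper82.GS
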