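import Pool.Agent.Helper82.GS.SDefs
import Pool.Agent.Helper82.GS.Final

/-!
# The metrics of the statement and the metrics of the proof
-/

set_option maxSynthPendingDepth 3

namespace Pool.Agent.Helper82.GS

open MeasureTheory Filter Topology
open scoped ContDiff Manifold

/-- The basis of the space of bilinear forms. -/
noncomputable def bilBasis (i j : Fin 2) : Bil :=
  (EuclideanSpace.proj i : P2 →L[ℝ] ℝ).smulRight (EuclideanSpace.proj j : P2 →L[ℝ] ℝ)

theorem bilBasis_apply (i j : Fin 2) (v w : P2) : bilBasis i j v w = v i * w j := by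
  simp [bilBasis]

/-- The bilinear form with the given values on the basis vectors. -/
noncomputable def toBil (B : P2 → P2 → ℝ) : Bil :=
  ∑ i : Fin 2, ∑ j : Fin 2, B (EuclideanSpace.single i 1) (EuclideanSpace.single j 1) • bilBasis i j

theorem toBil_apply' (B : P2 → P2 → ℝ) (v w : P2) : toBil B v w =
    ∑ i : Fin 2, ∑ j : Fin 2, B (EuclideanSpace.single i 1) (EuclideanSpace.single j 1) * (v i * w j) := by
  simp [toBil, bilBasis_apply]

theorem eq_sum (v : P2) : v = v 0 • EuclideanSpace.single 0 1 + v 1 • EuclideanSpace.single 1 1 := by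
  ext i
  fin_cases i <;> simp

theorem toBil_apply {B : P2 → P2 → ℝ} (h : Stmt.IsInner B) (v w : P2) : toBil B v w = B v w := by
  have h2 : ∀ (u v w : P2), B u (v + w) = B u v + B u w := fun u v w => by
    rw [h.symm, h.add, h.symm v, h.symm w]
  have h3 : ∀ (c : ℝ) (v w : P2), B v (c • w) = c * B v w := fun c v w => by
    rw [h.symm, h.smul, h.symm w]
  rw [toBil_apply']
  conv_rhs => rw [eq_sum v, eq_sum w]
  simp only [h.add, h.smul, h2, h3, Fin.sum_univ_two]
  ring

theorem toBil_bil (A : Bil) : toBil (fun v w => A v w) = A := by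
  ext v w
  rw [toBil_apply']
  conv_rhs => rw [eq_sum v, eq_sum w]
  simp only [map_add, map_smul, ContinuousLinearMap.add_apply, ContinuousLinearMap.smul_apply,
    smul_eq_mul, Fin.sum_univ_two]
  ring

theorem toBil_zero : toBil (fun _ _ => 0) = 0 := by
  simp [toBil]

variable {S : Type*} [TopologicalSpace S] [ChartedSpace P2 S]

/-- The metric of the proof attached to a metric of the statement. -/
noncomputable def toR (g : Stmt.RMetric P2 S) : RMetric S where
  comp e y := toBil (g.comp e y)
  smooth e he := by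
    unfold toBil
    refine ContDiffOn.sum fun i _ => ContDiffOn.sum fun j _ => ?_
    exact (g.smooth e he _ _).smul contDiffOn_const
  posDef e he y hy := by
    have h := g.inner e he y hy
    refine ⟨fun v w => ?_, fun v hv => ?_⟩
    · rw [toBil_apply h, toBil_apply h, h.symm]
    · rw [toBil_apply h]
      exact h.pos v hv
  change e he e' he' x hx hx' v w := by
    rw [toBil_apply (g.inner e he _ (e.map_source hx)), toBil_apply (g.inner e' he' _ (e'.map_source hx')),
      g.change e he e' he' x hx hx' v w]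
    rfl
  zero_off e y h := by
    have : g.comp e y = fun _ _ => 0 := funext fun v => funext fun w => g.zero_off e y v w h
    rw [this, toBil_zero]

theorem toR_apply (g : Stmt.RMetric P2 S) (e : OpenPartialHomeomorph S P2) (y v w : P2) :
    (toR g).comp e y v w = g.comp e y v w := by
  by_cases h : e ∉ atlas P2 S ∨ y ∉ e.target
  · rw [(toR g).zero_off e y h, g.zero_off e y v w h]
    rfl
  · push Not at h
    exact toBil_apply (g.inner e h.1 y h.2) v w

/-- The metric of the statement attached to a metric of the proof. -/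
noncomputable def ofR (g : RMetric S) : Stmt.RMetric P2 S where
  comp e y v w := g.comp e y v w
  inner e he y hy := by
    have h := g.posDef e he y hy
    exact ⟨fun u v w => by simp, fun c v w => by simp, h.1, h.2⟩
  smooth e he v w := ((g.smooth e he).clm_apply contDiffOn_const).clm_apply contDiffOn_const
  change e he e' he' x hx hx' v w := g.change e he e' he' x hx hx' v w
  zero_off e y v w h := by
    rw [g.zero_off e y h]
    rfl

theorem RMetric.ext' {g g' : RMetric S} (h : ∀ e y, g.comp e y = g'.comp e y) : g = g' := by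
  cases g
  cases g'
  congr
  funext e y
  exact h e y

theorem Stmt.RMetric.ext' {g g' : Stmt.RMetric P2 S} (h : ∀ e y v w, g.comp e y v w = g'.comp e y v w) :
    g = g' := by
  cases g
  cases g'
  congr
  funext e y v w
  exact h e y v w

theorem toR_ofR (g : RMetric S) : toR (ofR g) = g :=
  RMetric.ext' fun e y => toBil_bil (g.comp e y)

theorem ofR_toR (g : Stmt.RMetric P2 S) : ofR (toR g) = g :=
  Stmt.RMetric.ext' fun e y v w => toR_apply g e y v w

theorem Stmt.contDiffAt (g : Stmt.RMetric P2 S) {e : OpenPartialHomeomorph S P2} (he : e ∈ atlas P2 S) {y : P2}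
    (hy : y ∈ e.target) (v w : P2) : ContDiffAt ℝ ∞ (fun z => g.comp e z v w) y :=
  (g.smooth e he v w).contDiffAt (e.open_target.mem_nhds hy)

theorem contDiffAt_comp (g : RMetric S) {e : OpenPartialHomeomorph S P2} (he : e ∈ atlas P2 S) {y : P2}
    (hy : y ∈ e.target) : ContDiffAt ℝ ∞ (g.comp e) y :=
  (g.smooth e he).contDiffAt (e.open_target.mem_nhds hy)

/-- Recentring of a basic neighbourhood. -/
theorem Stmt.exists_near_subset {g g₀ : Stmt.RMetric P2 S} {e : OpenPartialHomeomorph S P2} (he : e ∈ atlas P2 S)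
    {K : Set P2} (hK : IsCompact K) (hKe : K ⊆ e.target) {v w : P2} {r : ℕ} {δ : ℝ} (hg : g ∈ g₀.near e K v w r δ) :
    ∃ δ' > 0, g.near e K v w r δ' ⊆ g₀.near e K v w r δ := by
  rcases K.eq_empty_or_nonempty with rfl | hne
  · exact ⟨1, one_pos, fun h _ y hy => absurd hy (Set.notMem_empty y)⟩
  have hcd : ∀ (g g' : Stmt.RMetric P2 S), ∀ y ∈ K, ContDiffAt ℝ ∞ (fun z => g.comp e z v w - g'.comp e z v w) y :=
    fun g g' y hy => (Stmt.contDiffAt g he (hKe hy) v w).sub (Stmt.contDiffAt g' he (hKe hy) v w)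
  have hcont : ContinuousOn (fun y => ‖iteratedFDeriv ℝ r (fun z => g.comp e z v w - g₀.comp e z v w) y‖) K := by
    intro y hy
    refine ContinuousAt.continuousWithinAt ?_
    have h2 : ContDiffAt ℝ 0 (iteratedFDeriv ℝ r (fun z => g.comp e z v w - g₀.comp e z v w)) y :=
      (hcd g g₀ y hy).iteratedFDeriv_right (by
        rw [zero_add]
        exact_mod_cast le_top)
    exact h2.continuousAt.norm
  obtain ⟨y₀, hy₀, hmax⟩ := hK.exists_isMaxOn hne hcont
  have h0 := hg y₀ hy₀
  refine ⟨δ - ‖iteratedFDeriv ℝ r (fun z => g.comp e z v w - g₀.comp e z v w) y₀‖,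
    by linarith, fun h hh y hy => ?_⟩
  have h1 := hh y hy
  have h2 : ‖iteratedFDeriv ℝ r (fun z => g.comp e z v w - g₀.comp e z v w) y‖ ≤
      ‖iteratedFDeriv ℝ r (fun z => g.comp e z v w - g₀.comp e z v w) y₀‖ := hmax hy
  have h3 : iteratedFDeriv ℝ r (fun z => h.comp e z v w - g₀.comp e z v w) y =
      iteratedFDeriv ℝ r (fun z => h.comp e z v w - g.comp e z v w) y +
        iteratedFDeriv ℝ r (fun z => g.comp e z v w - g₀.comp e z v w) y := by
    have e1 : (fun z => h.comp e z v w - g₀.comp e z v w) =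
        (fun z => h.comp e z v w - g.comp e z v w) + fun z => g.comp e z v w - g₀.comp e z v w := by
      funext z
      simp
    rw [e1]
    refine iteratedFDeriv_add_apply ((hcd h g y hy).of_le ?_) ((hcd g g₀ y hy).of_le ?_)
    · exact_mod_cast le_top
    · exact_mod_cast le_top
  have h4 := norm_add_le (iteratedFDeriv ℝ r (fun z => h.comp e z v w - g.comp e z v w) y)
    (iteratedFDeriv ℝ r (fun z => g.comp e z v w - g₀.comp e z v w) y)
  rw [← h3] at h4
  linarith

theorem Stmt.isOpen_near (g₀ : Stmt.RMetric P2 S) {e : OpenPartialHomeomorph S P2} (he : e ∈ atlas P2 S) {K : Set P2}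
    (hK : IsCompact K) (hKe : K ⊆ e.target) (v w : P2) (r : ℕ) (δ : ℝ) : IsOpen (g₀.near e K v w r δ) :=
  TopologicalSpace.isOpen_generateFrom_of_mem ⟨g₀, e, K, v, w, r, δ, he, hK, hKe, rfl⟩

theorem Stmt.mem_near_self (g : Stmt.RMetric P2 S) (e : OpenPartialHomeomorph S P2) (K : Set P2) (v w : P2) (r : ℕ)
    {δ : ℝ} (hδ : 0 < δ) : g ∈ g.near e K v w r δ := fun y _ => by
  have h : (fun z => g.comp e z v w - g.comp e z v w) = fun _ => (0 : ℝ) := by
    funext z
    simp
  rw [h]
  simpa using hδ

theorem continuous_toR : Continuous (toR : Stmt.RMetric P2 S → RMetric S) := by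
  refine continuous_generateFrom_iff.mpr ?_
  rintro U ⟨g₀, e, K, r, δ, he, hK, hKe, rfl⟩
  rw [isOpen_iff_mem_nhds]
  intro g hg
  obtain ⟨δ', hδ', hsub⟩ := Pool.Agent.Helper82.GS.exists_near_subset he hK hKe (g := toR g) hg
  obtain ⟨C, hC, hCM⟩ : ∃ C : ℝ, 0 < C ∧ ∀ i j, ‖ContinuousLinearMap.toSpanSingleton ℝ (bilBasis i j)‖ ≤ C := by
    refine ⟨1 + ∑ i, ∑ j, ‖ContinuousLinearMap.toSpanSingleton ℝ (bilBasis i j)‖, by positivity, fun i j => ?_⟩
    have h1 : ‖ContinuousLinearMap.toSpanSingleton ℝ (bilBasis i j)‖ ≤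
        ∑ j, ‖ContinuousLinearMap.toSpanSingleton ℝ (bilBasis i j)‖ :=
      Finset.single_le_sum (f := fun j => ‖ContinuousLinearMap.toSpanSingleton ℝ (bilBasis i j)‖)
        (fun _ _ => norm_nonneg _) (Finset.mem_univ j)
    have h2 : ∑ j, ‖ContinuousLinearMap.toSpanSingleton ℝ (bilBasis i j)‖ ≤
        ∑ i, ∑ j, ‖ContinuousLinearMap.toSpanSingleton ℝ (bilBasis i j)‖ :=
      Finset.single_le_sum (f := fun i => ∑ j, ‖ContinuousLinearMap.toSpanSingleton ℝ (bilBasis i j)‖)
        (fun _ _ => Finset.sum_nonneg fun _ _ => norm_nonneg _) (Finset.mem_univ i)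
    linarith
  have hη : 0 < δ' / (5 * C) := by positivity
  have hU : (⋂ i : Fin 2, ⋂ j : Fin 2,
      g.near e K (EuclideanSpace.single i 1) (EuclideanSpace.single j 1) r (δ' / (5 * C))) ∈ 𝓝 g := by
    refine (Filter.iInter_mem).mpr fun i => (Filter.iInter_mem).mpr fun j => ?_
    exact (Stmt.isOpen_near g he hK hKe _ _ r _).mem_nhds (Stmt.mem_near_self g e K _ _ r hη)
  filter_upwards [hU] with h hh
  apply hsub
  intro y hy
  simp only [Set.mem_iInter] at hh
  have hcd : ∀ i j, ContDiffAt ℝ ∞ (fun z => h.comp e z (EuclideanSpace.single i 1) (EuclideanSpace.single j 1) -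
      g.comp e z (EuclideanSpace.single i 1) (EuclideanSpace.single j 1)) y := fun i j =>
    (Stmt.contDiffAt h he (hKe hy) _ _).sub (Stmt.contDiffAt g he (hKe hy) _ _)
  have hr : ((r : ℕ) : WithTop ℕ∞) ≤ ∞ := by exact_mod_cast le_top
  have e1 : iteratedFDeriv ℝ r ((toR h).comp e) y - iteratedFDeriv ℝ r ((toR g).comp e) y =
      ∑ i : Fin 2, ∑ j : Fin 2, iteratedFDeriv ℝ r (ContinuousLinearMap.toSpanSingleton ℝ (bilBasis i j) ∘
        fun z => h.comp e z (EuclideanSpace.single i 1) (EuclideanSpace.single j 1) -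
          g.comp e z (EuclideanSpace.single i 1) (EuclideanSpace.single j 1)) y := by
    have e2 : (toR h).comp e - (toR g).comp e =
        ∑ i : Fin 2, ∑ j : Fin 2, (ContinuousLinearMap.toSpanSingleton ℝ (bilBasis i j) ∘
        fun z => h.comp e z (EuclideanSpace.single i 1) (EuclideanSpace.single j 1) -
          g.comp e z (EuclideanSpace.single i 1) (EuclideanSpace.single j 1)) := by
      funext z
      simp only [Pi.sub_apply, Finset.sum_apply, Function.comp_apply, ContinuousLinearMap.toSpanSingleton_apply,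
        sub_smul, Finset.sum_sub_distrib]
      rfl
    rw [← iteratedFDeriv_sub_apply ((contDiffAt_comp (toR h) he (hKe hy)).of_le hr)
      ((contDiffAt_comp (toR g) he (hKe hy)).of_le hr), e2]
    have hc2 : ∀ i j, ContDiffAt ℝ r (ContinuousLinearMap.toSpanSingleton ℝ (bilBasis i j) ∘
        fun z => h.comp e z (EuclideanSpace.single i 1) (EuclideanSpace.single j 1) -
          g.comp e z (EuclideanSpace.single i 1) (EuclideanSpace.single j 1)) y := fun i j =>
      ((hcd i j).of_le hr).continuousLinearMap_comp _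
    rw [iteratedFDeriv_sum_apply fun i _ => ?_]
    · refine Finset.sum_congr rfl fun i _ => ?_
      rw [iteratedFDeriv_sum_apply fun j _ => hc2 i j]
    · have : (∑ j : Fin 2, (ContinuousLinearMap.toSpanSingleton ℝ (bilBasis i j) ∘
        fun z => h.comp e z (EuclideanSpace.single i 1) (EuclideanSpace.single j 1) -
          g.comp e z (EuclideanSpace.single i 1) (EuclideanSpace.single j 1))) =
          fun z => ∑ j : Fin 2, (ContinuousLinearMap.toSpanSingleton ℝ (bilBasis i j) ∘
        fun z => h.comp e z (EuclideanSpace.single i 1) (EuclideanSpace.single j 1) -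
          g.comp e z (EuclideanSpace.single i 1) (EuclideanSpace.single j 1)) z := by
        funext z
        rw [Finset.sum_apply]
      rw [this]
      exact ContDiffAt.sum fun j _ => hc2 i j
  rw [e1]
  have h3 : ∀ i j, ‖iteratedFDeriv ℝ r (ContinuousLinearMap.toSpanSingleton ℝ (bilBasis i j) ∘
        fun z => h.comp e z (EuclideanSpace.single i 1) (EuclideanSpace.single j 1) -
          g.comp e z (EuclideanSpace.single i 1) (EuclideanSpace.single j 1)) y‖ ≤ C * (δ' / (5 * C)) := by
    intro i j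
    refine ((ContinuousLinearMap.norm_iteratedFDeriv_comp_left _ (hcd i j) hr).trans ?_)
    exact mul_le_mul (hCM i j) (hh i j y hy).le (norm_nonneg _) hC.le
  refine lt_of_le_of_lt ((norm_sum_le _ _).trans (Finset.sum_le_sum fun i _ => (norm_sum_le _ _).trans
    (Finset.sum_le_sum fun j _ => h3 i j))) ?_
  simp only [Fin.sum_univ_two]
  have h4 : C * (δ' / (5 * C)) = δ' / 5 := by
    field_simp
  rw [h4]
  linarith

theorem continuous_ofR : Continuous (ofR : RMetric S → Stmt.RMetric P2 S) := by
  refine continuous_generateFrom_iff.mpr ?_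
  rintro U ⟨g₀, e, K, v, w, r, δ, he, hK, hKe, rfl⟩
  rw [isOpen_iff_mem_nhds]
  intro g hg
  obtain ⟨δ', hδ', hsub⟩ := Stmt.exists_near_subset he hK hKe (g := ofR g) hg
  have hη : 0 < δ' / (1 + ‖w‖ * ‖v‖) := by positivity
  filter_upwards [(Pool.Agent.Helper82.GS.isOpen_near g he hK hKe r (δ' / (1 + ‖w‖ * ‖v‖))).mem_nhds
    (Pool.Agent.Helper82.GS.mem_near_self g e K r hη)] with h hh
  apply hsub
  intro y hy
  have hr : ((r : ℕ) : WithTop ℕ∞) ≤ ∞ := by exact_mod_cast le_top
  have h1 := hh y hy
  rw [← iteratedFDeriv_sub_apply ((contDiffAt_comp h he (hKe hy)).of_le hr)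
      ((contDiffAt_comp g he (hKe hy)).of_le hr)] at h1
  have h2 : ContDiffAt ℝ ∞ (h.comp e - g.comp e) y :=
    (contDiffAt_comp h he (hKe hy)).sub (contDiffAt_comp g he (hKe hy))
  have h3 : ContDiffAt ℝ ∞ (fun z => (h.comp e - g.comp e) z v) y :=
    h2.clm_apply contDiffAt_const
  have e1 : (fun z => (ofR h).comp e z v w - (ofR g).comp e z v w) =
      fun z => (h.comp e - g.comp e) z v w := by
    funext z
    rfl
  rw [e1]
  have h4 := norm_iteratedFDeriv_clm_apply_const (c := w) h3 hr
  have h5 := norm_iteratedFDeriv_clm_apply_const (c := v) h2 hr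
  refine lt_of_le_of_lt (h4.trans (mul_le_mul_of_nonneg_left h5 (norm_nonneg _))) ?_
  rw [← mul_assoc]
  rw [lt_div_iff₀ (by positivity)] at h1
  have h6 := norm_nonneg (iteratedFDeriv ℝ r (h.comp e - g.comp e) y)
  nlinarith [norm_nonneg v, norm_nonneg w]

theorem isOpenMap_toR : IsOpenMap (toR : Stmt.RMetric P2 S → RMetric S) := by
  intro U hU
  have : toR '' U = (ofR : RMetric S → Stmt.RMetric P2 S) ⁻¹' U := by
    ext g
    constructor
    · rintro ⟨g', hg', rfl⟩
      rw [Set.mem_preimage, ofR_toR]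
      exact hg'
    · intro hg
      exact ⟨ofR g, hg, toR_ofR g⟩
  rw [this]
  exact hU.preimage continuous_ofR

end Pool.Agent.Helper82.GS
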