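import Pool.Agent.Helper82.GS.Acc

/-!
# Certificates are stable (module GS-2)
-/

set_option maxSynthPendingDepth 3

namespace Pool.Agent.Helper82.GS

open MeasureTheory Filter Topology
open scoped ContDiff Manifold

theorem continuous_dens : Continuous dens := by
  unfold dens
  fun_prop

theorem integrable_of_supp {K : Set P2} (hK : IsCompact K) {f : P2 → ℝ} (hf : ContinuousOn f K)
    (h0 : ∀ y, y ∉ K → f y = 0) : Integrable f := by
  have h1 : IntegrableOn f K := hf.integrableOn_compact hK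
  rw [integrableOn_iff_integrable_of_support_subset] at h1
  · exact h1
  · intro y hy
    by_contra hyK
    exact hy (h0 y hyK)

theorem fderiv_eq_zero_of_supp {K : Set P2} (hK : IsClosed K) {u : P2 × P2 → ℝ}
    (huK : ∀ q : P2 × P2, q.1 ∉ K → u q = 0) {y v : P2} (hy : y ∉ K) : fderiv ℝ u (y, v) = 0 := by
  have h : u =ᶠ[𝓝 (y, v)] fun _ => 0 := by
    have h1 : {q : P2 × P2 | q.1 ∉ K} ∈ 𝓝 (y, v) :=
      (hK.isOpen_compl.preimage continuous_fst).mem_nhds hy
    filter_upwards [h1] with q hq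
    exact huK q hq
  rw [h.fderiv_eq]
  exact fderiv_const_apply _

/-- Rescaling to a unit vector. -/
theorem rescale_bound {A A' : Bil} {c δ : ℝ} (hc : 0 < c) (hA : ∀ v : P2, c * ‖v‖ ^ 2 ≤ A v v)
    (hδ : δ ≤ c / 4) (hAA : ‖A' - A‖ ≤ δ) {v : P2} (hv : A' v v = 1) :
    ∃ w : P2, A w w = 1 ∧ (∃ t : ℝ, 0 < t ∧ w = t • v) ∧ ‖v - w‖ ≤ 4 * δ / c * (1 + 2 / c) := by
  have hδ0 : 0 ≤ δ := (norm_nonneg _).trans hAA
  set s := A v v with hs
  have h1 : |s - 1| ≤ δ * ‖v‖ ^ 2 := by
    have e : s - 1 = -((A' - A) v v) := by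
      simp [hs, hv]
    rw [e, abs_neg, ← Real.norm_eq_abs]
    calc ‖(A' - A) v v‖ ≤ ‖(A' - A) v‖ * ‖v‖ := ContinuousLinearMap.le_opNorm _ _
      _ ≤ (‖A' - A‖ * ‖v‖) * ‖v‖ := by
          gcongr
          exact ContinuousLinearMap.le_opNorm _ _
      _ ≤ (δ * ‖v‖) * ‖v‖ := by gcongr
      _ = δ * ‖v‖ ^ 2 := by ring
  have h2 : ‖v‖ ^ 2 ≤ 2 / c := by
    have h3 := hA v
    rw [← hs] at h3
    have h4 := (abs_le.mp h1).2
    rw [le_div_iff₀ hc]
    nlinarith [sq_nonneg ‖v‖]
  have h5 : ‖v‖ ≤ 1 + 2 / c := by nlinarith [sq_nonneg (‖v‖ - 1)]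
  have h6 : |s - 1| ≤ 2 * δ / c := by
    calc |s - 1| ≤ δ * ‖v‖ ^ 2 := h1
      _ ≤ δ * (2 / c) := by gcongr
      _ = 2 * δ / c := by ring
  have h7 : 2 * δ / c ≤ 1 / 2 := by
    rw [div_le_iff₀ hc]
    linarith
  have h8 : 1 / 2 ≤ s := by
    have := (abs_le.mp (h6.trans h7)).1
    linarith
  have hs0 : 0 < s := by linarith
  have hq : 0 < Real.sqrt s := Real.sqrt_pos.mpr hs0
  have hqq : Real.sqrt s * Real.sqrt s = s := Real.mul_self_sqrt hs0.le
  refine ⟨(Real.sqrt s)⁻¹ • v, ?_, ⟨(Real.sqrt s)⁻¹, inv_pos.mpr hq, rfl⟩, ?_⟩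
  · simp only [map_smul, _root_.ContinuousLinearMap.smul_apply, smul_eq_mul]
    rw [← hs]
    field_simp
    nlinarith [hqq]
  · have e : v - (Real.sqrt s)⁻¹ • v = (1 - (Real.sqrt s)⁻¹) • v := by
      rw [sub_smul, one_smul]
    rw [e, norm_smul, Real.norm_eq_abs]
    have h9 : |1 - (Real.sqrt s)⁻¹| ≤ 4 * δ / c := by
      have e2 : 1 - (Real.sqrt s)⁻¹ = (s - 1) / (s + Real.sqrt s) := by
        have : s + Real.sqrt s = Real.sqrt s * (Real.sqrt s + 1) := by rw [mul_add, hqq, mul_one]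
        rw [this]
        field_simp
        nlinarith [hqq]
      rw [e2, abs_div, abs_of_pos (by linarith : 0 < s + Real.sqrt s), div_le_iff₀ (by linarith)]
      calc |s - 1| ≤ 2 * δ / c := h6
        _ = 4 * δ / c * (1 / 2) := by ring
        _ ≤ 4 * δ / c * (s + Real.sqrt s) := by
            gcongr
            linarith
    gcongr

/-- Certificates persist under perturbations that are small together with the first derivative. -/
theorem cert_open {D : Set P2} (hD : IsOpen D) {G : P2 → Bil} (hG : ContDiffOn ℝ ∞ G D)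
    (hpos : ∀ y ∈ D, PosDef (G y)) {p : P2} {ℓ : P2 →L[ℝ] ℝ} {r : ℝ} (hr : 0 < r)
    (hball : Metric.closedBall p r ⊆ D) (hc : Cert G p ℓ r) :
    ∃ δ > 0, ∀ G' : P2 → Bil, ContDiffOn ℝ ∞ G' D → (∀ y ∈ D, PosDef (G' y)) →
      (∀ y ∈ Metric.closedBall p r, ‖G' y - G y‖ < δ) →
      (∀ y ∈ Metric.closedBall p r, ‖fderiv ℝ G' y - fderiv ℝ G y‖ < δ) → Cert G' p ℓ r := by
  obtain ⟨K, b, u, hK, hKb, hb, hbK, hu, huK, hineq, hint⟩ := hc
  obtain ⟨L, hL, hKL, hLb⟩ := exists_compact_between hK Metric.isOpen_ball hKb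
  have hLD : L ⊆ D := hLb.trans (Metric.ball_subset_closedBall.trans hball)
  have hKD : K ⊆ D := (hKL.trans interior_subset).trans hLD
  obtain ⟨η, hη1, hη0, -, hηI⟩ := exists_continuous_one_zero_of_isCompact hK
    (isOpen_interior (s := L)).isClosed_compl
    (Set.disjoint_left.mpr fun y hy hy' => hy' (hKL hy))
  have hηL : ∀ y, y ∉ L → η y = 0 := fun y hy => hη0 (fun h => hy (interior_subset h))
  have hbL : ∀ y, y ∉ L → b y = 0 := fun y hy => hbK y (fun h => hy (interior_subset (hKL h)))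
  have hGcD : ContinuousOn G D := hG.continuousOn
  have hGL : ContinuousOn G L := hGcD.mono hLD
  have hdG : ContinuousOn (fun y => dens (G y)) L := continuous_dens.comp_continuousOn hGL
  have hi1 : Integrable (fun y => b y * dens (G y)) :=
    integrable_of_supp hL (hb.continuousOn.mul hdG) (fun y hy => by simp [hbL y hy])
  have hi2 : Integrable (fun y => η y * dens (G y)) :=
    integrable_of_supp hL (η.continuous.continuousOn.mul hdG) (fun y hy => by simp [hηL y hy])
  have hJ : 0 ≤ ∫ y, η y * dens (G y) :=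
    integral_nonneg fun y => mul_nonneg (hηI y).1 (Real.sqrt_nonneg _)
  obtain ⟨ε, hε, hεI⟩ : ∃ ε > 0, (∫ y, b y * dens (G y)) + ε * (∫ y, η y * dens (G y)) < 0 := by
    refine ⟨-(∫ y, b y * dens (G y)) / (2 * ((∫ y, η y * dens (G y)) + 1)), by
      apply div_pos <;> linarith, ?_⟩
    set I := ∫ y, b y * dens (G y)
    set J := ∫ y, η y * dens (G y)
    have h1 : -I / (2 * (J + 1)) * J ≤ -I / 2 := by
      rw [div_mul_eq_mul_div, div_le_div_iff₀ (by linarith) (by norm_num)]
      nlinarith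
    linarith
  set b' : P2 → ℝ := fun y => b y + ε * η y with hb'
  have hb'c : Continuous b' := hb.add (continuous_const.mul η.continuous)
  have hb'L : ∀ y, y ∉ L → b' y = 0 := fun y hy => by simp [hb', hbL y hy, hηL y hy]
  have hb'K : ∀ y, y ∉ K → 0 ≤ b' y := fun y hy => by
    have := (hηI y).1
    simp only [hb', hbK y hy]
    positivity
  have hint' : ∫ y, b' y * dens (G y) < 0 := by
    have e : (fun y => b' y * dens (G y)) =
        fun y => b y * dens (G y) + ε * (η y * dens (G y)) := by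
      funext y
      simp only [hb']
      ring
    rw [e, integral_add hi1 (hi2.const_mul ε), integral_const_mul]
    exact hεI
  -- the ellipticity constant
  obtain ⟨c, hc0, hc⟩ := exists_lower_bound hK (hGcD.mono hKD) (fun y hy => hpos y (hKD hy))
  -- the compact set of admissible vectors
  set T1 : Set (P2 × P2) := K ×ˢ Metric.closedBall 0 (1 + 1 / c) with hT1
  have hT1c : IsCompact T1 := hK.prod (isCompact_closedBall _ _)
  set T : Set (P2 × P2) := (T1 ∩ (fun q : P2 × P2 => G q.1 q.2 q.2) ⁻¹' {1}) ∩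
    {q | r * ‖q.2‖ ≤ |ℓ q.2|} with hT
  have hGq : ContinuousOn (fun q : P2 × P2 => G q.1) T1 :=
    (hGcD.mono hKD).comp continuous_fst.continuousOn fun q hq => hq.1
  have hTc : IsCompact T := by
    refine IsCompact.inter_right ?_ (isClosed_le (by fun_prop) (by fun_prop))
    refine hT1c.of_isClosed_subset ?_ Set.inter_subset_left
    refine ContinuousOn.preimage_isClosed_of_isClosed ?_ hT1c.isClosed isClosed_singleton
    exact (hGq.clm_apply continuous_snd.continuousOn).clm_apply continuous_snd.continuousOn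
  have hmemT : ∀ y ∈ K, ∀ v : P2, G y v v = 1 → r * ‖v‖ ≤ |ℓ v| → (y, v) ∈ T := by
    intro y hy v hv hv2
    refine ⟨⟨⟨hy, ?_⟩, hv⟩, hv2⟩
    rw [mem_closedBall_zero_iff]
    have h1 := hc y hy v
    rw [hv] at h1
    have h2 : ‖v‖ ^ 2 ≤ 1 / c := by
      rw [le_div_iff₀ hc0]
      linarith
    nlinarith [sq_nonneg (‖v‖ - 1)]
  have hUo : IsOpen {q : P2 × P2 | ℓ q.2 ≠ 0} := by
    have : Continuous fun q : P2 × P2 => ℓ q.2 := by fun_prop
    exact isOpen_ne.preimage this
  have hfd : ContinuousOn (fderiv ℝ u) {q : P2 × P2 | ℓ q.2 ≠ 0} :=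
    hu.continuousOn_fderiv_of_isOpen hUo le_rfl
  have hTne : ∀ q ∈ T, ℓ q.2 ≠ 0 := by
    intro q hq h0
    have h1 : r * ‖q.2‖ ≤ |ℓ q.2| := hq.2
    rw [h0, abs_zero] at h1
    have h2 : ‖q.2‖ = 0 := by
      have := norm_nonneg q.2
      nlinarith
    have h3 : q.2 = 0 := norm_eq_zero.mp h2
    have h4 : G q.1 q.2 q.2 = 1 := hq.1.2
    rw [h3] at h4
    simp at h4
  let Ψ : Bil × (P2 →L[ℝ] Bil) × P2 × P2 → ℝ := fun z =>
    b' z.2.2.1 + fderiv ℝ u z.2.2 (z.2.2.2, acc z.1 z.2.1 z.2.2.2)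
  let F : P2 × P2 → Bil × (P2 →L[ℝ] Bil) × P2 × P2 := fun q => (G q.1, fderiv ℝ G q.1, q)
  have hfG : ContinuousOn (fderiv ℝ G) D := hG.continuousOn_fderiv_of_isOpen hD (by simp)
  have hTK : ∀ q ∈ T, q.1 ∈ K := fun q hq => hq.1.1.1
  have hFc : ContinuousOn F T := by
    refine ContinuousOn.prodMk ?_ (ContinuousOn.prodMk ?_ continuousOn_id)
    · exact (hGcD.mono hKD).comp continuous_fst.continuousOn hTK
    · exact (hfG.mono hKD).comp continuous_fst.continuousOn hTK
  have hFT : IsCompact (F '' T) := hTc.image_of_continuousOn hFc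
  have hΨpos : ∀ z ∈ F '' T, {z | 0 < Ψ z} ∈ 𝓝 z := by
    rintro z ⟨q, hq, rfl⟩
    have hqK := hTK q hq
    have hval : 0 < Ψ (F q) := by
      have h1 := hineq q.1 hqK q.2 hq.1.2 hq.2
      have h2 : b' q.1 = b q.1 + ε := by simp [hb', hη1 hqK]
      have h3 : Ψ (F q) = b' q.1 + spray G u (q.1, q.2) := rfl
      rw [h3, h2]
      linarith
    have hcont : ContinuousAt Ψ (F q) := by
      have c1 : ContinuousAt (fun z : Bil × (P2 →L[ℝ] Bil) × P2 × P2 => b' z.2.2.1) (F q) := by
        exact (hb'c.comp (by fun_prop)).continuousAt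
      have c2 : ContinuousAt (fun z : Bil × (P2 →L[ℝ] Bil) × P2 × P2 => fderiv ℝ u z.2.2) (F q) := by
        have h1 : ContinuousAt (fderiv ℝ u) (F q).2.2 :=
          hfd.continuousAt (hUo.mem_nhds (hTne q hq))
        exact ContinuousAt.comp (f := fun z : Bil × (P2 →L[ℝ] Bil) × P2 × P2 => z.2.2) h1
          (by fun_prop)
      have c3 : ContinuousAt (fun z : Bil × (P2 →L[ℝ] Bil) × P2 × P2 =>
          acc z.1 z.2.1 z.2.2.2) (F q) := by
        have h1 := continuousAt_acc (hpos q.1 (hKD hqK)) (fderiv ℝ G q.1) q.2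
        exact ContinuousAt.comp (g := fun t : Bil × (P2 →L[ℝ] Bil) × P2 => acc t.1 t.2.1 t.2.2)
          (f := fun z : Bil × (P2 →L[ℝ] Bil) × P2 × P2 => (z.1, z.2.1, z.2.2.2)) (x := F q) h1
          (by fun_prop)
      exact c1.add (c2.clm_apply ((by fun_prop : ContinuousAt
        (fun z : Bil × (P2 →L[ℝ] Bil) × P2 × P2 => z.2.2.2) (F q)).prodMk c3))
    exact hcont.eventually (lt_mem_nhds hval)
  obtain ⟨δ₀, hδ₀, hthick⟩ := hFT.exists_thickening_subset_open (isOpen_interior (s := {z | 0 < Ψ z}))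
    (fun z hz => mem_interior_iff_mem_nhds.mpr (hΨpos z hz))
  -- uniform continuity of the density
  obtain ⟨M, hM⟩ : ∃ M, ∀ y ∈ L, ‖b' y‖ ≤ M := hL.exists_bound_of_continuousOn hb'c.continuousOn
  set I1 := ∫ y, b' y * dens (G y) with hI1
  set V := (volume : Measure P2).real L with hV
  have hV0 : 0 ≤ V := measureReal_nonneg
  obtain ⟨ε₂, hε₂, hε₂I⟩ : ∃ ε₂ > 0, I1 + (|M| * ε₂) * V < 0 := by
    refine ⟨-I1 / (2 * (|M| * V + 1)), div_pos (by linarith) (by positivity), ?_⟩
    have h0 : 0 ≤ |M| * V := by positivity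
    have h1 : |M| * (-I1 / (2 * (|M| * V + 1))) * V ≤ -I1 / 2 := by
      have e : |M| * (-I1 / (2 * (|M| * V + 1))) * V = (-I1 * (|M| * V)) / (2 * (|M| * V + 1)) := by
        ring
      rw [e, div_le_div_iff₀ (by positivity) (by norm_num)]
      nlinarith
    linarith
  have hGLc : IsCompact (G '' L) := hL.image_of_continuousOn hGL
  have huc := hGLc.uniformContinuousAt_of_continuousAt dens
    (fun A _ => continuous_dens.continuousAt) (Metric.dist_mem_uniformity hε₂)
  obtain ⟨δ₂, hδ₂, hdens⟩ := Metric.mem_uniformity_dist.mp huc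
  set R₀ := 1 + 2 / c with hR₀
  have hR₀p : 0 < R₀ := by positivity
  set δ := min (min δ₀ δ₂) (min (c / 4) (δ₀ * c / (8 * R₀))) with hδ
  have hδp : 0 < δ := by
    refine lt_min (lt_min hδ₀ hδ₂) (lt_min (by positivity) (by positivity))
  have hδ1 : δ ≤ δ₀ := (min_le_left _ _).trans (min_le_left _ _)
  have hδ2 : δ ≤ δ₂ := (min_le_left _ _).trans (min_le_right _ _)
  have hδ3 : δ ≤ c / 4 := (min_le_right _ _).trans (min_le_left _ _)
  have hδ4 : δ ≤ δ₀ * c / (8 * R₀) := (min_le_right _ _).trans (min_le_right _ _)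
  refine ⟨δ, hδp, fun G' hG' hpos' hclose hclose' => ?_⟩
  have hLcb : L ⊆ Metric.closedBall p r := hLb.trans Metric.ball_subset_closedBall
  refine ⟨L, b', u, hL, hLb, hb'c, hb'L, hu,
    fun q hq => huK q (fun h => hq (interior_subset (hKL h))), ?_, ?_⟩
  · intro y hy v hv hv2
    by_cases hyK : y ∈ K
    · obtain ⟨w, hw1, ⟨t, ht, hwt⟩, hvw⟩ := rescale_bound hc0 (hc y hyK) hδ3
        (hclose y (hLcb hy)).le hv
      have hw2 : r * ‖w‖ ≤ |ℓ w| := by
        rw [hwt, norm_smul, map_smul, smul_eq_mul, abs_mul, Real.norm_eq_abs, abs_of_pos ht]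
        nlinarith
      have hwT : (y, w) ∈ T := hmemT y hyK w hw1 hw2
      have hvw2 : ‖v - w‖ < δ₀ := by
        refine lt_of_le_of_lt hvw ?_
        rw [← hR₀]
        calc 4 * δ / c * R₀ ≤ 4 * (δ₀ * c / (8 * R₀)) / c * R₀ := by gcongr
          _ = δ₀ / 2 := by field_simp; ring
          _ < δ₀ := by linarith
      have hmem : (G' y, fderiv ℝ G' y, y, v) ∈ Metric.thickening δ₀ (F '' T) := by
        rw [Metric.mem_thickening_iff]
        refine ⟨F (y, w), ⟨(y, w), hwT, rfl⟩, ?_⟩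
        simp only [F, Prod.dist_eq, max_lt_iff, dist_self]
        refine ⟨?_, ?_, hδ₀, ?_⟩
        · rw [dist_eq_norm]
          exact (hclose y (hLcb hy)).trans_le hδ1
        · rw [dist_eq_norm]
          exact (hclose' y (hLcb hy)).trans_le hδ1
        · rw [dist_eq_norm]
          exact hvw2
      have h := interior_subset (hthick hmem)
      exact le_of_lt h
    · have h1 : spray G' u (y, v) = 0 := by
        simp only [spray]
        rw [fderiv_eq_zero_of_supp hK.isClosed huK hyK]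
        rfl
      rw [h1, add_zero]
      exact hb'K y hyK
  · have hG'L : ContinuousOn G' L := hG'.continuousOn.mono hLD
    have hi3 : Integrable (fun y => b' y * dens (G' y)) :=
      integrable_of_supp hL (hb'c.continuousOn.mul (continuous_dens.comp_continuousOn hG'L))
        (fun y hy => by simp [hb'L y hy])
    have hi4 : Integrable (fun y => b' y * dens (G y)) :=
      integrable_of_supp hL (hb'c.continuousOn.mul hdG) (fun y hy => by simp [hb'L y hy])
    have hdiff : ‖(∫ y, b' y * dens (G' y)) - I1‖ ≤ (|M| * ε₂) * V := by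
      rw [hI1, ← integral_sub hi3 hi4]
      have e : ∫ y, (b' y * dens (G' y) - b' y * dens (G y)) =
          ∫ y in L, (b' y * dens (G' y) - b' y * dens (G y)) := by
        rw [setIntegral_eq_integral_of_forall_compl_eq_zero]
        intro y hy
        simp [hb'L y hy]
      rw [e]
      refine norm_setIntegral_le_of_norm_le_const hL.measure_lt_top ?_
      intro y hy
      have h1 : ‖dens (G' y) - dens (G y)‖ ≤ ε₂ := by
        have h2 : dist (G y) (G' y) < δ₂ := by
          rw [dist_eq_norm, ← norm_neg, neg_sub]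
          exact (hclose y (hLcb hy)).trans_le hδ2
        have h3 := hdens h2 ⟨y, hy, rfl⟩
        have h4 : dist (dens (G y)) (dens (G' y)) < ε₂ := h3
        rw [dist_comm, Real.dist_eq] at h4
        exact h4.le
      rw [← mul_sub, norm_mul]
      have h5 : ‖b' y‖ ≤ |M| := (hM y hy).trans (le_abs_self M)
      gcongr
    rw [Real.norm_eq_abs] at hdiff
    have := (abs_le.mp hdiff).2
    linarith

end Pool.Agent.Helper82.GS
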