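import Pool.Agent.Helper82.GS.Defs

/-!
# Oscillatory integrals (module GS-5)
-/

set_option maxSynthPendingDepth 3

namespace Pool.Agent.Helper82.GS

open MeasureTheory Filter Topology
open scoped ContDiff Manifold

/-- The directional derivative of a smooth compactly supported function. -/
theorem osc_dir {v : P2} {F : P2 → ℝ} (hF : ContDiff ℝ ∞ F) (hc : HasCompactSupport F) :
    ContDiff ℝ ∞ (fun y => fderiv ℝ F y v) ∧ HasCompactSupport (fun y => fderiv ℝ F y v) := by
  constructor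
  · have h1 : ContDiff ℝ ∞ (fderiv ℝ F) := hF.fderiv_right (by simp)
    exact h1.clm_apply contDiff_const
  · exact hc.fderiv_apply ℝ v

theorem osc_parts {ℓ : P2 →L[ℝ] ℝ} {v : P2} (hv : ℓ v = 1) {F : P2 → ℝ} (hF : ContDiff ℝ ∞ F)
    (hc : HasCompactSupport F) (N : ℝ) :
    N * (∫ y, F y * Real.cos (N * ℓ y)) = - ∫ y, fderiv ℝ F y v * Real.sin (N * ℓ y) ∧
    N * (∫ y, F y * Real.sin (N * ℓ y)) = ∫ y, fderiv ℝ F y v * Real.cos (N * ℓ y) := by
  obtain ⟨hD, hDc⟩ := osc_dir (v := v) hF hc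
  have hlin : ∀ y, HasFDerivAt (fun y => N * ℓ y) (N • ℓ) y := fun y => by
    simpa using (ℓ.hasFDerivAt (x := y)).const_mul N
  have hs : ∀ y, HasFDerivAt (fun y => Real.sin (N * ℓ y)) (Real.cos (N * ℓ y) • (N • ℓ)) y :=
    fun y => (hlin y).sin
  have hco : ∀ y, HasFDerivAt (fun y => Real.cos (N * ℓ y)) (-Real.sin (N * ℓ y) • (N • ℓ)) y :=
    fun y => (hlin y).cos
  have hsc : Continuous fun y => Real.sin (N * ℓ y) := by fun_prop
  have hcc : Continuous fun y => Real.cos (N * ℓ y) := by fun_prop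
  have hds : ∀ y, fderiv ℝ (fun y => Real.sin (N * ℓ y)) y v = N * Real.cos (N * ℓ y) := fun y => by
    rw [(hs y).fderiv]; simp [hv]; ring
  have hdc : ∀ y, fderiv ℝ (fun y => Real.cos (N * ℓ y)) y v = -(N * Real.sin (N * ℓ y)) := fun y => by
    rw [(hco y).fderiv]; simp [hv]; ring
  have hint : ∀ {G : P2 → ℝ} {g : P2 → ℝ}, Continuous G → HasCompactSupport G → Continuous g →
      Integrable (fun y => G y * g y) := fun h1 h2 h3 =>
    (h1.mul h3).integrable_of_hasCompactSupport h2.mul_right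
  constructor
  · have h := integral_mul_fderiv_eq_neg_fderiv_mul_of_integrable (μ := volume) (v := v) (f := F)
      (g := fun y => Real.sin (N * ℓ y)) (hint hD.continuous hDc hsc)
      (by simp_rw [hds]; exact hint hF.continuous hc (by fun_prop))
      (hint hF.continuous hc hsc) (fun y _ => hF.differentiable (by simp) y) (fun y _ => (hs y).differentiableAt)
    simp_rw [hds] at h
    rw [← h, ← integral_const_mul]
    congr 1; ext y; ring
  · have h := integral_mul_fderiv_eq_neg_fderiv_mul_of_integrable (μ := volume) (v := v) (f := F)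
      (g := fun y => Real.cos (N * ℓ y)) (hint hD.continuous hDc hcc)
      (by simp_rw [hdc]; exact hint hF.continuous hc (by fun_prop))
      (hint hF.continuous hc hcc) (fun y _ => hF.differentiable (by simp) y) (fun y _ => (hco y).differentiableAt)
    simp_rw [hdc] at h
    have h2 : (∫ y, F y * -(N * Real.sin (N * ℓ y))) = -(N * ∫ y, F y * Real.sin (N * ℓ y)) := by
      rw [← integral_const_mul, ← integral_neg]
      congr 1; ext y; ring
    rw [h2] at h
    linarith

/-- Non-stationary phase. -/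
theorem osc_integral {ℓ : P2 →L[ℝ] ℝ} (hℓ : ℓ ≠ 0) {F : P2 → ℝ} (hF : ContDiff ℝ ∞ F) (hc : HasCompactSupport F)
    (M : ℕ) : ∃ C : ℝ, ∀ N : ℕ, 1 ≤ N →
      |∫ y, F y * Real.cos (N * ℓ y)| ≤ C * ((N : ℝ) ^ M)⁻¹ ∧
      |∫ y, F y * Real.sin (N * ℓ y)| ≤ C * ((N : ℝ) ^ M)⁻¹ := by
  obtain ⟨v, hv⟩ : ∃ v : P2, ℓ v = 1 := by
    obtain ⟨w, hw⟩ : ∃ w, ℓ w ≠ 0 := by
      by_contra h
      push Not at h
      exact hℓ (ContinuousLinearMap.ext h)
    exact ⟨(ℓ w)⁻¹ • w, by simp [hw]⟩
  induction M generalizing F with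
  | zero =>
    refine ⟨∫ y, |F y|, fun N _ => ?_⟩
    have hFi : Integrable (fun y => |F y|) := (hF.continuous.integrable_of_hasCompactSupport hc).abs
    have key : ∀ g : P2 → ℝ, (∀ y, |g y| ≤ 1) → |∫ y, F y * g y| ≤ ∫ y, |F y| := fun g hg => by
      refine (abs_integral_le_integral_abs).trans ?_
      refine integral_mono_of_nonneg (Eventually.of_forall fun y => abs_nonneg _) hFi
        (Eventually.of_forall fun y => ?_)
      simp only [abs_mul]
      exact mul_le_of_le_one_right (abs_nonneg _) (hg y)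
    simp only [pow_zero, inv_one, mul_one]
    exact ⟨key _ fun y => Real.abs_cos_le_one _, key _ fun y => Real.abs_sin_le_one _⟩
  | succ M ih =>
    obtain ⟨hD, hDc⟩ := osc_dir (v := v) hF hc
    obtain ⟨C, hC⟩ := ih hD hDc
    refine ⟨C, fun N hN => ?_⟩
    have hN0 : (0 : ℝ) < N := by exact_mod_cast hN
    obtain ⟨h1, h2⟩ := osc_parts hv hF hc (N : ℝ)
    obtain ⟨h3, h4⟩ := hC N hN
    have e : C * ((N : ℝ) ^ (M + 1))⁻¹ = C * ((N : ℝ) ^ M)⁻¹ / N := by
      rw [pow_succ]; field_simp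
    rw [e, le_div_iff₀ hN0, le_div_iff₀ hN0]
    constructor
    · calc |∫ y, F y * Real.cos (N * ℓ y)| * N = |N * ∫ y, F y * Real.cos (N * ℓ y)| := by
            rw [abs_mul, abs_of_pos hN0, mul_comm]
        _ = |∫ y, fderiv ℝ F y v * Real.sin (N * ℓ y)| := by rw [h1, abs_neg]
        _ ≤ _ := h4
    · calc |∫ y, F y * Real.sin (N * ℓ y)| * N = |N * ∫ y, F y * Real.sin (N * ℓ y)| := by
            rw [abs_mul, abs_of_pos hN0, mul_comm]
        _ = |∫ y, fderiv ℝ F y v * Real.cos (N * ℓ y)| := by rw [h2]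
        _ ≤ _ := h3

end Pool.Agent.Helper82.GS
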