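import Pool.Agent.Helper82.GS.Ineq
import Pool.Agent.Helper82.GS.OscInt
import Pool.Agent.Helper82.GS.Open

/-!
# Certificates exist after a small conformal perturbation (module GS-6)
-/

set_option maxSynthPendingDepth 3

namespace Pool.Agent.Helper82.GS

open MeasureTheory Filter Topology
open scoped ContDiff Manifold

theorem contDiff_mul_of_supp {D : Set P2} (hD : IsOpen D) {K : Set P2} (hK : IsCompact K)
    (hKD : K ⊆ D) {f g : P2 → ℝ} (hf : ContDiff ℝ ∞ f) (hfK : ∀ y, y ∉ K → f y = 0)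
    (hg : ContDiffOn ℝ ∞ g D) : ContDiff ℝ ∞ fun y => f y * g y := by
  rw [contDiff_iff_contDiffAt]
  intro y
  by_cases hy : y ∈ D
  · exact hf.contDiffAt.mul (hg.contDiffAt (hD.mem_nhds hy))
  · have hyK : y ∉ K := fun h => hy (hKD h)
    have h : (fun y => f y * g y) =ᶠ[𝓝 y] fun _ => 0 := by
      filter_upwards [hK.isClosed.isOpen_compl.mem_nhds hyK] with z hz
      simp [hfK z hz]
    exact contDiffAt_const.congr_of_eventuallyEq h

theorem uWKB_smooth {D : Set P2} (hD : IsOpen D) {G : P2 → Bil} (hG : ContDiffOn ℝ ∞ G D)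
    (hpos : ∀ y ∈ D, PosDef (G y)) (ℓ : P2 →L[ℝ] ℝ) {χ : P2 → ℝ} (hχ : ContDiff ℝ ∞ χ) {K : Set P2}
    (hK : IsCompact K) (hKD : K ⊆ D) (hχK : ∀ y, y ∉ K → χ y = 0) (N M : ℕ) :
    ContDiffOn ℝ ∞ (uWKB G ℓ χ N M) {q | ℓ q.2 ≠ 0} ∧
      ∀ q : P2 × P2, q.1 ∉ K → uWKB G ℓ χ N M q = 0 := by
  constructor
  · unfold uWKB
    have hl1 : ContDiff ℝ ∞ (fun q : P2 × P2 => (ℓ q.1 : ℂ)) :=
      Complex.ofRealCLM.contDiff.comp (ℓ.contDiff.comp contDiff_fst)
    have hl2 : ContDiff ℝ ∞ (fun q : P2 × P2 => (ℓ q.2 : ℂ)) :=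
      Complex.ofRealCLM.contDiff.comp (ℓ.contDiff.comp contDiff_snd)
    refine ContDiffOn.sum fun j _ => ?_
    refine ContDiffOn.mul (ContDiff.contDiffOn ?_) ?_
    · exact contDiff_const.mul (Complex.contDiff_exp.comp (contDiff_const.mul hl1))
    · have h1 := (wkb_smooth hD hG hpos ℓ hχ hK hKD hχK j).1
      have h2 : ContDiffOn ℝ ∞ (fun q : P2 × P2 => ((ℓ q.2 : ℂ))⁻¹) {q | ℓ q.2 ≠ 0} :=
        hl2.contDiffOn.inv fun q hq => by exact_mod_cast hq
      simp only [div_eq_mul_inv]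
      exact h1.mul h2
  · intro q hq
    unfold uWKB
    refine Finset.sum_eq_zero fun j _ => ?_
    rw [(wkb_smooth hD hG hpos ℓ hχ hK hKD hχK j).2 q hq]
    simp

theorem cert_dense_chart {D : Set P2} (hD : IsOpen D) {G : P2 → Bil} (hG : ContDiffOn ℝ ∞ G D)
    (hpos : ∀ y ∈ D, PosDef (G y)) {p : P2} {ℓ : P2 →L[ℝ] ℝ} {r : ℝ} (hr : 0 < r)
    (hball : Metric.closedBall p r ⊆ D) (hℓ : ℓ ≠ 0) {m : ℕ} (hm : 1 ≤ m) :
    ∃ χ : P2 → ℝ, ContDiff ℝ ∞ χ ∧ (∃ K, IsCompact K ∧ K ⊆ Metric.ball p r ∧ ∀ y, y ∉ K → χ y = 0) ∧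
      ∀ᶠ N : ℕ in atTop, Cert (pert G ℓ χ m N) p ℓ r := by
  let cb : ContDiffBump p := ⟨r / 6, r / 3, by positivity, by linarith⟩
  let pb : ContDiffBump p := ⟨r / 3, r / 2, by positivity, by linarith⟩
  set χ : P2 → ℝ := fun y => cb y with hχdef
  set ψ : P2 → ℝ := fun y => pb y with hψdef
  have hχ : ContDiff ℝ ∞ χ := cb.contDiff
  have hψ : ContDiff ℝ ∞ ψ := pb.contDiff
  have hχ0 : ∀ y, 0 ≤ χ y := fun y => cb.nonneg
  have hχ1 : ∀ y, χ y ≤ 1 := fun y => cb.le_one
  have hψ0 : ∀ y, 0 ≤ ψ y := fun y => pb.nonneg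
  set K1 : Set P2 := Metric.closedBall p (r / 3) with hK1
  set K2 : Set P2 := Metric.closedBall p (r / 2) with hK2
  have hK1c : IsCompact K1 := isCompact_closedBall _ _
  have hK2c : IsCompact K2 := isCompact_closedBall _ _
  have hK12 : K1 ⊆ K2 := Metric.closedBall_subset_closedBall (by linarith)
  have hK2b : K2 ⊆ Metric.ball p r := Metric.closedBall_subset_ball (by linarith)
  have hK2D : K2 ⊆ D := hK2b.trans (Metric.ball_subset_closedBall.trans hball)
  have hK1D : K1 ⊆ D := hK12.trans hK2D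
  have hχK : ∀ y, y ∉ K1 → χ y = 0 := by
    intro y hy
    refine cb.zero_of_le_dist ?_
    have : r / 3 < dist y p := not_le.mp hy
    exact this.le
  have hψK : ∀ y, y ∉ K2 → ψ y = 0 := by
    intro y hy
    refine pb.zero_of_le_dist ?_
    have : r / 2 < dist y p := not_le.mp hy
    exact this.le
  have hψ1 : ∀ y ∈ K1, ψ y = 1 := fun y hy => pb.one_of_mem_closedBall hy
  refine ⟨χ, hχ, ⟨K1, hK1c, hK12.trans hK2b, hχK⟩, ?_⟩
  obtain ⟨C, hC, hev⟩ := wkb_ineq hD hG hpos hℓ hχ hK1c hK1D hχK hr hm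
  set g : P2 → ℝ := fun y => dens (G y) with hg
  have hgs : ContDiffOn ℝ ∞ g D := contDiffOn_dens hG hpos
  have hg0 : ∀ y, 0 ≤ g y := fun y => Real.sqrt_nonneg _
  have hχg : ContDiff ℝ ∞ fun y => χ y * g y := contDiff_mul_of_supp hD hK1c hK1D hχ hχK hgs
  have hχχg : ContDiff ℝ ∞ fun y => χ y * (χ y * g y) := hχ.mul hχg
  have hψg : ContDiff ℝ ∞ fun y => ψ y * g y := contDiff_mul_of_supp hD hK2c hK2D hψ hψK hgs
  have hc1 : HasCompactSupport fun y => χ y * g y :=
    HasCompactSupport.intro hK1c fun y hy => by simp [hχK y hy]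
  have hc2 : HasCompactSupport fun y => χ y * (χ y * g y) :=
    HasCompactSupport.intro hK1c fun y hy => by simp [hχK y hy]
  have hc3 : HasCompactSupport fun y => ψ y * g y :=
    HasCompactSupport.intro hK2c fun y hy => by simp [hψK y hy]
  obtain ⟨C1, hC1⟩ := osc_integral hℓ hχg hc1 (m + 1)
  have h2ℓ : (2 : ℝ) • ℓ ≠ 0 := smul_ne_zero two_ne_zero hℓ
  obtain ⟨C2, hC2⟩ := osc_integral h2ℓ hχχg hc2 1
  set Q := ∫ y, χ y * (χ y * g y) with hQ
  set B3 := ∫ y, χ y * g y with hB3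
  set B4 := ∫ y, ψ y * g y with hB4
  have hQ0 : 0 < Q := by
    refine hχχg.continuous.integral_pos_of_hasCompactSupport_nonneg_nonzero hc2
      (fun y => mul_nonneg (hχ0 y) (mul_nonneg (hχ0 y) (hg0 y))) (x := p) ?_
    have h1 : χ p = 1 := cb.one_of_mem_closedBall (Metric.mem_closedBall_self (by positivity))
    have h2 : 0 < g p := dens_pos (hpos p (hball (Metric.mem_closedBall_self hr.le)))
    simp only [h1, one_mul]
    exact h2.ne'
  have hB30 : 0 ≤ B3 := integral_nonneg fun y => mul_nonneg (hχ0 y) (hg0 y)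
  have hB40 : 0 ≤ B4 := integral_nonneg fun y => mul_nonneg (hψ0 y) (hg0 y)
  have hlim : ∀ᶠ N : ℕ in atTop,
      (|C1| + 3 / 4 * |C2| + 1 / 2 * B3 + 2 * C * B4) * (N : ℝ)⁻¹ < Q / 4 := by
    have h1 : Tendsto (fun N : ℕ => (|C1| + 3 / 4 * |C2| + 1 / 2 * B3 + 2 * C * B4) * (N : ℝ)⁻¹)
        atTop (𝓝 ((|C1| + 3 / 4 * |C2| + 1 / 2 * B3 + 2 * C * B4) * 0)) :=
      tendsto_const_nhds.mul tendsto_inv_atTop_nhds_zero_nat
    rw [mul_zero] at h1
    exact h1.eventually (gt_mem_nhds (by positivity))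
  filter_upwards [hev, hlim, eventually_ge_atTop 1] with N hN hNlim hN1
  have hNr : (1 : ℝ) ≤ N := by exact_mod_cast hN1
  set a : ℝ := ((N : ℝ) ^ m)⁻¹ with ha
  set a' : ℝ := ((N : ℝ) ^ (m + 1))⁻¹ with ha'
  have ha0 : 0 < a := by positivity
  have ha1 : a ≤ (N : ℝ)⁻¹ := by
    rw [ha]
    refine inv_anti₀ (by positivity) ?_
    calc (N : ℝ) = (N : ℝ) ^ 1 := (pow_one _).symm
      _ ≤ (N : ℝ) ^ m := pow_le_pow_right₀ hNr hm
  have ha1' : a ≤ 1 := ha1.trans (inv_le_one_of_one_le₀ hNr)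
  have haa' : a' = a * (N : ℝ)⁻¹ := by rw [ha', ha, pow_succ, mul_inv]
  have ha'0 : 0 < a' := by positivity
  obtain ⟨hUs, hU0⟩ := uWKB_smooth hD hG hpos ℓ hχ hK1c hK1D hχK N (m + 1)
  set b : P2 → ℝ := fun y => -(χ y * Real.cos (N * ℓ y)) +
    1 / 2 * a * (χ y * Real.sin (N * ℓ y)) ^ 2 + C * a' * ψ y with hb
  set u : P2 × P2 → ℝ := fun q => (uWKB G ℓ χ N (m + 1) q).re with hu
  have hu0 : ∀ q : P2 × P2, q.1 ∉ K1 → u q = 0 := fun q hq => by simp [hu, hU0 q hq]
  have hbc : Continuous b := by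
    have h1 := hχ.continuous
    have h2 := hψ.continuous
    simp only [hb]
    fun_prop
  refine ⟨K2, b, u, hK2c, hK2b, hbc, ?_, ?_, fun q hq => hu0 q fun h => hq (hK12 h), ?_, ?_⟩
  · intro y hy
    have h1 : χ y = 0 := hχK y fun h => hy (hK12 h)
    simp [hb, h1, hψK y hy]
  · exact (Complex.reCLM.contDiff.comp_contDiffOn (hUs.of_le (by simp)))
  · intro y hy v hv hv2
    by_cases hyK : y ∈ K1
    · have h1 := hN y hyK v hv hv2
      have hlv : ℓ v ≠ 0 := by
        intro h0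
        rw [h0, abs_zero] at hv2
        have h2 : ‖v‖ = 0 := by
          have := norm_nonneg v
          nlinarith
        rw [norm_eq_zero.mp h2] at hv
        simp at hv
      have hopen : IsOpen {q : P2 × P2 | ℓ q.2 ≠ 0} := by
        have : Continuous fun q : P2 × P2 => ℓ q.2 := by fun_prop
        exact isOpen_ne.preimage this
      have hdiff : DifferentiableAt ℝ (uWKB G ℓ χ N (m + 1)) (y, v) :=
        (hUs.contDiffAt (hopen.mem_nhds hlv)).differentiableAt (by simp)
      have hfd : fderiv ℝ u (y, v) = Complex.reCLM ∘L fderiv ℝ (uWKB G ℓ χ N (m + 1)) (y, v) :=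
        (Complex.reCLM.hasFDerivAt.comp (y, v) hdiff.hasFDerivAt).fderiv
      have hsp : spray (pert G ℓ χ m N) u (y, v) =
          (spray (pert G ℓ χ m N) (uWKB G ℓ χ N (m + 1)) (y, v)).re := by
        simp only [spray]
        rw [hfd]
        rfl
      rw [hsp]
      simp only [hb, hψ1 y hyK]
      linarith
    · have h1 : spray (pert G ℓ χ m N) u (y, v) = 0 := by
        simp only [spray]
        rw [fderiv_eq_zero_of_supp hK1c.isClosed hu0 hyK]
        rfl
      rw [h1, add_zero]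
      have h2 : χ y = 0 := hχK y hyK
      simp only [hb, h2]
      have := hψ0 y
      have h3 : 0 ≤ C * a' * ψ y := by positivity
      simpa using h3
  · have hsc : ∀ y, 0 ≤ 1 + a * (χ y * Real.cos (N * ℓ y)) := by
      intro y
      have h1 : |χ y * Real.cos (N * ℓ y)| ≤ 1 := by
        rw [abs_mul, abs_of_nonneg (hχ0 y)]
        exact mul_le_one₀ (hχ1 y) (abs_nonneg _) (Real.abs_cos_le_one _)
      have h2 := (abs_le.mp h1).1
      nlinarith
    have hdens : ∀ y, dens (pert G ℓ χ m N y) = (1 + a * (χ y * Real.cos (N * ℓ y))) * g y :=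
      fun y => dens_smul (hsc y) (G y)
    have hmain : ∀ y, b y * dens (pert G ℓ χ m N y) ≤
        -(χ y * g y * Real.cos (N * ℓ y)) - a / 4 * (χ y * (χ y * g y)) -
          3 * a / 4 * (χ y * (χ y * g y) * Real.cos (N * ((2 : ℝ) • ℓ) y)) +
          a ^ 2 / 2 * (χ y * g y) + 2 * C * a' * (ψ y * g y) := by
      intro y
      rw [hdens y]
      simp only [hb]
      have e2 : Real.cos (N * ((2 : ℝ) • ℓ) y) = 2 * Real.cos (N * ℓ y) ^ 2 - 1 := by
        rw [← Real.cos_two_mul]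
        congr 1
        simp only [_root_.ContinuousLinearMap.smul_apply, smul_eq_mul]
        ring
      rw [e2]
      have hx0 := hχ0 y
      have hx1 := hχ1 y
      have hp0 := hψ0 y
      have hgy := hg0 y
      have hs2 : Real.sin (N * ℓ y) ^ 2 = 1 - Real.cos (N * ℓ y) ^ 2 := Real.sin_sq _
      have hcle : Real.cos (N * ℓ y) ≤ 1 := Real.cos_le_one _
      have hcge : -1 ≤ Real.cos (N * ℓ y) := Real.neg_one_le_cos _
      generalize Real.cos (N * ℓ y) = c at *
      generalize Real.sin (N * ℓ y) = s at *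
      generalize χ y = x at *
      generalize ψ y = w at *
      generalize g y = γ at *
      have hc2 : c ^ 2 ≤ 1 := by nlinarith
      -- term 3
      have t3 : x ^ 3 * (1 - c ^ 2) * c ≤ x := by
        have h1 : (1 - c ^ 2) * c ≤ 1 := by nlinarith
        have h2 : x ^ 3 ≤ x := by nlinarith [mul_nonneg hx0 hx0]
        have h3 : 0 ≤ x ^ 3 := by positivity
        nlinarith
      have t4 : w * (1 + a * (x * c)) ≤ 2 * w := by
        have h1 : a * (x * c) ≤ 1 := by
          have h2 : x * c ≤ 1 := by nlinarith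
          nlinarith
        nlinarith
      have hk3 : a ^ 2 / 2 * γ * (x ^ 3 * (1 - c ^ 2) * c) ≤ a ^ 2 / 2 * γ * x :=
        mul_le_mul_of_nonneg_left t3 (by positivity)
      have hk4 : C * a' * γ * (w * (1 + a * (x * c))) ≤ C * a' * γ * (2 * w) :=
        mul_le_mul_of_nonneg_left t4 (by positivity)
      have e3 : (-(x * c) + 1 / 2 * a * (x * s) ^ 2 + C * a' * w) * ((1 + a * (x * c)) * γ) =
          -(x * γ * c) - a / 4 * (x * (x * γ)) - 3 * a / 4 * (x * (x * γ) * (2 * c ^ 2 - 1)) +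
            a ^ 2 / 2 * γ * (x ^ 3 * (1 - c ^ 2) * c) + C * a' * γ * (w * (1 + a * (x * c))) := by
        rw [mul_pow, hs2]
        ring
      rw [e3]
      nlinarith [hk3, hk4]
    have hi1 : Integrable fun y => χ y * g y * Real.cos (N * ℓ y) :=
      integrable_of_supp hK1c (by
        have h1 := hχg.continuous
        have h2 : Continuous fun y => Real.cos (N * ℓ y) := by fun_prop
        exact (h1.mul h2).continuousOn) (fun y hy => by simp [hχK y hy])
    have hi2 : Integrable fun y => χ y * (χ y * g y) :=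
      hχχg.continuous.integrable_of_hasCompactSupport hc2
    have hi3 : Integrable fun y => χ y * (χ y * g y) * Real.cos (N * ((2 : ℝ) • ℓ) y) :=
      integrable_of_supp hK1c (by
        have h1 := hχχg.continuous
        have h2 : Continuous fun y => Real.cos (N * ((2 : ℝ) • ℓ) y) := by fun_prop
        exact (h1.mul h2).continuousOn) (fun y hy => by simp [hχK y hy])
    have hi4 : Integrable fun y => χ y * g y := hχg.continuous.integrable_of_hasCompactSupport hc1
    have hi5 : Integrable fun y => ψ y * g y := hψg.continuous.integrable_of_hasCompactSupport hc3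
    have hi6 : Integrable fun y => b y * dens (pert G ℓ χ m N y) := by
      have e : (fun y => b y * dens (pert G ℓ χ m N y)) =
          fun y => (b y * (1 + a * (χ y * Real.cos (N * ℓ y)))) * g y := by
        funext y
        rw [hdens y]
        ring
      rw [e]
      refine integrable_of_supp hK2c ?_ ?_
      · refine ContinuousOn.mul (Continuous.continuousOn ?_) (hgs.continuousOn.mono hK2D)
        have h1 := hχ.continuous
        fun_prop
      · intro y hy
        have h1 : χ y = 0 := hχK y fun h => hy (hK12 h)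
        simp [hb, h1, hψK y hy]
    have hle : ∫ y, b y * dens (pert G ℓ χ m N y) ≤
        -(∫ y, χ y * g y * Real.cos (N * ℓ y)) - a / 4 * Q -
          3 * a / 4 * (∫ y, χ y * (χ y * g y) * Real.cos (N * ((2 : ℝ) • ℓ) y)) +
          a ^ 2 / 2 * B3 + 2 * C * a' * B4 := by
      refine (integral_mono hi6 ?_ hmain).trans (le_of_eq ?_)
      · exact ((((hi1.neg.sub (hi2.const_mul _)).sub (hi3.const_mul _)).add
          (hi4.const_mul _)).add (hi5.const_mul _))
      · rw [integral_add, integral_add, integral_sub, integral_sub, integral_neg,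
          integral_const_mul, integral_const_mul, integral_const_mul, integral_const_mul]
        · exact hi1.neg
        · exact hi2.const_mul _
        · exact hi1.neg.sub (hi2.const_mul _)
        · exact hi3.const_mul _
        · exact (hi1.neg.sub (hi2.const_mul _)).sub (hi3.const_mul _)
        · exact hi4.const_mul _
        · exact ((hi1.neg.sub (hi2.const_mul _)).sub (hi3.const_mul _)).add (hi4.const_mul _)
        · exact hi5.const_mul _
    have hb1 : -(∫ y, χ y * g y * Real.cos (N * ℓ y)) ≤ |C1| * a' := by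
      have h1 := (hC1 N hN1).1
      have h2 : C1 * a' ≤ |C1| * a' := by
        gcongr
        exact le_abs_self _
      have h3 := (abs_le.mp h1).1
      linarith
    have hb2 : -(∫ y, χ y * (χ y * g y) * Real.cos (N * ((2 : ℝ) • ℓ) y)) ≤ |C2| * (N : ℝ)⁻¹ := by
      have h1 := (hC2 N hN1).1
      rw [pow_one] at h1
      have h2 : C2 * (N : ℝ)⁻¹ ≤ |C2| * (N : ℝ)⁻¹ := by
        gcongr
        exact le_abs_self _
      have h3 := (abs_le.mp h1).1
      linarith
    have hb3 : a ^ 2 / 2 * B3 ≤ a * (1 / 2 * B3 * (N : ℝ)⁻¹) := by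
      have : a * a * (B3 / 2) ≤ a * (N : ℝ)⁻¹ * (B3 / 2) := by gcongr
      nlinarith
    have hb4 : -(3 * a / 4 * (∫ y, χ y * (χ y * g y) * Real.cos (N * ((2 : ℝ) • ℓ) y))) ≤
        a * (3 / 4 * |C2| * (N : ℝ)⁻¹) := by
      have := mul_le_mul_of_nonneg_left hb2 (by positivity : 0 ≤ 3 * a / 4)
      nlinarith
    have hfin : a * ((|C1| + 3 / 4 * |C2| + 1 / 2 * B3 + 2 * C * B4) * (N : ℝ)⁻¹) < a * (Q / 4) :=
      mul_lt_mul_of_pos_left hNlim ha0
    rw [haa'] at hb1 hle
    nlinarith [hle, hb1, hb3, hb4, hfin]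

end Pool.Agent.Helper82.GS
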