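import Pool.Agent.Helper82.GS.Defs

/-!
# Chart level notions: acceleration, spray, certificates
-/

namespace Pool.Agent.Helper82.GS

open MeasureTheory Filter Topology
open scoped ContDiff Manifold

/-- The covector in the geodesic equation: `w ↦ (1/2) B w v v - B v v w`, where `B` is the derivative of the metric. -/
noncomputable def force (B : P2 →L[ℝ] Bil) (v : P2) : P2 →L[ℝ] ℝ := (1 / 2 : ℝ) • (B.flip v).flip v - B v v

@[simp] theorem force_apply (B : P2 →L[ℝ] Bil) (v w : P2) : force B v w = 1 / 2 * B w v v - B v v w := by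
  simp [force]

/-- The acceleration of a geodesic with velocity `v`, at a point where the metric is `A` and its derivative is `B`. -/
noncomputable def acc (A : Bil) (B : P2 →L[ℝ] Bil) (v : P2) : P2 := ContinuousLinearMap.inverse A (force B v)

/-- The derivative of a function of position and velocity along geodesics. -/
noncomputable def spray {F : Type*} [NormedAddCommGroup F] [NormedSpace ℝ F] (G : P2 → Bil) (u : P2 × P2 → F)
    (q : P2 × P2) : F :=
  fderiv ℝ u q (q.2, acc (G q.1) (fderiv ℝ G q.1) q.2)

/-- A certificate that closed geodesics pass near `p` with direction near the kernel of `ℓ`: a base function `b` with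
negative area integral and a function `u` of position and velocity, both supported over a compact subset `K` of the
ball, with `b + spray u ≥ 0` for all unit vectors whose direction is not near the kernel of `ℓ`. -/
def Cert (G : P2 → Bil) (p : P2) (ℓ : P2 →L[ℝ] ℝ) (r : ℝ) : Prop :=
  ∃ (K : Set P2) (b : P2 → ℝ) (u : P2 × P2 → ℝ), IsCompact K ∧ K ⊆ Metric.ball p r ∧
    Continuous b ∧ (∀ y, y ∉ K → b y = 0) ∧
    ContDiffOn ℝ 1 u {q | ℓ q.2 ≠ 0} ∧ (∀ q : P2 × P2, q.1 ∉ K → u q = 0) ∧
    (∀ y ∈ K, ∀ v, G y v v = 1 → r * ‖v‖ ≤ |ℓ v| → 0 ≤ b y + spray G u (y, v)) ∧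
    ∫ y, b y * dens (G y) < 0

end Pool.Agent.Helper82.GS
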