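import Pool.Agent.Helper82.GS.WKB

/-!
# The perturbed transport inequality (module GS-4)
-/

set_option maxSynthPendingDepth 3

namespace Pool.Agent.Helper82.GS

open MeasureTheory Filter Topology
open scoped ContDiff Manifold

/-- The perturbed metric `(1 + N^{-m} χ cos(N ℓ)) G`. -/
noncomputable def pert (G : P2 → Bil) (ℓ : P2 →L[ℝ] ℝ) (χ : P2 → ℝ) (m N : ℕ) (y : P2) : Bil :=
  (1 + ((N : ℝ) ^ m)⁻¹ * (χ y * Real.cos (N * ℓ y))) • G y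

/-- Derivative of `χ cos(N ℓ)`. -/
noncomputable def dphi (ℓ : P2 →L[ℝ] ℝ) (χ : P2 → ℝ) (N : ℕ) (y : P2) : P2 →L[ℝ] ℝ :=
  Real.cos (N * ℓ y) • fderiv ℝ χ y - (N * (χ y * Real.sin (N * ℓ y))) • ℓ

theorem hasFDerivAt_phi (ℓ : P2 →L[ℝ] ℝ) {χ : P2 → ℝ} (hχ : ContDiff ℝ ∞ χ) (N : ℕ) (y : P2) :
    HasFDerivAt (fun y => χ y * Real.cos (N * ℓ y)) (dphi ℓ χ N y) y := by
  have h1 : HasFDerivAt χ (fderiv ℝ χ y) y := (hχ.differentiable (by simp) y).hasFDerivAt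
  have h2 : HasFDerivAt (fun y => (N : ℝ) * ℓ y) ((N : ℝ) • ℓ) y := ℓ.hasFDerivAt.const_mul (N : ℝ)
  have h3 := h1.mul h2.cos
  refine h3.congr_fderiv ?_
  ext w
  simp [dphi]
  ring

theorem fderiv_pert {D : Set P2} (hD : IsOpen D) {G : P2 → Bil} (hG : ContDiffOn ℝ ∞ G D) (ℓ : P2 →L[ℝ] ℝ)
    {χ : P2 → ℝ} (hχ : ContDiff ℝ ∞ χ) (m N : ℕ) {y : P2} (hy : y ∈ D) :
    fderiv ℝ (pert G ℓ χ m N) y =
      (((N : ℝ) ^ m)⁻¹ • dphi ℓ χ N y).smulRight (G y) +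
        (1 + ((N : ℝ) ^ m)⁻¹ * (χ y * Real.cos (N * ℓ y))) • fderiv ℝ G y := by
  have hGd : HasFDerivAt G (fderiv ℝ G y) y :=
    ((hG.contDiffAt (hD.mem_nhds hy)).differentiableAt (by simp)).hasFDerivAt
  have h1 := ((hasFDerivAt_phi ℓ hχ N y).const_mul (((N : ℝ) ^ m)⁻¹)).const_add 1
  have h2 := (h1.smul hGd).fderiv
  have h3 : pert G ℓ χ m N = fun y => (1 + ((N : ℝ) ^ m)⁻¹ * (χ y * Real.cos (N * ℓ y))) • G y := rfl
  rw [h3]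
  refine h2.trans ?_
  rw [add_comm]

/-- The change of the acceleration. -/
noncomputable def hvec (G : P2 → Bil) (ℓ : P2 →L[ℝ] ℝ) (χ : P2 → ℝ) (N : ℕ) (y v : P2) : P2 :=
  (G y v v) • ContinuousLinearMap.inverse (G y) (dphi ℓ χ N y) - (2 * dphi ℓ χ N y v) • v

theorem acc_pert {D : Set P2} (hD : IsOpen D) {G : P2 → Bil} (hG : ContDiffOn ℝ ∞ G D)
    (hpos : ∀ y ∈ D, PosDef (G y)) (ℓ : P2 →L[ℝ] ℝ) {χ : P2 → ℝ} (hχ : ContDiff ℝ ∞ χ) (m N : ℕ) {y : P2}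
    (hy : y ∈ D) (v : P2) (hs : 1 + ((N : ℝ) ^ m)⁻¹ * (χ y * Real.cos (N * ℓ y)) ≠ 0) :
    acc (pert G ℓ χ m N y) (fderiv ℝ (pert G ℓ χ m N) y) v =
      acc (G y) (fderiv ℝ G y) v +
        (((N : ℝ) ^ m)⁻¹ / (2 * (1 + ((N : ℝ) ^ m)⁻¹ * (χ y * Real.cos (N * ℓ y))))) • hvec G ℓ χ N y v := by
  rw [fderiv_pert hD hG ℓ hχ m N hy]
  have h := acc_conf (hpos y hy) (fderiv ℝ G y) v hs (((N : ℝ) ^ m)⁻¹ • dphi ℓ χ N y)
  unfold pert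
  rw [h, hvec, map_smul]
  congr 1
  simp only [smul_apply, smul_eq_mul, smul_sub, smul_smul]
  congr 2
  · ring
  · ring

theorem spray_pert {D : Set P2} (hD : IsOpen D) {G : P2 → Bil} (hG : ContDiffOn ℝ ∞ G D)
    (hpos : ∀ y ∈ D, PosDef (G y)) (ℓ : P2 →L[ℝ] ℝ) {χ : P2 → ℝ} (hχ : ContDiff ℝ ∞ χ) (m N : ℕ) {y : P2}
    (hy : y ∈ D) (v : P2) (hs : 1 + ((N : ℝ) ^ m)⁻¹ * (χ y * Real.cos (N * ℓ y)) ≠ 0) (u : P2 × P2 → ℂ) :
    spray (pert G ℓ χ m N) u (y, v) = spray G u (y, v) +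
      (((N : ℝ) ^ m)⁻¹ / (2 * (1 + ((N : ℝ) ^ m)⁻¹ * (χ y * Real.cos (N * ℓ y))))) •
        fderiv ℝ u (y, v) (0, hvec G ℓ χ N y v) := by
  unfold spray
  simp only
  rw [acc_pert hD hG hpos ℓ hχ m N hy v hs, ← map_smul, ← map_add]
  congr 1
  simp

theorem cpow_norm (N : ℕ) (j : ℕ) : ‖((Complex.I * N) ^ j)⁻¹‖ = ((N : ℝ) ^ j)⁻¹ := by
  simp

/-- Vertical derivative of the formal solution. -/
theorem fderiv_uWKB_vert {D : Set P2} (hD : IsOpen D) {G : P2 → Bil} (hG : ContDiffOn ℝ ∞ G D)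
    (hpos : ∀ y ∈ D, PosDef (G y)) (ℓ : P2 →L[ℝ] ℝ) {χ : P2 → ℝ} (hχ : ContDiff ℝ ∞ χ) {K : Set P2}
    (hK : IsCompact K) (hKD : K ⊆ D) (hχK : ∀ y, y ∉ K → χ y = 0) (N M : ℕ) {y v : P2} (hv : ℓ v ≠ 0) (h : P2) :
    fderiv ℝ (uWKB G ℓ χ N M) (y, v) (0, h) =
      ∑ j ∈ Finset.range M, ((Complex.I * N) ^ (j + 1))⁻¹ * Complex.exp (Complex.I * N * (ℓ y : ℂ)) *
        fderiv ℝ (fun q : P2 × P2 => wkb G ℓ χ j q / (ℓ q.2 : ℂ)) (y, v) (0, h) := by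
  have hopen : IsOpen {q : P2 × P2 | ℓ q.2 ≠ 0} := isOpen_ne_fun (by fun_prop) continuous_const
  have hexp : HasFDerivAt (fun q : P2 × P2 => Complex.exp (Complex.I * N * (ℓ q.1 : ℂ)))
      (Complex.exp (Complex.I * N * (ℓ y : ℂ)) • ((Complex.I * N) •
        (Complex.ofRealCLM.comp (ℓ.comp (ContinuousLinearMap.fst ℝ P2 P2))))) (y, v) := by
    have h1 : HasFDerivAt (fun q : P2 × P2 => (ℓ q.1 : ℂ))
        (Complex.ofRealCLM.comp (ℓ.comp (ContinuousLinearMap.fst ℝ P2 P2))) (y, v) :=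
      (Complex.ofRealCLM.comp (ℓ.comp (ContinuousLinearMap.fst ℝ P2 P2))).hasFDerivAt
    exact (h1.const_mul (Complex.I * N)).cexp
  have hA : ∀ j, DifferentiableAt ℝ (fun q : P2 × P2 => wkb G ℓ χ j q / (ℓ q.2 : ℂ)) (y, v) := by
    intro j
    have h1 := (wkb_smooth hD hG hpos ℓ hχ hK hKD hχK j).1
    have h2 : DifferentiableAt ℝ (wkb G ℓ χ j) (y, v) :=
      (h1.contDiffAt (hopen.mem_nhds hv)).differentiableAt (by simp)
    have h3 : DifferentiableAt ℝ (fun q : P2 × P2 => (ℓ q.2 : ℂ)) (y, v) := by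
      have : DifferentiableAt ℝ (fun q : P2 × P2 =>
        (Complex.ofRealCLM.comp (ℓ.comp (ContinuousLinearMap.snd ℝ P2 P2))) q) (y, v) :=
        (Complex.ofRealCLM.comp (ℓ.comp (ContinuousLinearMap.snd ℝ P2 P2))).differentiableAt
      exact this
    have h4 : DifferentiableAt ℝ (fun q : P2 × P2 => ((ℓ q.2 : ℂ))⁻¹) (y, v) := h3.fun_inv (by simpa using hv)
    simp only [div_eq_mul_inv]
    exact h2.fun_mul h4
  have hterm : ∀ j, HasFDerivAt (fun q : P2 × P2 => ((Complex.I * N) ^ (j + 1))⁻¹ *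
      Complex.exp (Complex.I * N * (ℓ q.1 : ℂ)) * (wkb G ℓ χ j q / (ℓ q.2 : ℂ))) _ (y, v) := fun j =>
    (hexp.const_mul (((Complex.I * N) ^ (j + 1))⁻¹)).mul (hA j).hasFDerivAt
  have hsum := HasFDerivAt.fun_sum (u := Finset.range M) fun j _ => hterm j
  have hu : uWKB G ℓ χ N M = fun q => ∑ j ∈ Finset.range M, ((Complex.I * N) ^ (j + 1))⁻¹ *
      Complex.exp (Complex.I * N * (ℓ q.1 : ℂ)) * (wkb G ℓ χ j q / (ℓ q.2 : ℂ)) := rfl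
  rw [hu, hsum.fderiv]
  simp

theorem exp_eq (N : ℕ) (x : ℝ) : Complex.exp (Complex.I * N * (x : ℂ)) =
    (Real.cos (N * x) : ℂ) + (Real.sin (N * x) : ℂ) * Complex.I := by
  have h : Complex.I * (N : ℂ) * (x : ℂ) = (((N : ℝ) * x : ℝ) : ℂ) * Complex.I := by
    push_cast; ring
  rw [h, Complex.exp_mul_I, Complex.ofReal_cos, Complex.ofReal_sin]

theorem norm_exp_eq (N : ℕ) (x : ℝ) : ‖Complex.exp (Complex.I * N * (x : ℂ))‖ = 1 := by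
  have h : Complex.I * (N : ℂ) * (x : ℂ) = (((N : ℝ) * x : ℝ) : ℂ) * Complex.I := by
    push_cast; ring
  rw [h, Complex.norm_exp_ofReal_mul_I]

theorem re_term (N : ℕ) (x c : ℝ) :
    (((Complex.I * N) ^ (0 + 1))⁻¹ * Complex.exp (Complex.I * N * (x : ℂ)) * (c : ℂ)).re =
      (N : ℝ)⁻¹ * Real.sin (N * x) * c := by
  rw [exp_eq, zero_add, pow_one, mul_inv, Complex.inv_I]
  generalize Real.cos (N * x) = a
  generalize Real.sin (N * x) = b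
  simp [Complex.mul_re, Complex.mul_im]

/-- Vertical derivative of the leading amplitude. -/
theorem fderiv_lead (G : P2 → Bil) (ℓ : P2 →L[ℝ] ℝ) {χ : P2 → ℝ} {y v : P2} (hv : ℓ v ≠ 0) (h : P2)
    (hd : DifferentiableAt ℝ (fun q : P2 × P2 => wkb G ℓ χ 0 q / (ℓ q.2 : ℂ)) (y, v)) :
    fderiv ℝ (fun q : P2 × P2 => wkb G ℓ χ 0 q / (ℓ q.2 : ℂ)) (y, v) (0, h) =
      ((-(χ y * ℓ h / (ℓ v) ^ 2) : ℝ) : ℂ) := by
  have hc : HasDerivAt (fun t : ℝ => ((y, v + t • h) : P2 × P2)) (0, h) 0 := by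
    have h1 : HasDerivAt (fun t : ℝ => v + t • h) h 0 := by
      simpa using ((hasDerivAt_id (0 : ℝ)).smul_const h).const_add v
    exact (hasDerivAt_const (0 : ℝ) y).prodMk h1
  have hpt : ((y, v + (0 : ℝ) • h) : P2 × P2) = (y, v) := by simp
  have h2 : HasDerivAt (fun t : ℝ => wkb G ℓ χ 0 (y, v + t • h) / (ℓ (v + t • h) : ℂ))
      (fderiv ℝ (fun q : P2 × P2 => wkb G ℓ χ 0 q / (ℓ q.2 : ℂ)) (y, v) (0, h)) 0 := by
    have h3 : HasFDerivAt (fun q : P2 × P2 => wkb G ℓ χ 0 q / (ℓ q.2 : ℂ))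
        (fderiv ℝ (fun q : P2 × P2 => wkb G ℓ χ 0 q / (ℓ q.2 : ℂ)) (y, v)) (y, v + (0 : ℝ) • h) := by
      rw [hpt]; exact hd.hasFDerivAt
    exact h3.comp_hasDerivAt (0 : ℝ) hc
  have h4 : HasDerivAt (fun t : ℝ => ((χ y / (ℓ v + t * ℓ h) : ℝ) : ℂ)) ((-(χ y * ℓ h / (ℓ v) ^ 2) : ℝ) : ℂ) 0 := by
    have h5 : HasDerivAt (fun t : ℝ => ℓ v + t * ℓ h) (ℓ h) 0 := by
      simpa using ((hasDerivAt_id (0 : ℝ)).mul_const (ℓ h)).const_add (ℓ v)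
    have h6 := (hasDerivAt_const (0 : ℝ) (χ y)).fun_div h5 (by simpa using hv)
    have h7 := h6.ofReal_comp
    refine h7.congr_deriv ?_
    congr 1
    simp
    ring
  have h8 : (fun t : ℝ => wkb G ℓ χ 0 (y, v + t • h) / (ℓ (v + t • h) : ℂ)) =
      fun t : ℝ => ((χ y / (ℓ v + t * ℓ h) : ℝ) : ℂ) := by
    funext t
    simp [wkb]
  rw [h8] at h2
  exact h2.unique h4

/-- The compact set of relevant unit vectors. -/
def goodSet (G : P2 → Bil) (ℓ : P2 →L[ℝ] ℝ) (K : Set P2) (r : ℝ) : Set (P2 × P2) :=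
  {q | q.1 ∈ K ∧ 1 / 4 ≤ G q.1 q.2 q.2 ∧ G q.1 q.2 q.2 ≤ 4 ∧ r * ‖q.2‖ ≤ |ℓ q.2|}

theorem isCompact_goodSet {G : P2 → Bil} (ℓ : P2 →L[ℝ] ℝ) {K : Set P2} (hK : IsCompact K)
    (hG : ContinuousOn G K) (hpos : ∀ y ∈ K, PosDef (G y)) (r : ℝ) : IsCompact (goodSet G ℓ K r) := by
  obtain ⟨c, hc, hlow⟩ := exists_lower_bound hK hG hpos
  set R : ℝ := 4 / c + 1 with hR
  have hB : IsCompact (K ×ˢ Metric.closedBall (0 : P2) R) := hK.prod (isCompact_closedBall _ _)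
  have hGc : ContinuousOn (fun q : P2 × P2 => G q.1 q.2 q.2) (K ×ˢ Metric.closedBall (0 : P2) R) := by
    have h1 : ContinuousOn (fun q : P2 × P2 => G q.1) (K ×ˢ Metric.closedBall (0 : P2) R) :=
      hG.comp continuousOn_fst fun q hq => hq.1
    exact (h1.clm_apply continuousOn_snd).clm_apply continuousOn_snd
  have h1 := hGc.preimage_isClosed_of_isClosed hB.isClosed (isClosed_Icc (a := (1 / 4 : ℝ)) (b := 4))
  have h2 : IsClosed {q : P2 × P2 | r * ‖q.2‖ ≤ |ℓ q.2|} := isClosed_le (by fun_prop) (by fun_prop)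
  refine IsCompact.of_isClosed_subset hB ?_ ?_
  · have h3 : goodSet G ℓ K r = ((K ×ˢ Metric.closedBall (0 : P2) R) ∩
        (fun q : P2 × P2 => G q.1 q.2 q.2) ⁻¹' Set.Icc (1 / 4) 4) ∩ {q : P2 × P2 | r * ‖q.2‖ ≤ |ℓ q.2|} := by
      ext q
      constructor
      · rintro ⟨hq1, hq2, hq3, hq4⟩
        refine ⟨⟨⟨hq1, ?_⟩, hq2, hq3⟩, hq4⟩
        have h5 := hlow q.1 hq1 q.2
        rw [mem_closedBall_zero_iff]
        by_contra hcon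
        push Not at hcon
        have h6 : (1 : ℝ) ≤ R := by rw [hR]; have : 0 < 4 / c := by positivity
                                    linarith
        have h7 : c * R ≤ c * ‖q.2‖ ^ 2 := by
          apply mul_le_mul_of_nonneg_left _ hc.le
          nlinarith
        have h8 : c * R = 4 + c := by rw [hR]; field_simp
        linarith
      · rintro ⟨⟨⟨hq1, -⟩, hq2, hq3⟩, hq4⟩
        exact ⟨hq1, hq2, hq3, hq4⟩
    rw [h3]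
    exact h1.inter h2
  · rintro q ⟨hq1, hq2, hq3, hq4⟩
    refine ⟨hq1, ?_⟩
    have h5 := hlow q.1 hq1 q.2
    rw [mem_closedBall_zero_iff]
    by_contra hcon
    push Not at hcon
    have h6 : (1 : ℝ) ≤ R := by rw [hR]; have : 0 < 4 / c := by positivity
                                linarith
    have h7 : c * R ≤ c * ‖q.2‖ ^ 2 := by
      apply mul_le_mul_of_nonneg_left _ hc.le
      nlinarith
    have h8 : c * R = 4 + c := by rw [hR]; field_simp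
    linarith

theorem goodSet_ne {G : P2 → Bil} {ℓ : P2 →L[ℝ] ℝ} {K : Set P2} {r : ℝ} (hr : 0 < r) {q : P2 × P2}
    (hq : q ∈ goodSet G ℓ K r) : ℓ q.2 ≠ 0 := by
  obtain ⟨-, h1, -, h2⟩ := hq
  intro h0
  have hv : q.2 ≠ 0 := by
    intro hv
    rw [hv] at h1
    simp at h1
    linarith
  have : 0 < r * ‖q.2‖ := mul_pos hr (norm_pos_iff.2 hv)
  rw [h0, abs_zero] at h2
  linarith

theorem exists_bound_on {X F : Type*} [TopologicalSpace X] [NormedAddCommGroup F] {s : Set X} (hs : IsCompact s)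
    {f : X → F} (hf : ContinuousOn f s) : ∃ B : ℝ, 0 < B ∧ ∀ x ∈ s, ‖f x‖ ≤ B := by
  obtain ⟨B, hB⟩ := hs.exists_bound_of_continuousOn hf
  exact ⟨max B 1, lt_max_of_lt_right one_pos, fun x hx => (hB x hx).trans (le_max_left _ _)⟩

theorem norm_inverse_le {A : Bil} (hA : PosDef A) {c : ℝ} (hc : 0 < c) (hlow : ∀ v : P2, c * ‖v‖ ^ 2 ≤ A v v)
    (σ : P2 →L[ℝ] ℝ) : ‖ContinuousLinearMap.inverse A σ‖ ≤ c⁻¹ * ‖σ‖ := by
  set a := ContinuousLinearMap.inverse A σ with ha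
  have h1 : A a = σ := hA.apply_inverse σ
  have h2 := hlow a
  rw [h1] at h2
  have h3 : σ a ≤ ‖σ‖ * ‖a‖ := (le_abs_self _).trans (σ.le_opNorm a)
  rcases (norm_nonneg a).eq_or_lt with h0 | h0
  · rw [← h0]; positivity
  · have h4 : c * ‖a‖ ≤ ‖σ‖ := by
      have : c * ‖a‖ * ‖a‖ ≤ ‖σ‖ * ‖a‖ := by nlinarith
      exact le_of_mul_le_mul_right this h0
    rw [inv_mul_eq_div, le_div_iff₀ hc]
    linarith

/-- The real part of the leading term. -/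
theorem lead_bound {G : P2 → Bil} {ℓ : P2 →L[ℝ] ℝ} {χ : P2 → ℝ} {y v : P2} (hA : PosDef (G y)) {N : ℕ} (hN : 1 ≤ N)
    (hv : ℓ v ≠ 0) {c Bχ Bd Bv Bl : ℝ} (hc : 0 < c) (hlow : ∀ v : P2, c * ‖v‖ ^ 2 ≤ G y v v)
    (hBχ : |χ y| ≤ Bχ) (hBd : ‖fderiv ℝ χ y‖ ≤ Bd) (hBv : ‖v‖ ≤ Bv) (hBl : |(ℓ v)⁻¹| ≤ Bl) (hg : G y v v ≤ 4) :
    -(χ y * Real.sin (N * ℓ y)) ^ 2 -
        (Bχ * (4 * (‖ℓ‖ * (c⁻¹ * Bd)) + 2 * (Bd * Bv) * (‖ℓ‖ * Bv)) * Bl ^ 2) * (N : ℝ)⁻¹ ≤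
      (N : ℝ)⁻¹ * Real.sin (N * ℓ y) * (-(χ y * ℓ (hvec G ℓ χ N y v) / (ℓ v) ^ 2)) := by
  have hNpos : (0 : ℝ) < N := by exact_mod_cast hN
  have hcau := hA.cauchy ℓ v
  have hg0 : 0 ≤ G y v v := le_trans (by positivity) (hlow v)
  have hh : ℓ (hvec G ℓ χ N y v) =
      G y v v * (Real.cos (N * ℓ y) * ℓ (ContinuousLinearMap.inverse (G y) (fderiv ℝ χ y)) -
        (N * (χ y * Real.sin (N * ℓ y))) * ℓ (ContinuousLinearMap.inverse (G y) ℓ)) -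
      2 * (Real.cos (N * ℓ y) * fderiv ℝ χ y v - (N * (χ y * Real.sin (N * ℓ y))) * ℓ v) * ℓ v := by
    simp only [hvec, dphi, map_sub, map_smul, smul_eq_mul, sub_apply, smul_apply]
  rw [hh]
  set g := G y v v
  set x := χ y
  set s := Real.sin (N * ℓ y)
  set k := Real.cos (N * ℓ y)
  set a := ℓ (ContinuousLinearMap.inverse (G y) ℓ)
  set b := ℓ (ContinuousLinearMap.inverse (G y) (fderiv ℝ χ y)) with hb
  set d := fderiv ℝ χ y v with hd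
  set l := ℓ v with hl
  have hs1 : |s| ≤ 1 := Real.abs_sin_le_one _
  have hk1 : |k| ≤ 1 := Real.abs_cos_le_one _
  have hBd0 : 0 ≤ Bd := (norm_nonneg _).trans hBd
  have hBv0 : 0 ≤ Bv := (norm_nonneg _).trans hBv
  have hBχ0 : 0 ≤ Bχ := (abs_nonneg _).trans hBχ
  have hb1 : |b| ≤ ‖ℓ‖ * (c⁻¹ * Bd) := by
    have h1 := ℓ.le_opNorm (ContinuousLinearMap.inverse (G y) (fderiv ℝ χ y))
    have h2 := norm_inverse_le hA hc hlow (fderiv ℝ χ y)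
    have h3 : c⁻¹ * ‖fderiv ℝ χ y‖ ≤ c⁻¹ * Bd := mul_le_mul_of_nonneg_left hBd (by positivity)
    rw [Real.norm_eq_abs] at h1
    exact h1.trans (mul_le_mul_of_nonneg_left (h2.trans h3) (norm_nonneg _))
  have hd1 : |d| ≤ Bd * Bv := by
    have h1 := (fderiv ℝ χ y).le_opNorm v
    rw [Real.norm_eq_abs] at h1
    exact h1.trans (mul_le_mul hBd hBv (norm_nonneg _) hBd0)
  have hl1 : |l| ≤ ‖ℓ‖ * Bv := by
    have h1 := ℓ.le_opNorm v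
    rw [Real.norm_eq_abs] at h1
    exact h1.trans (mul_le_mul_of_nonneg_left hBv (norm_nonneg _))
  have hl2 : 0 < l ^ 2 := by positivity
  have hlinv : (l ^ 2)⁻¹ ≤ Bl ^ 2 := by
    have h1 : (l ^ 2)⁻¹ = |l⁻¹| ^ 2 := by rw [sq_abs, inv_pow]
    rw [h1]
    exact pow_le_pow_left₀ (abs_nonneg _) hBl 2
  have e1 : (N : ℝ)⁻¹ * s * (-(x * (g * (k * b - (N * (x * s)) * a) - 2 * (k * d - (N * (x * s)) * l) * l) / l ^ 2)) =
      (x * s) ^ 2 * ((g * a - 2 * l ^ 2) / l ^ 2) - (x * s * k * (g * b - 2 * d * l) * (l ^ 2)⁻¹) * (N : ℝ)⁻¹ := by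
    field_simp
    ring
  rw [e1]
  have h5 : -1 ≤ (g * a - 2 * l ^ 2) / l ^ 2 := by
    rw [le_div_iff₀ hl2]
    nlinarith [hcau]
  have h6 : -(x * s) ^ 2 ≤ (x * s) ^ 2 * ((g * a - 2 * l ^ 2) / l ^ 2) := by
    nlinarith [sq_nonneg (x * s)]
  have h7 : |x * s * k * (g * b - 2 * d * l) * (l ^ 2)⁻¹| ≤
      Bχ * (4 * (‖ℓ‖ * (c⁻¹ * Bd)) + 2 * (Bd * Bv) * (‖ℓ‖ * Bv)) * Bl ^ 2 := by
    rw [abs_mul, abs_mul, abs_mul, abs_mul, abs_of_pos (inv_pos.2 hl2)]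
    have h8 : |x| * |s| * |k| ≤ Bχ := by
      calc |x| * |s| * |k| ≤ Bχ * 1 * 1 := by gcongr
        _ = Bχ := by ring
    have h9 : |g * b - 2 * d * l| ≤ 4 * (‖ℓ‖ * (c⁻¹ * Bd)) + 2 * (Bd * Bv) * (‖ℓ‖ * Bv) := by
      calc |g * b - 2 * d * l| ≤ |g * b| + |2 * d * l| := abs_sub _ _
        _ = |g| * |b| + 2 * |d| * |l| := by rw [abs_mul, abs_mul, abs_mul]; simp
        _ ≤ 4 * (‖ℓ‖ * (c⁻¹ * Bd)) + 2 * (Bd * Bv) * (‖ℓ‖ * Bv) := by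
          rw [abs_of_nonneg hg0]
          gcongr
    gcongr
  have h10 : x * s * k * (g * b - 2 * d * l) * (l ^ 2)⁻¹ * (N : ℝ)⁻¹ ≤
      Bχ * (4 * (‖ℓ‖ * (c⁻¹ * Bd)) + 2 * (Bd * Bv) * (‖ℓ‖ * Bv)) * Bl ^ 2 * (N : ℝ)⁻¹ :=
    mul_le_mul_of_nonneg_right ((le_abs_self _).trans h7) (by positivity)
  linarith

/-- Bound for the change of the acceleration. -/
theorem hvec_bound {G : P2 → Bil} {ℓ : P2 →L[ℝ] ℝ} {χ : P2 → ℝ} {y v : P2} (hA : PosDef (G y)) {N : ℕ} (hN : 1 ≤ N)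
    {c Bχ Bd Bv : ℝ} (hc : 0 < c) (hlow : ∀ v : P2, c * ‖v‖ ^ 2 ≤ G y v v)
    (hBχ : |χ y| ≤ Bχ) (hBd : ‖fderiv ℝ χ y‖ ≤ Bd) (hBv : ‖v‖ ≤ Bv) (hg : G y v v ≤ 4) :
    ‖hvec G ℓ χ N y v‖ ≤ (4 * c⁻¹ + 2 * Bv * Bv) * (Bd + Bχ * ‖ℓ‖) * N := by
  have hN1 : (1 : ℝ) ≤ N := by exact_mod_cast hN
  have hg0 : 0 ≤ G y v v := le_trans (by positivity) (hlow v)
  have hBd0 : 0 ≤ Bd := (norm_nonneg _).trans hBd
  have hBv0 : 0 ≤ Bv := (norm_nonneg _).trans hBv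
  have hBχ0 : 0 ≤ Bχ := (abs_nonneg _).trans hBχ
  have hphi : ‖dphi ℓ χ N y‖ ≤ (Bd + Bχ * ‖ℓ‖) * N := by
    have h1 : ‖dphi ℓ χ N y‖ ≤ |Real.cos (N * ℓ y)| * ‖fderiv ℝ χ y‖ +
        |(N : ℝ) * (χ y * Real.sin (N * ℓ y))| * ‖ℓ‖ := by
      refine (norm_sub_le _ _).trans ?_
      rw [norm_smul, norm_smul, Real.norm_eq_abs, Real.norm_eq_abs]
    refine h1.trans ?_
    have h2 : |Real.cos (N * ℓ y)| * ‖fderiv ℝ χ y‖ ≤ 1 * Bd :=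
      mul_le_mul (Real.abs_cos_le_one _) hBd (norm_nonneg _) zero_le_one
    have h3 : |(N : ℝ) * (χ y * Real.sin (N * ℓ y))| * ‖ℓ‖ ≤ (N * (Bχ * 1)) * ‖ℓ‖ := by
      rw [abs_mul, abs_mul, abs_of_nonneg (by positivity : (0 : ℝ) ≤ N)]
      have := Real.abs_sin_le_one (N * ℓ y)
      gcongr
    nlinarith [norm_nonneg ℓ, mul_nonneg hBd0 (by linarith : (0 : ℝ) ≤ (N : ℝ) - 1)]
  have hinv := norm_inverse_le hA hc hlow (dphi ℓ χ N y)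
  have h1 : ‖hvec G ℓ χ N y v‖ ≤ G y v v * ‖ContinuousLinearMap.inverse (G y) (dphi ℓ χ N y)‖ +
      2 * |dphi ℓ χ N y v| * ‖v‖ := by
    refine (norm_sub_le _ _).trans ?_
    rw [norm_smul, norm_smul, Real.norm_eq_abs, Real.norm_eq_abs, abs_of_nonneg hg0, abs_mul]
    simp
  have h2 : |dphi ℓ χ N y v| ≤ ‖dphi ℓ χ N y‖ * ‖v‖ := (dphi ℓ χ N y).le_opNorm v
  set P := (Bd + Bχ * ‖ℓ‖) * N with hP
  have hP0 : 0 ≤ P := by positivity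
  calc ‖hvec G ℓ χ N y v‖ ≤ G y v v * ‖ContinuousLinearMap.inverse (G y) (dphi ℓ χ N y)‖ +
      2 * |dphi ℓ χ N y v| * ‖v‖ := h1
    _ ≤ 4 * (c⁻¹ * P) + 2 * (P * Bv) * Bv := by
      have h3 : c⁻¹ * ‖dphi ℓ χ N y‖ ≤ c⁻¹ * P := mul_le_mul_of_nonneg_left hphi (by positivity)
      have h4 : ‖dphi ℓ χ N y‖ * ‖v‖ ≤ P * Bv := mul_le_mul hphi hBv (norm_nonneg _) hP0
      have h5 := hinv.trans h3
      have h6 := h2.trans h4
      gcongr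
    _ = (4 * c⁻¹ + 2 * Bv * Bv) * (Bd + Bχ * ‖ℓ‖) * N := by rw [hP]; ring

/-- The main inequality. -/
theorem wkb_ineq {D : Set P2} (hD : IsOpen D) {G : P2 → Bil} (hG : ContDiffOn ℝ ∞ G D)
    (hpos : ∀ y ∈ D, PosDef (G y)) {ℓ : P2 →L[ℝ] ℝ} (hℓ : ℓ ≠ 0) {χ : P2 → ℝ} (hχ : ContDiff ℝ ∞ χ) {K : Set P2}
    (hK : IsCompact K) (hKD : K ⊆ D) (hχK : ∀ y, y ∉ K → χ y = 0) {r : ℝ} (hr : 0 < r) {m : ℕ} (hm : 1 ≤ m) :
    ∃ C : ℝ, 0 < C ∧ ∀ᶠ N : ℕ in atTop, ∀ y ∈ K, ∀ v : P2, pert G ℓ χ m N y v v = 1 → r * ‖v‖ ≤ |ℓ v| →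
      χ y * Real.cos (N * ℓ y) - 1 / 2 * ((N : ℝ) ^ m)⁻¹ * (χ y * Real.sin (N * ℓ y)) ^ 2 - C * ((N : ℝ) ^ (m + 1))⁻¹
        ≤ (spray (pert G ℓ χ m N) (uWKB G ℓ χ N (m + 1)) (y, v)).re := by
  have hopen : IsOpen {q : P2 × P2 | ℓ q.2 ≠ 0} := isOpen_ne_fun (by fun_prop) continuous_const
  have hGK : ContinuousOn G K := hG.continuousOn.mono hKD
  have hposK : ∀ y ∈ K, PosDef (G y) := fun y hy => hpos y (hKD hy)
  obtain ⟨c, hc, hlow⟩ := exists_lower_bound hK hGK hposK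
  have hC := isCompact_goodSet ℓ hK hGK hposK r
  have hCne : ∀ q ∈ goodSet G ℓ K r, ℓ q.2 ≠ 0 := fun q hq => goodSet_ne hr hq
  -- bounds
  obtain ⟨Bχ, hBχ0, hBχ⟩ := exists_bound_on hK (hχ.continuous.continuousOn (s := K))
  obtain ⟨Bd, hBd0, hBd⟩ := exists_bound_on hK ((hχ.continuous_fderiv (by simp)).continuousOn (s := K))
  obtain ⟨Bv, hBv0, hBv'⟩ := exists_bound_on hC (f := fun q : P2 × P2 => q.2)
    (continuousOn_snd (s := goodSet G ℓ K r))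
  have hBv : ∀ y v : P2, (y, v) ∈ goodSet G ℓ K r → ‖v‖ ≤ Bv := fun y v h => hBv' (y, v) h
  obtain ⟨Bl, hBl0, hBl⟩ := exists_bound_on hC
    (f := fun q : P2 × P2 => (ℓ q.2)⁻¹) (ContinuousOn.inv₀ (by fun_prop) hCne)
  have hBl' : ∀ y v : P2, (y, v) ∈ goodSet G ℓ K r → |(ℓ v)⁻¹| ≤ Bl := fun y v h => hBl (y, v) h
  have hAsm : ∀ j, ContDiffOn ℝ ∞ (fun q : P2 × P2 => wkb G ℓ χ j q / (ℓ q.2 : ℂ)) {q | ℓ q.2 ≠ 0} := by
    intro j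
    have h1 := (wkb_smooth hD hG hpos ℓ hχ hK hKD hχK j).1
    have h3 : ContDiff ℝ ∞ (fun q : P2 × P2 => (ℓ q.2 : ℂ)) :=
      (Complex.ofRealCLM.comp (ℓ.comp (ContinuousLinearMap.snd ℝ P2 P2))).contDiff
    simp only [div_eq_mul_inv]
    exact h1.mul (h3.contDiffOn.inv fun q hq => by simpa using hq)
  have hAbd : ∀ j, ∃ B : ℝ, 0 < B ∧ ∀ q ∈ goodSet G ℓ K r,
      ‖fderiv ℝ (fun q : P2 × P2 => wkb G ℓ χ j q / (ℓ q.2 : ℂ)) q‖ ≤ B := by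
    intro j
    refine exists_bound_on hC ?_
    exact ((hAsm j).continuousOn_fderiv_of_isOpen hopen (by simp)).mono fun q hq => hCne q hq
  choose BA hBA0 hBA using hAbd
  obtain ⟨Bw, hBw0, hBw⟩ := exists_bound_on hC
    ((wkb_smooth hD hG hpos ℓ hχ hK hKD hχK (m + 1)).1.continuousOn.mono fun q hq => hCne q hq)
  set E : ℝ := Bχ * (4 * (‖ℓ‖ * (c⁻¹ * Bd)) + 2 * (Bd * Bv) * (‖ℓ‖ * Bv)) * Bl ^ 2 with hE
  set Hh : ℝ := (4 * c⁻¹ + 2 * Bv * Bv) * (Bd + Bχ * ‖ℓ‖) with hHh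
  set Bt : ℝ := Hh * ∑ j ∈ Finset.range m, BA (j + 1) with hBt
  have hE0 : 0 ≤ E := by positivity
  have hHh0 : 0 ≤ Hh := by positivity
  have hBt0 : 0 ≤ Bt := mul_nonneg hHh0 (Finset.sum_nonneg fun j _ => (hBA0 _).le)
  refine ⟨Bw + Bχ ^ 3 + (E + Bt) + 1, by positivity, ?_⟩
  filter_upwards [eventually_ge_atTop 1, eventually_ge_atTop ⌈2 * Bχ⌉₊] with N hN1 hN2
  intro y hy v hunit hdir
  have hNr : (1 : ℝ) ≤ N := by exact_mod_cast hN1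
  have hNpos : (0 : ℝ) < N := by linarith
  have hN2' : 2 * Bχ ≤ N := (Nat.le_ceil _).trans (by exact_mod_cast hN2)
  set ε : ℝ := ((N : ℝ) ^ m)⁻¹ with hε
  have hε0 : 0 < ε := by positivity
  have hεN : ε ≤ (N : ℝ)⁻¹ := by
    rw [hε]
    refine inv_anti₀ hNpos ?_
    calc (N : ℝ) = (N : ℝ) ^ 1 := (pow_one _).symm
      _ ≤ (N : ℝ) ^ m := pow_le_pow_right₀ hNr hm
  have hBχy : |χ y| ≤ Bχ := hBχ y hy
  have hphi1 : |χ y * Real.cos (N * ℓ y)| ≤ Bχ := by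
    rw [abs_mul]
    calc |χ y| * |Real.cos (N * ℓ y)| ≤ Bχ * 1 := by
          have := Real.abs_cos_le_one (N * ℓ y)
          gcongr
      _ = Bχ := mul_one _
  have hεB : ε * Bχ ≤ 1 / 2 := by
    calc ε * Bχ ≤ (N : ℝ)⁻¹ * Bχ := mul_le_mul_of_nonneg_right hεN hBχ0.le
      _ ≤ 1 / 2 := by
        rw [inv_mul_le_iff₀ hNpos]; linarith
  set s : ℝ := 1 + ε * (χ y * Real.cos (N * ℓ y)) with hs
  have hs_abs : |s - 1| ≤ ε * Bχ := by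
    rw [hs, add_sub_cancel_left, abs_mul, abs_of_pos hε0]
    exact mul_le_mul_of_nonneg_left hphi1 hε0.le
  have hs_lo : 1 / 2 ≤ s := by
    have := (abs_le.1 hs_abs).1; linarith
  have hs_hi : s ≤ 3 / 2 := by
    have := (abs_le.1 hs_abs).2; linarith
  have hs_pos : 0 < s := by linarith
  have hsg : s * G y v v = 1 := by
    have : pert G ℓ χ m N y v v = s * G y v v := by simp [pert, hs, hε]
    rw [← this]; exact hunit
  have hg_eq : G y v v = s⁻¹ := by field_simp; linarith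
  have hg_lo : 1 / 4 ≤ G y v v := by
    rw [hg_eq, le_inv_comm₀ (by norm_num) hs_pos]; linarith
  have hg_hi : G y v v ≤ 4 := by
    rw [hg_eq, inv_le_comm₀ hs_pos (by norm_num)]; linarith
  have hq : ((y, v) : P2 × P2) ∈ goodSet G ℓ K r := ⟨hy, hg_lo, hg_hi, hdir⟩
  have hv : ℓ v ≠ 0 := hCne _ hq
  have hBvv : ‖v‖ ≤ Bv := hBv y v hq
  have hBdy : ‖fderiv ℝ χ y‖ ≤ Bd := hBd y hy
  have hBlv : |(ℓ v)⁻¹| ≤ Bl := hBl' y v hq
  have hN0 : N ≠ 0 := by omega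
  -- the unperturbed part
  have hun : χ y * Real.cos (N * ℓ y) - Bw * ((N : ℝ) ^ (m + 1))⁻¹ ≤
      (spray G (uWKB G ℓ χ N (m + 1)) (y, v)).re := by
    rw [spray_uWKB hD hG hpos ℓ hχ hK hKD hχK hN0 (m + 1) (q := (y, v)) hv]
    simp only
    rw [mul_sub, Complex.sub_re]
    have h1 : (Complex.exp (Complex.I * N * (ℓ y : ℂ)) * (χ y : ℂ)).re = χ y * Real.cos (N * ℓ y) := by
      rw [exp_eq]
      generalize Real.cos (N * ℓ y) = a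
      generalize Real.sin (N * ℓ y) = b
      simp
      ring
    have h2 : (Complex.exp (Complex.I * N * (ℓ y : ℂ)) *
        (((Complex.I * N) ^ (m + 1))⁻¹ * wkb G ℓ χ (m + 1) (y, v))).re ≤ Bw * ((N : ℝ) ^ (m + 1))⁻¹ := by
      refine (Complex.re_le_norm _).trans ?_
      rw [norm_mul, norm_mul, norm_exp_eq, cpow_norm, one_mul, mul_comm]
      exact mul_le_mul_of_nonneg_right (hBw _ hq) (by positivity)
    rw [h1]
    linarith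
  -- the vertical derivative
  set h := hvec G ℓ χ N y v with hh
  have hhb : ‖h‖ ≤ Hh * N := hvec_bound (hposK y hy) hN1 hc (hlow y hy) hBχy hBdy hBvv hg_hi
  have hAd : ∀ j, DifferentiableAt ℝ (fun q : P2 × P2 => wkb G ℓ χ j q / (ℓ q.2 : ℂ)) (y, v) := fun j =>
    ((hAsm j).contDiffAt (hopen.mem_nhds hv)).differentiableAt (by simp)
  have hvert : -(χ y * Real.sin (N * ℓ y)) ^ 2 - (E + Bt) * (N : ℝ)⁻¹ ≤
      (fderiv ℝ (uWKB G ℓ χ N (m + 1)) (y, v) (0, h)).re := by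
    rw [fderiv_uWKB_vert hD hG hpos ℓ hχ hK hKD hχK N (m + 1) hv h, Finset.sum_range_succ', Complex.add_re,
      fderiv_lead G ℓ hv h (hAd 0), re_term]
    have hlead := lead_bound (ℓ := ℓ) (χ := χ) (hposK y hy) hN1 hv hc (hlow y hy) hBχy hBdy hBvv hBlv hg_hi
    rw [← hE, ← hh] at hlead
    have htail : -(Bt * (N : ℝ)⁻¹) ≤ (∑ j ∈ Finset.range m, ((Complex.I * N) ^ (j + 1 + 1))⁻¹ *
        Complex.exp (Complex.I * N * (ℓ y : ℂ)) *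
        fderiv ℝ (fun q : P2 × P2 => wkb G ℓ χ (j + 1) q / (ℓ q.2 : ℂ)) (y, v) (0, h)).re := by
      have hnorm : ‖∑ j ∈ Finset.range m, ((Complex.I * N) ^ (j + 1 + 1))⁻¹ *
        Complex.exp (Complex.I * N * (ℓ y : ℂ)) *
        fderiv ℝ (fun q : P2 × P2 => wkb G ℓ χ (j + 1) q / (ℓ q.2 : ℂ)) (y, v) (0, h)‖ ≤ Bt * (N : ℝ)⁻¹ := by
        refine (norm_sum_le _ _).trans ?_
        have hterm : ∀ j ∈ Finset.range m, ‖((Complex.I * N) ^ (j + 1 + 1))⁻¹ *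
            Complex.exp (Complex.I * N * (ℓ y : ℂ)) *
            fderiv ℝ (fun q : P2 × P2 => wkb G ℓ χ (j + 1) q / (ℓ q.2 : ℂ)) (y, v) (0, h)‖ ≤
            (Hh * (N : ℝ)⁻¹) * BA (j + 1) := by
          intro j _
          rw [norm_mul, norm_mul, norm_exp_eq, cpow_norm, mul_one]
          have h1 : ((N : ℝ) ^ (j + 1 + 1))⁻¹ ≤ ((N : ℝ) ^ 2)⁻¹ :=
            inv_anti₀ (by positivity) (pow_le_pow_right₀ hNr (by omega))
          have h2 := (fderiv ℝ (fun q : P2 × P2 => wkb G ℓ χ (j + 1) q / (ℓ q.2 : ℂ)) (y, v)).le_opNorm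
            ((0, h) : P2 × P2)
          have h3 : ‖((0, h) : P2 × P2)‖ = ‖h‖ := by
            rw [Prod.norm_def]; simp
          rw [h3] at h2
          have h4 : ‖fderiv ℝ (fun q : P2 × P2 => wkb G ℓ χ (j + 1) q / (ℓ q.2 : ℂ)) (y, v)‖ * ‖h‖ ≤
              BA (j + 1) * (Hh * N) := mul_le_mul (hBA (j + 1) _ hq) hhb (norm_nonneg _) (hBA0 _).le
          calc ((N : ℝ) ^ (j + 1 + 1))⁻¹ * ‖fderiv ℝ (fun q : P2 × P2 => wkb G ℓ χ (j + 1) q / (ℓ q.2 : ℂ)) (y, v)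
                (0, h)‖ ≤ ((N : ℝ) ^ 2)⁻¹ * (BA (j + 1) * (Hh * N)) :=
                mul_le_mul h1 (h2.trans h4) (norm_nonneg _) (by positivity)
            _ = (Hh * (N : ℝ)⁻¹) * BA (j + 1) := by field_simp
        refine (Finset.sum_le_sum hterm).trans ?_
        rw [← Finset.mul_sum, hBt]
        exact le_of_eq (by ring)
      have := Complex.abs_re_le_norm (∑ j ∈ Finset.range m, ((Complex.I * N) ^ (j + 1 + 1))⁻¹ *
        Complex.exp (Complex.I * N * (ℓ y : ℂ)) *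
        fderiv ℝ (fun q : P2 × P2 => wkb G ℓ χ (j + 1) q / (ℓ q.2 : ℂ)) (y, v) (0, h))
      have h2 := (abs_le.1 (this.trans hnorm)).1
      exact h2
    linarith
  -- conclusion
  rw [spray_pert hD hG hpos ℓ hχ m N (hKD hy) v hs_pos.ne', Complex.add_re]
  have hre : ((ε / (2 * s)) • fderiv ℝ (uWKB G ℓ χ N (m + 1)) (y, v) (0, h)).re =
      (ε / (2 * s)) * (fderiv ℝ (uWKB G ℓ χ N (m + 1)) (y, v) (0, h)).re := by
    rw [Complex.real_smul, Complex.re_ofReal_mul]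
  change _ ≤ _ + ((ε / (2 * s)) • fderiv ℝ (uWKB G ℓ χ N (m + 1)) (y, v) (0, h)).re
  rw [hre]
  set κ : ℝ := ε / (2 * s) with hκ
  have hκ0 : 0 ≤ κ := by positivity
  have h2s : 0 < 2 * s := by linarith
  have hκ1 : κ ≤ ε := by
    rw [hκ, div_le_iff₀ h2s]
    exact le_mul_of_one_le_right hε0.le (by linarith)
  have hκ2 : κ ≤ 1 / 2 * ε + ε ^ 2 * Bχ := by
    rw [hκ, div_le_iff₀ h2s]
    have h1 : 1 - ε * Bχ ≤ s := by have := (abs_le.1 hs_abs).1; linarith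
    have h2 : 0 ≤ ε ^ 2 * Bχ := by positivity
    have h3 : ε * (1 - ε * Bχ) ≤ ε * s := mul_le_mul_of_nonneg_left h1 hε0.le
    have h4 : ε ^ 2 * Bχ ≤ ε ^ 2 * Bχ * (2 * s) := le_mul_of_one_le_right h2 (by linarith)
    have h5 : (1 / 2 * ε + ε ^ 2 * Bχ) * (2 * s) = ε * s + ε ^ 2 * Bχ * (2 * s) := by ring
    have h6 : ε * (1 - ε * Bχ) = ε - ε ^ 2 * Bχ := by ring
    rw [h5]
    rw [h6] at h3
    linarith
  set X : ℝ := (χ y * Real.sin (N * ℓ y)) ^ 2 with hX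
  have hX0 : 0 ≤ X := sq_nonneg _
  have hXB : X ≤ Bχ ^ 2 := by
    rw [hX, ← sq_abs]
    refine pow_le_pow_left₀ (abs_nonneg _) ?_ 2
    rw [abs_mul]
    calc |χ y| * |Real.sin (N * ℓ y)| ≤ Bχ * 1 := by
          have := Real.abs_sin_le_one (N * ℓ y)
          gcongr
      _ = Bχ := mul_one _
  have hεε : ε ^ 2 ≤ ((N : ℝ) ^ (m + 1))⁻¹ := by
    rw [hε, inv_pow, ← pow_mul]
    exact inv_anti₀ (by positivity) (pow_le_pow_right₀ hNr (by omega))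
  have hεN' : ε * (N : ℝ)⁻¹ = ((N : ℝ) ^ (m + 1))⁻¹ := by
    rw [hε, pow_succ, mul_inv]
  set η : ℝ := ((N : ℝ) ^ (m + 1))⁻¹ with hη
  have hη0 : 0 < η := by positivity
  have h1 : κ * (-X - (E + Bt) * (N : ℝ)⁻¹) ≤ κ * (fderiv ℝ (uWKB G ℓ χ N (m + 1)) (y, v) (0, h)).re :=
    mul_le_mul_of_nonneg_left hvert hκ0
  have h2 : κ * X ≤ 1 / 2 * ε * X + η * Bχ ^ 3 := by
    calc κ * X ≤ (1 / 2 * ε + ε ^ 2 * Bχ) * X := mul_le_mul_of_nonneg_right hκ2 hX0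
      _ = 1 / 2 * ε * X + ε ^ 2 * (Bχ * X) := by ring
      _ ≤ 1 / 2 * ε * X + η * (Bχ * Bχ ^ 2) := by gcongr
      _ = 1 / 2 * ε * X + η * Bχ ^ 3 := by ring
  have h3 : κ * ((E + Bt) * (N : ℝ)⁻¹) ≤ (E + Bt) * η := by
    calc κ * ((E + Bt) * (N : ℝ)⁻¹) ≤ ε * ((E + Bt) * (N : ℝ)⁻¹) :=
          mul_le_mul_of_nonneg_right hκ1 (by positivity)
      _ = (E + Bt) * η := by rw [← hεN']; ring
  have h1' : κ * (-X - (E + Bt) * (N : ℝ)⁻¹) = -(κ * X) - κ * ((E + Bt) * (N : ℝ)⁻¹) := by ring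
  have h4 : (Bw + Bχ ^ 3 + (E + Bt) + 1) * η = Bw * η + η * Bχ ^ 3 + (E + Bt) * η + η := by ring
  rw [h1'] at h1
  rw [h4]
  linarith

end Pool.Agent.Helper82.GS
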