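import Pool.Agent.Helper82.GS.Scale

/-!
# Functions of position and velocity along a geodesic (module GS-10)
-/

set_option maxSynthPendingDepth 3

namespace Pool.Agent.Helper82.GS

open MeasureTheory Filter Topology
open scoped ContDiff Manifold

variable {S : Type*} [TopologicalSpace S] [ChartedSpace P2 S]

/-- The acceleration of a geodesic in a chart. -/
theorem IsGeodesic.acc_eq {g : RMetric S} {γ : ℝ → S} (h : IsGeodesic g γ) {e : OpenPartialHomeomorph S P2}
    (he : e ∈ atlas P2 S) {t : ℝ} (ht : γ t ∈ e.source) :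
    deriv (deriv (e ∘ γ)) t =
      acc (g.comp e (e (γ t))) (fderiv ℝ (g.comp e) (e (γ t))) (deriv (e ∘ γ) t) := by
  obtain ⟨-, -, h3⟩ := h.2 e he t ht
  exact (acc_iff (g.posDef e he _ (e.map_source ht)) _ _ _).1 h3

open Classical in
/-- The value of `u` along a curve, zero outside the chart. -/
noncomputable def along (e : OpenPartialHomeomorph S P2) (u : P2 × P2 → ℝ) (γ : ℝ → S) (t : ℝ) : ℝ :=
  if γ t ∈ e.source then u (e (γ t), deriv (e ∘ γ) t) else 0

theorem spray_eq_zero {K : Set P2} (hK : IsCompact K) {u : P2 × P2 → ℝ}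
    (huK : ∀ q : P2 × P2, q.1 ∉ K → u q = 0) (G : P2 → Bil) {q : P2 × P2} (hq : q.1 ∉ K) :
    spray G u q = 0 := by
  have h1 : u =ᶠ[𝓝 q] fun _ => 0 := by
    have h2 : {q : P2 × P2 | q.1 ∉ K} ∈ 𝓝 q :=
      (hK.isClosed.isOpen_compl.preimage continuous_fst).mem_nhds hq
    filter_upwards [h2] with q' hq'
    exact huK q' hq'
  unfold spray
  rw [h1.fderiv_eq]
  simp

omit [ChartedSpace P2 S] in
theorem isClosed_image_symm [T2Space S] (e : OpenPartialHomeomorph S P2) {K : Set P2} (hK : IsCompact K)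
    (hKe : K ⊆ e.target) : IsClosed (e.symm '' K) :=
  (hK.image_of_continuousOn (e.continuousOn_symm.mono hKe)).isClosed

/-- Derivative of `along`, for `u` supported over a compact subset `K` of the chart and smooth where `ℓ(v) ≠ 0`. -/
theorem hasDerivAt_along [T2Space S] {g : RMetric S} {γ : ℝ → S} (h : IsGeodesic g γ)
    {e : OpenPartialHomeomorph S P2} (he : e ∈ atlas P2 S) {K : Set P2} (hK : IsCompact K) (hKe : K ⊆ e.target)
    {ℓ : P2 →L[ℝ] ℝ} {u : P2 × P2 → ℝ} (hu : ContDiffOn ℝ 1 u {q | ℓ q.2 ≠ 0})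
    (huK : ∀ q : P2 × P2, q.1 ∉ K → u q = 0)
    (hℓ : ∀ t, γ t ∈ e.source → e (γ t) ∈ K → ℓ (deriv (e ∘ γ) t) ≠ 0) (t : ℝ) :
    HasDerivAt (along e u γ) (along e (spray (g.comp e) u) γ t) t := by
  classical
  have hγ : Continuous γ := h.1
  by_cases hA : γ t ∈ e.source ∧ e (γ t) ∈ K
  · obtain ⟨hs, hKt⟩ := hA
    obtain ⟨hcd, -, -⟩ := h.2 e he t hs
    have hl := hℓ t hs hKt
    have hopen : IsOpen {q : P2 × P2 | ℓ q.2 ≠ 0} :=
      isOpen_ne_fun (ℓ.continuous.comp continuous_snd) continuous_const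
    have hud : DifferentiableAt ℝ u (e (γ t), deriv (e ∘ γ) t) :=
      (hu.differentiableOn (by norm_num)).differentiableAt (hopen.mem_nhds hl)
    have h1 : HasDerivAt (e ∘ γ) (deriv (e ∘ γ) t) t :=
      (hcd.differentiableAt (by norm_num)).hasDerivAt
    have h2 : HasDerivAt (deriv (e ∘ γ)) (deriv (deriv (e ∘ γ)) t) t := by
      have h3 : DifferentiableAt ℝ (deriv (e ∘ γ)) t := by
        have h4 : ContDiffAt ℝ 1 (deriv (e ∘ γ)) t := by
          have h5 : ContDiffAt ℝ 1 (fderiv ℝ (e ∘ γ)) t := hcd.fderiv_right (m := 1) (by norm_num)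
          have h6 : deriv (e ∘ γ) = fun s => fderiv ℝ (e ∘ γ) s 1 := by
            funext s
            exact (fderiv_apply_one_eq_deriv).symm
          rw [h6]
          exact h5.clm_apply contDiffAt_const
        exact h4.differentiableAt (by norm_num)
      exact h3.hasDerivAt
    have h3 : HasDerivAt (fun s => ((e ∘ γ) s, deriv (e ∘ γ) s))
        (deriv (e ∘ γ) t, deriv (deriv (e ∘ γ)) t) t := h1.prodMk h2
    have h4 : HasDerivAt (fun s => u ((e ∘ γ) s, deriv (e ∘ γ) s))
        (fderiv ℝ u (e (γ t), deriv (e ∘ γ) t) (deriv (e ∘ γ) t, deriv (deriv (e ∘ γ)) t)) t := by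
      have h5 : HasFDerivAt u (fderiv ℝ u (e (γ t), deriv (e ∘ γ) t))
          ((fun s => ((e ∘ γ) s, deriv (e ∘ γ) s)) t) := hud.hasFDerivAt
      exact h5.comp_hasDerivAt t h3
    have h5 : along e (spray (g.comp e) u) γ t =
        fderiv ℝ u (e (γ t), deriv (e ∘ γ) t) (deriv (e ∘ γ) t, deriv (deriv (e ∘ γ)) t) := by
      unfold along spray
      rw [if_pos hs, h.acc_eq he hs]
    rw [h5]
    refine h4.congr_of_eventuallyEq ?_
    have h6 : ∀ᶠ s in 𝓝 t, γ s ∈ e.source :=
      hγ.continuousAt.eventually (e.open_source.mem_nhds hs)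
    filter_upwards [h6] with s hs'
    unfold along
    rw [if_pos hs']
    rfl
  · have hC : IsClosed (e.symm '' K) := isClosed_image_symm e hK hKe
    have hnot : ∀ s, γ s ∉ e.symm '' K → γ s ∈ e.source → e (γ s) ∉ K := by
      intro s hs1 hs2 hs3
      exact hs1 ⟨e (γ s), hs3, e.left_inv hs2⟩
    have hγt : γ t ∉ e.symm '' K := by
      rintro ⟨y, hy, hyt⟩
      apply hA
      rw [← hyt]
      refine ⟨e.map_target (hKe hy), ?_⟩
      rw [e.right_inv (hKe hy)]
      exact hy
    have h1 : along e (spray (g.comp e) u) γ t = 0 := by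
      unfold along
      by_cases hs : γ t ∈ e.source
      · rw [if_pos hs]
        exact spray_eq_zero hK huK _ (hnot t hγt hs)
      · rw [if_neg hs]
    rw [h1]
    refine (hasDerivAt_const t (0 : ℝ)).congr_of_eventuallyEq ?_
    have h2 : ∀ᶠ s in 𝓝 t, γ s ∈ (e.symm '' K)ᶜ :=
      hγ.continuousAt.eventually (hC.isOpen_compl.mem_nhds hγt)
    filter_upwards [h2] with s hs
    unfold along
    by_cases hs' : γ s ∈ e.source
    · rw [if_pos hs']
      exact huK _ (hnot s hs hs')
    · rw [if_neg hs']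

/-- The extension by zero of a continuous function supported in a compact subset of the chart is continuous. -/
theorem continuous_ext [T2Space S] {e : OpenPartialHomeomorph S P2} {b : P2 → ℝ} (hb : Continuous b) {K : Set P2}
    (hK : IsCompact K) (hKe : K ⊆ e.target) (hbK : ∀ y, y ∉ K → b y = 0) : Continuous (ext e b) := by
  classical
  rw [continuous_iff_continuousAt]
  intro x
  by_cases hx : x ∈ e.source
  · have h1 : ext e b =ᶠ[𝓝 x] b ∘ e := by
      filter_upwards [e.open_source.mem_nhds hx] with z hz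
      unfold ext
      rw [if_pos hz]
      rfl
    have h2 : ContinuousAt (b ∘ e) x := hb.continuousAt.comp (e.continuousAt hx)
    exact h2.congr h1.symm
  · have hC : IsClosed (e.symm '' K) := isClosed_image_symm e hK hKe
    have hxC : x ∉ e.symm '' K := by
      rintro ⟨y, hy, hyx⟩
      apply hx
      rw [← hyx]
      exact e.map_target (hKe hy)
    have h1 : ext e b =ᶠ[𝓝 x] fun _ => 0 := by
      filter_upwards [hC.isOpen_compl.mem_nhds hxC] with z hz
      unfold ext
      by_cases hz' : z ∈ e.source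
      · rw [if_pos hz']
        refine hbK _ (fun h3 => hz ⟨e z, h3, e.left_inv hz'⟩)
      · rw [if_neg hz']
    exact continuousAt_const.congr h1.symm

/-- Nonnegativity of the integral of the base function over a closed geodesic that avoids the directions near the
kernel of `ℓ`. -/
theorem integral_nonneg_of_avoid [T2Space S] {g : RMetric S} {γ : ℝ → S} {T : ℝ} (h : IsClosedGeodesic g γ T)
    {e : OpenPartialHomeomorph S P2} (he : e ∈ atlas P2 S) {p : P2} {r : ℝ} (hr : 0 < r)
    (hball : Metric.closedBall p r ⊆ e.target) {K : Set P2} (hK : IsCompact K) (hKb : K ⊆ Metric.ball p r)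
    {ℓ : P2 →L[ℝ] ℝ} {b : P2 → ℝ} (hb : Continuous b) (hbK : ∀ y, y ∉ K → b y = 0)
    {u : P2 × P2 → ℝ} (hu : ContDiffOn ℝ 1 u {q | ℓ q.2 ≠ 0}) (huK : ∀ q : P2 × P2, q.1 ∉ K → u q = 0)
    (hineq : ∀ y ∈ K, ∀ v, g.comp e y v v = 1 → r * ‖v‖ ≤ |ℓ v| → 0 ≤ b y + spray (g.comp e) u (y, v))
    (havoid : ∀ t, γ t ∈ e.source → ‖e (γ t) - p‖ < r → r * ‖deriv (e ∘ γ) t‖ ≤ |ℓ (deriv (e ∘ γ) t)|) :
    0 ≤ ∫ t in (0 : ℝ)..T, ext e b (γ t) := by
  classical
  obtain ⟨hg, hT, hper⟩ := h
  have hKe : K ⊆ e.target := hKb.trans (Metric.ball_subset_closedBall.trans hball)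
  have hin : ∀ t, γ t ∈ e.source → e (γ t) ∈ K → ‖e (γ t) - p‖ < r := by
    intro t _ ht
    have := hKb ht
    rwa [Metric.mem_ball, dist_eq_norm] at this
  have hℓ : ∀ t, γ t ∈ e.source → e (γ t) ∈ K → ℓ (deriv (e ∘ γ) t) ≠ 0 := by
    intro t ht1 ht2 h0
    have h1 := havoid t ht1 (hin t ht1 ht2)
    rw [h0, abs_zero] at h1
    obtain ⟨-, h2, -⟩ := hg.2 e he t ht1
    have h3 : deriv (e ∘ γ) t = 0 := by
      have h4 : ‖deriv (e ∘ γ) t‖ ≤ 0 := by
        by_contra hcon
        push Not at hcon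
        have := mul_pos hr hcon
        linarith
      exact norm_le_zero_iff.1 h4
    rw [h3] at h2
    simp at h2
  have hcont : Continuous (fun t => ext e b (γ t)) := (continuous_ext hb hK hKe hbK).comp hg.1
  have hF : ∀ t, HasDerivAt (fun s => (∫ x in (0 : ℝ)..s, ext e b (γ x)) + along e u γ s)
      (ext e b (γ t) + along e (spray (g.comp e) u) γ t) t := by
    intro t
    refine HasDerivAt.add ?_ (hasDerivAt_along hg he hK hKe hu huK hℓ t)
    exact intervalIntegral.integral_hasDerivAt_right (hcont.intervalIntegrable _ _)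
      (hcont.stronglyMeasurableAtFilter _ _) hcont.continuousAt
  have hpos : ∀ t, 0 ≤ ext e b (γ t) + along e (spray (g.comp e) u) γ t := by
    intro t
    unfold ext along
    by_cases hs : γ t ∈ e.source
    · rw [if_pos hs, if_pos hs]
      by_cases hKt : e (γ t) ∈ K
      · obtain ⟨-, h2, -⟩ := hg.2 e he t hs
        exact hineq _ hKt _ h2 (havoid t hs (hin t hs hKt))
      · rw [hbK _ hKt, spray_eq_zero hK huK _ hKt, add_zero]
    · rw [if_neg hs, if_neg hs, add_zero]
  have hmono : Monotone (fun s => (∫ x in (0 : ℝ)..s, ext e b (γ x)) + along e u γ s) := by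
    refine monotone_of_deriv_nonneg (fun t => (hF t).differentiableAt) (fun t => ?_)
    rw [(hF t).deriv]
    exact hpos t
  have h1 := hmono hT.le
  simp only [intervalIntegral.integral_same, zero_add] at h1
  have h2 : along e u γ T = along e u γ 0 := by
    have h3 : γ T = γ 0 := by simpa using hper 0
    have h4 : deriv (e ∘ γ) T = deriv (e ∘ γ) 0 := by
      have h5 : (fun t => (e ∘ γ) (t + T)) = e ∘ γ := by
        funext t
        simp [hper t]
      have h6 := deriv_comp_add_const (f := e ∘ γ) (x := 0) T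
      rw [h5, zero_add] at h6
      exact h6.symm
    unfold along
    rw [h3, h4]
  rw [h2] at h1
  linarith

end Pool.Agent.Helper82.GS
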