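import Pool.Agent.Helper82.GS.Defs

/-!
# Derivatives of oscillating functions (module GS-7)
-/

set_option maxSynthPendingDepth 3

namespace Pool.Agent.Helper82.GS

open MeasureTheory Filter Topology
open scoped ContDiff Manifold

theorem osc_norm_le {W : Type} [NormedAddCommGroup W] [NormedSpace ℝ W] {k : ℕ} {f A B : P2 → W} {c : ℝ} {y : P2}
    (hA : ContDiffAt ℝ k A y) (hB : ContDiffAt ℝ k B y) (h : f =ᶠ[𝓝 y] fun z => A z + c • B z) :
    ‖iteratedFDeriv ℝ k f y‖ ≤ ‖iteratedFDeriv ℝ k A y‖ + |c| * ‖iteratedFDeriv ℝ k B y‖ := by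
  have h1 : iteratedFDeriv ℝ k f y = iteratedFDeriv ℝ k (A + c • B) y :=
    (h.iteratedFDeriv (𝕜 := ℝ) k).eq_of_nhds
  have h2 : iteratedFDeriv ℝ k (A + c • B) y = iteratedFDeriv ℝ k A y + c • iteratedFDeriv ℝ k B y := by
    have hcB : ContDiffAt ℝ k (c • B) y := hB.const_smul c
    rw [iteratedFDeriv_add_apply hA hcB, iteratedFDeriv_const_smul_apply hB]
  rw [h1, h2]
  refine (norm_add_le _ _).trans ?_
  rw [norm_smul, Real.norm_eq_abs]

/-- Derivatives of order `k` of `cos(N h) F` are `O(N^k)` on compact sets. -/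
theorem osc_bound {O : Set P2} (hO : IsOpen O) {h : P2 → ℝ} (hh : ContDiffOn ℝ ∞ h O) {K : Set P2}
    (hK : IsCompact K) (hKO : K ⊆ O) (k : ℕ) : ∀ {W : Type} [NormedAddCommGroup W] [NormedSpace ℝ W] {F : P2 → W},
    ContDiffOn ℝ ∞ F O → ∃ C : ℝ, ∀ N : ℕ, 1 ≤ N → ∀ y ∈ K,
      ‖iteratedFDeriv ℝ k (fun y => Real.cos (N * h y) • F y) y‖ ≤ C * (N : ℝ) ^ k ∧
      ‖iteratedFDeriv ℝ k (fun y => Real.sin (N * h y) • F y) y‖ ≤ C * (N : ℝ) ^ k := by
  have hNh : ∀ N : ℕ, ContDiffOn ℝ ∞ (fun y => (N : ℝ) * h y) O := fun N => contDiffOn_const.mul hh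
  have hcos : ∀ N : ℕ, ContDiffOn ℝ ∞ (fun y => Real.cos (N * h y)) O := fun N =>
    Real.contDiff_cos.comp_contDiffOn (hNh N)
  have hsin : ∀ N : ℕ, ContDiffOn ℝ ∞ (fun y => Real.sin (N * h y)) O := fun N =>
    Real.contDiff_sin.comp_contDiffOn (hNh N)
  induction k with
  | zero =>
    intro W _ _ F hF
    obtain ⟨C, hC⟩ := hK.exists_bound_of_continuousOn (hF.continuousOn.mono hKO)
    refine ⟨C, fun N _ y hy => ?_⟩
    simp only [norm_iteratedFDeriv_zero, pow_zero, mul_one, norm_smul, Real.norm_eq_abs]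
    exact ⟨(mul_le_of_le_one_left (norm_nonneg _) (Real.abs_cos_le_one _)).trans (hC y hy),
      (mul_le_of_le_one_left (norm_nonneg _) (Real.abs_sin_le_one _)).trans (hC y hy)⟩
  | succ k ih =>
    intro W _ _ F hF
    have hF' : ContDiffOn ℝ ∞ (fderiv ℝ F) O := hF.fderiv_of_isOpen hO (by simp)
    have hh' : ContDiffOn ℝ ∞ (fderiv ℝ h) O := hh.fderiv_of_isOpen hO (by simp)
    have hG : ContDiffOn ℝ ∞ (fun z => (fderiv ℝ h z).smulRight (F z)) O := hh'.smulRight hF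
    obtain ⟨C₁, h₁⟩ := ih hF'
    obtain ⟨C₂, h₂⟩ := ih hG
    refine ⟨|C₁| + |C₂|, fun N hN y hy => ?_⟩
    have hyO : y ∈ O := hKO hy
    have hOn : O ∈ 𝓝 y := hO.mem_nhds hyO
    have hN1 : (1 : ℝ) ≤ N := by exact_mod_cast hN
    have hN0 : (0 : ℝ) ≤ N := by linarith
    obtain ⟨h1c, h1s⟩ := h₁ N hN y hy
    obtain ⟨h2c, h2s⟩ := h₂ N hN y hy
    have hdh : ∀ z ∈ O, HasFDerivAt (fun z => (N : ℝ) * h z) ((N : ℝ) • fderiv ℝ h z) z := fun z hz =>
      ((hh.contDiffAt (hO.mem_nhds hz)).differentiableAt (by simp)).hasFDerivAt.const_mul _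
    have hdF : ∀ z ∈ O, HasFDerivAt F (fderiv ℝ F z) z := fun z hz =>
      ((hF.contDiffAt (hO.mem_nhds hz)).differentiableAt (by simp)).hasFDerivAt
    have hk : ∀ {V : Type} [NormedAddCommGroup V] [NormedSpace ℝ V] {u : P2 → V}, ContDiffOn ℝ ∞ u O →
        ContDiffAt ℝ k u y := fun hu => (hu.contDiffAt hOn).of_le (by exact_mod_cast le_top)
    have fin : ∀ {a b : ℝ}, a ≤ C₁ * (N : ℝ) ^ k → b ≤ C₂ * (N : ℝ) ^ k → a + N * b ≤ (|C₁| + |C₂|) * (N : ℝ) ^ (k + 1) := by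
      intro a b ha hb
      have hp : (0 : ℝ) ≤ (N : ℝ) ^ k := by positivity
      have e1 : a ≤ |C₁| * (N : ℝ) ^ k := ha.trans (mul_le_mul_of_nonneg_right (le_abs_self _) hp)
      have e2 : b ≤ |C₂| * (N : ℝ) ^ k := hb.trans (mul_le_mul_of_nonneg_right (le_abs_self _) hp)
      have e3 : |C₁| * (N : ℝ) ^ k ≤ |C₁| * (N : ℝ) ^ (k + 1) :=
        mul_le_mul_of_nonneg_left (pow_le_pow_right₀ hN1 (Nat.le_succ k)) (abs_nonneg _)
      have e4 : N * b ≤ |C₂| * (N : ℝ) ^ (k + 1) := by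
        calc N * b ≤ N * (|C₂| * (N : ℝ) ^ k) := mul_le_mul_of_nonneg_left e2 hN0
          _ = _ := by rw [pow_succ]; ring
      linarith
    constructor
    · rw [← norm_iteratedFDeriv_fderiv]
      have hev : fderiv ℝ (fun y => Real.cos (N * h y) • F y) =ᶠ[𝓝 y]
          fun z => Real.cos (N * h z) • fderiv ℝ F z +
            (-(N : ℝ)) • (Real.sin (N * h z) • (fderiv ℝ h z).smulRight (F z)) := by
        filter_upwards [hOn] with z hz
        have hd : HasFDerivAt (fun y => Real.cos (N * h y) • F y) _ z := (hdh z hz).cos.smul (hdF z hz)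
        rw [hd.fderiv]
        ext v
        simp
        module
      have := osc_norm_le (hk ((hcos N).smul hF')) (hk ((hsin N).smul hG)) hev
      rw [abs_neg, abs_of_nonneg hN0] at this
      exact this.trans (fin h1c h2s)
    · rw [← norm_iteratedFDeriv_fderiv]
      have hev : fderiv ℝ (fun y => Real.sin (N * h y) • F y) =ᶠ[𝓝 y]
          fun z => Real.sin (N * h z) • fderiv ℝ F z +
            (N : ℝ) • (Real.cos (N * h z) • (fderiv ℝ h z).smulRight (F z)) := by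
        filter_upwards [hOn] with z hz
        have hd : HasFDerivAt (fun y => Real.sin (N * h y) • F y) _ z := (hdh z hz).sin.smul (hdF z hz)
        rw [hd.fderiv]
        ext v
        simp
        module
      have := osc_norm_le (hk ((hsin N).smul hF')) (hk ((hcos N).smul hG)) hev
      rw [abs_of_nonneg hN0] at this
      exact this.trans (fin h1s h2c)

end Pool.Agent.Helper82.GS
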