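import Mathlib

/-!
# Riemannian metrics, closed geodesics, area: the definitions of the statement

`S` is a smooth surface: a manifold modelled on the Euclidean plane `Plane`.  A Riemannian metric is given by its
components in the charts `e` of the atlas, with the usual transformation rule: `g.comp e y v w` is the inner product of
the vectors `v` and `w` at the point `y` of the chart `e`.
-/

namespace Pool.Agent.Helper82.GS.Stmt

open MeasureTheory Filter Topology
open scoped ContDiff Manifold

section Generic

variable {E : Type*} [NormedAddCommGroup E] [NormedSpace ℝ E]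

/-- `B` is an inner product: bilinear, symmetric and positive definite. -/
structure IsInner (B : E → E → ℝ) : Prop where
  add : ∀ u v w, B (u + v) w = B u w + B v w
  smul : ∀ (c : ℝ) (v w : E), B (c • v) w = c * B v w
  symm : ∀ v w, B v w = B w v
  pos : ∀ v, v ≠ 0 → 0 < B v v

/-- The derivative in the direction `u` at the point `y` of the function `f`. -/
noncomputable def dir {F : Type*} [NormedAddCommGroup F] [NormedSpace ℝ F] (f : E → F) (y u : E) : F :=
  fderiv ℝ f y u

variable (E) (S : Type*) [TopologicalSpace S] [ChartedSpace E S]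

/-- A smooth Riemannian metric on `S`, given by its components `comp e y v w` in the charts `e` of the atlas, at the
points `y` of the target of `e` (and zero elsewhere). -/
structure RMetric where
  /-- The components of the metric in a chart. -/
  comp : OpenPartialHomeomorph S E → E → E → E → ℝ
  inner : ∀ e ∈ atlas E S, ∀ y ∈ e.target, IsInner (comp e y)
  smooth : ∀ e ∈ atlas E S, ∀ v w, ContDiffOn ℝ ∞ (fun y => comp e y v w) e.target
  change : ∀ e ∈ atlas E S, ∀ e' ∈ atlas E S, ∀ x ∈ e.source, x ∈ e'.source → ∀ v w,
    comp e (e x) v w = comp e' (e' x) (dir (e' ∘ e.symm) (e x) v) (dir (e' ∘ e.symm) (e x) w)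
  zero_off : ∀ e y v w, e ∉ atlas E S ∨ y ∉ e.target → comp e y v w = 0

variable {E S}

/-- The metrics `g` such that the derivatives of order `r` of the component `g(v, w)` in the chart `e` are uniformly
`δ`-close to those of `g₀(v, w)` on `K`. -/
def RMetric.near (g₀ : RMetric E S) (e : OpenPartialHomeomorph S E) (K : Set E) (v w : E) (r : ℕ) (δ : ℝ) :
    Set (RMetric E S) :=
  {g | ∀ y ∈ K, ‖iteratedFDeriv ℝ r (fun z => g.comp e z v w - g₀.comp e z v w) y‖ < δ}

/-- The smooth topology on the space of Riemannian metrics: uniform convergence of all derivatives of the components on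
the compact subsets of the charts. -/
instance RMetric.topology : TopologicalSpace (RMetric E S) :=
  TopologicalSpace.generateFrom {U | ∃ (g₀ : RMetric E S) (e : OpenPartialHomeomorph S E) (K : Set E) (v w : E) (r : ℕ)
    (δ : ℝ), e ∈ atlas E S ∧ IsCompact K ∧ K ⊆ e.target ∧ U = g₀.near e K v w r δ}

/-- The derivative in the direction `u` of the component `g(v, w)` in the chart `e` at the point `y`. -/
noncomputable def RMetric.dcomp (g : RMetric E S) (e : OpenPartialHomeomorph S E) (y u v w : E) : ℝ :=
  dir (fun z => g.comp e z v w) y u

/-- The velocity of a curve in the chart `e`. -/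
noncomputable def vel (e : OpenPartialHomeomorph S E) (γ : ℝ → S) (t : ℝ) : E := deriv (e ∘ γ) t

/-- The second derivative of a curve in the chart `e`. -/
noncomputable def acc (e : OpenPartialHomeomorph S E) (γ : ℝ → S) (t : ℝ) : E := deriv (deriv (e ∘ γ)) t

/-- A unit speed geodesic: in every chart it is of class `C^2`, of speed one, and satisfies the Euler-Lagrange equation
of the energy, `d/dt g(c', w) = (1/2) (D_w g)(c', c')` for all constant vectors `w`. -/
def IsGeodesic (g : RMetric E S) (γ : ℝ → S) : Prop :=
  Continuous γ ∧ ∀ e ∈ atlas E S, ∀ t, γ t ∈ e.source →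
    ContDiffAt ℝ 2 (e ∘ γ) t ∧
    g.comp e (e (γ t)) (vel e γ t) (vel e γ t) = 1 ∧
    ∀ w : E, g.comp e (e (γ t)) (acc e γ t) w + g.dcomp e (e (γ t)) (vel e γ t) (vel e γ t) w =
      (1 / 2) * g.dcomp e (e (γ t)) w (vel e γ t) (vel e γ t)

/-- A closed geodesic with period (length) `T`. -/
def IsClosedGeodesic (g : RMetric E S) (γ : ℝ → S) (T : ℝ) : Prop :=
  IsGeodesic g γ ∧ 0 < T ∧ ∀ t, γ (t + T) = γ t

/-- The closed geodesics of `g` are dense in the unit tangent bundle: in every chart, every unit vector at every point
is approximated by the velocities of closed geodesics. -/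
def ClosedGeodesicsDense (g : RMetric E S) : Prop :=
  ∀ e ∈ atlas E S, ∀ y ∈ e.target, ∀ v : E, g.comp e y v v = 1 → ∀ ε > 0,
    ∃ (γ : ℝ → S) (T : ℝ), IsClosedGeodesic g γ T ∧
      ∃ t, γ t ∈ e.source ∧ ‖e (γ t) - y‖ < ε ∧ ‖vel e γ t - v‖ < ε

end Generic

section Plane

/-- The average of a function over a finite family of closed geodesics, each given by a curve and its length. -/
noncomputable def average {S : Type*} (L : List ((ℝ → S) × ℝ)) (a : S → ℝ) : ℝ :=
  (L.map fun c => ∫ t in (0 : ℝ)..c.2, a (c.1 t)).sum / (L.map fun c => c.2).sum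

/-- The Euclidean plane. -/
abbrev Plane := EuclideanSpace ℝ (Fin 2)

/-- The area density of an inner product on the plane: the square root of its Gram determinant. -/
noncomputable def dens (B : Plane → Plane → ℝ) : ℝ :=
  Real.sqrt (B (EuclideanSpace.single 0 1) (EuclideanSpace.single 0 1) *
    B (EuclideanSpace.single 1 1) (EuclideanSpace.single 1 1) -
    B (EuclideanSpace.single 0 1) (EuclideanSpace.single 1 1) ^ 2)

variable {S : Type*} [TopologicalSpace S] [ChartedSpace Plane S] [MeasurableSpace S]

/-- The area measure of `g`: in every chart it is Lebesgue measure with density the square root of the Gram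
determinant. -/
def IsArea (g : RMetric Plane S) (μ : Measure S) : Prop :=
  ∀ e ∈ atlas Plane S, ∀ A : Set S, MeasurableSet A → A ⊆ e.source →
    μ A = ∫⁻ y in e '' A, ENNReal.ofReal (dens (g.comp e y))

/-- The closed geodesics of `g` are equidistributed in the surface: for some sequence of finite families of closed
geodesics the averages of every continuous function tend to its area average. -/
def Equidistributed (g : RMetric Plane S) : Prop :=
  ∃ μ : Measure S, IsArea g μ ∧ ∃ C : ℕ → List ((ℝ → S) × ℝ),
    (∀ k, ∀ c ∈ C k, IsClosedGeodesic g c.1 c.2) ∧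
    ∀ a : S → ℝ, Continuous a →
      Tendsto (fun k => average (C k) a) atTop (𝓝 ((∫ x, a x ∂μ) / μ.real Set.univ))

end Plane

end Pool.Agent.Helper82.GS.Stmt
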