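import Pool.Agent.Helper82.GS.Open
import Pool.Agent.Helper82.GS.CertDense
import Pool.Agent.Helper82.GS.Scale

/-!
# Certificates form an open dense set of metrics (module GS-9)
-/

set_option maxSynthPendingDepth 3

namespace Pool.Agent.Helper82.GS

open MeasureTheory Filter Topology
open scoped ContDiff Manifold

/-- A certificate depends only on the metric in the ball. -/
theorem Cert.congr {G G' : P2 → Bil} {p : P2} {ℓ : P2 →L[ℝ] ℝ} {r : ℝ} (h : Cert G p ℓ r)
    (hGG : ∀ y ∈ Metric.ball p r, G' y = G y) : Cert G' p ℓ r := by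
  obtain ⟨K, b, u, hK, hKb, hb, hbK, hu, huK, hineq, hint⟩ := h
  refine ⟨K, b, u, hK, hKb, hb, hbK, hu, huK, ?_, ?_⟩
  · intro y hy v hv hv2
    rw [hGG y (hKb hy)] at hv
    have h1 := hineq y hy v hv hv2
    have h2 : fderiv ℝ G' y = fderiv ℝ G y := by
      apply Filter.EventuallyEq.fderiv_eq
      filter_upwards [Metric.isOpen_ball.mem_nhds (hKb hy)] with z hz
      exact hGG z hz
    have h3 : spray G' u (y, v) = spray G u (y, v) := by
      simp only [spray, hGG y (hKb hy), h2]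
    rw [h3]
    exact h1
  · have : (fun y => b y * dens (G' y)) = fun y => b y * dens (G y) := by
      funext y
      by_cases hy : y ∈ K
      · rw [hGG y (hKb hy)]
      · rw [hbK y hy, zero_mul, zero_mul]
    rw [this]
    exact hint

variable {S : Type*} [TopologicalSpace S] [ChartedSpace P2 S]

theorem isOpen_near (g₀ : RMetric S) {e : OpenPartialHomeomorph S P2} (he : e ∈ atlas P2 S) {K : Set P2}
    (hK : IsCompact K) (hKe : K ⊆ e.target) (r : ℕ) (δ : ℝ) : IsOpen (g₀.near e K r δ) :=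
  TopologicalSpace.isOpen_generateFrom_of_mem ⟨g₀, e, K, r, δ, he, hK, hKe, rfl⟩

theorem continuousOn_iter (g : RMetric S) {e : OpenPartialHomeomorph S P2} (he : e ∈ atlas P2 S)
    {K : Set P2} (hKe : K ⊆ e.target) (r : ℕ) : ContinuousOn (iteratedFDeriv ℝ r (g.comp e)) K := by
  intro y hy
  refine ContinuousAt.continuousWithinAt ?_
  have h1 : ContDiffAt ℝ ∞ (g.comp e) y :=
    (g.smooth e he).contDiffAt (e.open_target.mem_nhds (hKe hy))
  have h2 : ContDiffAt ℝ 0 (iteratedFDeriv ℝ r (g.comp e)) y :=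
    h1.iteratedFDeriv_right (by
      rw [zero_add]
      exact_mod_cast le_top)
  exact h2.continuousAt

/-- Recentring of a basic neighbourhood. -/
theorem exists_near_subset {g g₀ : RMetric S} {e : OpenPartialHomeomorph S P2} (he : e ∈ atlas P2 S) {K : Set P2}
    (hK : IsCompact K) (hKe : K ⊆ e.target) {r : ℕ} {δ : ℝ} (hg : g ∈ g₀.near e K r δ) :
    ∃ δ' > 0, g.near e K r δ' ⊆ g₀.near e K r δ := by
  rcases K.eq_empty_or_nonempty with rfl | hne
  · exact ⟨1, one_pos, fun h _ y hy => absurd hy (Set.notMem_empty y)⟩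
  have hcont : ContinuousOn (fun y => ‖iteratedFDeriv ℝ r (g.comp e) y -
      iteratedFDeriv ℝ r (g₀.comp e) y‖) K :=
    ((continuousOn_iter g he hKe r).sub (continuousOn_iter g₀ he hKe r)).norm
  obtain ⟨y₀, hy₀, hmax⟩ := hK.exists_isMaxOn hne hcont
  have h0 := hg y₀ hy₀
  refine ⟨δ - ‖iteratedFDeriv ℝ r (g.comp e) y₀ - iteratedFDeriv ℝ r (g₀.comp e) y₀‖,
    by linarith, fun h hh y hy => ?_⟩
  have h1 := hh y hy
  have h2 : ‖iteratedFDeriv ℝ r (g.comp e) y - iteratedFDeriv ℝ r (g₀.comp e) y‖ ≤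
      ‖iteratedFDeriv ℝ r (g.comp e) y₀ - iteratedFDeriv ℝ r (g₀.comp e) y₀‖ := hmax hy
  have h3 := norm_sub_le_norm_sub_add_norm_sub (iteratedFDeriv ℝ r (h.comp e) y)
    (iteratedFDeriv ℝ r (g.comp e) y) (iteratedFDeriv ℝ r (g₀.comp e) y)
  linarith

theorem mem_near_self (g : RMetric S) (e : OpenPartialHomeomorph S P2) (K : Set P2) (r : ℕ) {δ : ℝ}
    (hδ : 0 < δ) : g ∈ g.near e K r δ := fun y _ => by simpa using hδ

theorem isOpen_cert {e : OpenPartialHomeomorph S P2} (he : e ∈ atlas P2 S) {p : P2} (ℓ : P2 →L[ℝ] ℝ) {r : ℝ}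
    (hr : 0 < r) (hball : Metric.closedBall p r ⊆ e.target) : IsOpen {g : RMetric S | Cert (g.comp e) p ℓ r} := by
  rw [isOpen_iff_mem_nhds]
  intro g hg
  obtain ⟨δ, hδ, hopen⟩ := cert_open e.open_target (g.smooth e he) (g.posDef e he) hr hball hg
  have hc : IsCompact (Metric.closedBall p r) := isCompact_closedBall _ _
  have hU : g.near e (Metric.closedBall p r) 0 δ ∩ g.near e (Metric.closedBall p r) 1 δ ∈ 𝓝 g :=
    inter_mem ((isOpen_near g he hc hball 0 δ).mem_nhds (mem_near_self g e _ 0 hδ))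
      ((isOpen_near g he hc hball 1 δ).mem_nhds (mem_near_self g e _ 1 hδ))
  filter_upwards [hU] with h hh
  refine hopen (h.comp e) (h.smooth e he) (h.posDef e he) (fun y hy => ?_) (fun y hy => ?_)
  · have h1 := hh.1 y hy
    rw [iteratedFDeriv_zero_eq_comp, iteratedFDeriv_zero_eq_comp, Function.comp_apply,
      Function.comp_apply, ← map_sub, LinearIsometryEquiv.norm_map] at h1
    exact h1
  · have h1 := hh.2 y hy
    refine lt_of_le_of_lt ?_ h1
    refine ContinuousLinearMap.opNorm_le_bound _ (norm_nonneg _) fun v => ?_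
    have h2 : (fderiv ℝ (h.comp e) y - fderiv ℝ (g.comp e) y) v =
        (iteratedFDeriv ℝ 1 (h.comp e) y - iteratedFDeriv ℝ 1 (g.comp e) y) (fun _ => v) := by
      change _ = iteratedFDeriv ℝ 1 (h.comp e) y (fun _ => v) -
        iteratedFDeriv ℝ 1 (g.comp e) y (fun _ => v)
      rw [iteratedFDeriv_one_apply, iteratedFDeriv_one_apply]
      rfl
    rw [h2]
    refine (ContinuousMultilinearMap.le_opNorm _ _).trans (le_of_eq ?_)
    simp

theorem dense_cert [T2Space S] [IsManifold (modelWithCornersSelf ℝ P2) ∞ S] {e : OpenPartialHomeomorph S P2}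
    (he : e ∈ atlas P2 S) {p : P2} {ℓ : P2 →L[ℝ] ℝ} (hℓ : ℓ ≠ 0) {r : ℝ} (hr : 0 < r)
    (hball : Metric.closedBall p r ⊆ e.target) : Dense {g : RMetric S | Cert (g.comp e) p ℓ r} := by
  rw [dense_iff_inter_open]
  rintro U hU ⟨g₀, hg₀⟩
  have hbasis := TopologicalSpace.isTopologicalBasis_of_subbasis (t := RMetric.topology (S := S)) rfl
  obtain ⟨V, ⟨F, ⟨hFfin, hFsub⟩, rfl⟩, hgF, hFU⟩ := hbasis.exists_subset_of_mem_open hg₀ hU
  have key : ∀ V ∈ F, ∃ k : ℕ, ∀ m, k < m → ∀ (χ : P2 → ℝ) (K : Set P2), ContDiff ℝ ∞ χ →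
      IsCompact K → K ⊆ e.target → (∀ y, y ∉ K → χ y = 0) → ∀ᶠ N : ℕ in atTop, ∀ g : RMetric S,
        (∀ e' z, g.comp e' z = (1 + ext e (fun z => ((N : ℝ) ^ m)⁻¹ * (χ z * Real.cos (N * ℓ z)))
          (e'.symm z)) • g₀.comp e' z) → g ∈ V := by
    intro V hV
    obtain ⟨g₁, e', K', k, δ, he', hK', hKe', rfl⟩ := hFsub hV
    have hg1 : g₀ ∈ g₁.near e' K' k δ := hgF _ hV
    obtain ⟨δ', hδ', hsub⟩ := exists_near_subset he' hK' hKe' hg1
    refine ⟨k, fun m hkm χ K hχ hK hKe hχK => ?_⟩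
    filter_upwards [pert_small g₀ he hχ hK hKe hχK ℓ m he' hK' hKe' hkm hδ'] with N hN g hg
    apply hsub
    intro y hy
    have e1 : g.comp e' = fun z => (1 + ext e (fun z => ((N : ℝ) ^ m)⁻¹ *
        (χ z * Real.cos (N * ℓ z))) (e'.symm z)) • g₀.comp e' z := funext fun z => hg e' z
    rw [e1]
    exact hN y hy
  choose! k hk using key
  obtain ⟨m, hm⟩ : ∃ m : ℕ, 1 ≤ m ∧ ∀ V ∈ F, k V < m := by
    obtain ⟨M, hM⟩ := (hFfin.image k).bddAbove
    exact ⟨M + 1, by omega, fun V hV => Nat.lt_succ_of_le (hM ⟨V, hV, rfl⟩)⟩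
  obtain ⟨χ, hχ, ⟨K, hK, hKb, hχK⟩, hcert⟩ := cert_dense_chart e.open_target (g₀.smooth e he)
    (g₀.posDef e he) hr hball hℓ hm.1
  have hKe : K ⊆ e.target := hKb.trans (Metric.ball_subset_closedBall.trans hball)
  have hev : ∀ᶠ N : ℕ in atTop, ∀ V ∈ F, ∀ g : RMetric S,
      (∀ e' z, g.comp e' z = (1 + ext e (fun z => ((N : ℝ) ^ m)⁻¹ * (χ z * Real.cos (N * ℓ z)))
          (e'.symm z)) • g₀.comp e' z) → g ∈ V :=
    (Filter.eventually_all_finite hFfin).mpr fun V hV => hk V hV m (hm.2 V hV) χ K hχ hK hKe hχK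
  obtain ⟨B, hB⟩ : ∃ B, ∀ y ∈ K, ‖χ y‖ ≤ B := hK.exists_bound_of_continuousOn hχ.continuous.continuousOn
  obtain ⟨N, hN1, hN2, hN3, hN4⟩ := (hev.and (hcert.and ((eventually_ge_atTop 1).and
    (eventually_gt_atTop ⌈|B|⌉₊)))).exists
  have hNr : (1 : ℝ) ≤ N := by exact_mod_cast hN3
  have hNB : |B| < N := by
    have h1 : |B| ≤ ⌈|B|⌉₊ := Nat.le_ceil _
    have h2 : ((⌈|B|⌉₊ : ℕ) : ℝ) < N := by exact_mod_cast hN4
    linarith
  set f : P2 → ℝ := fun z => ((N : ℝ) ^ m)⁻¹ * (χ z * Real.cos (N * ℓ z)) with hf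
  have hfs : ContDiff ℝ ∞ f := by
    refine contDiff_const.mul (hχ.mul ?_)
    exact Real.contDiff_cos.comp (contDiff_const.mul ℓ.contDiff)
  have hfK : ∀ y, y ∉ K → f y = 0 := fun y hy => by simp [hf, hχK y hy]
  have hfb : ∀ y, -1 < f y := by
    intro y
    by_cases hy : y ∈ K
    · have h1 : |χ y * Real.cos (N * ℓ y)| ≤ |B| := by
        rw [abs_mul]
        have h2 : |χ y| ≤ |B| := (hB y hy).trans (le_abs_self B)
        calc |χ y| * |Real.cos (N * ℓ y)| ≤ |B| * 1 :=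
              mul_le_mul h2 (Real.abs_cos_le_one _) (abs_nonneg _) (abs_nonneg _)
          _ = |B| := mul_one _
      have h3 : (N : ℝ) ≤ (N : ℝ) ^ m := by
        calc (N : ℝ) = (N : ℝ) ^ 1 := (pow_one _).symm
          _ ≤ (N : ℝ) ^ m := pow_le_pow_right₀ hNr hm.1
      have h4 : |f y| < 1 := by
        rw [hf]
        simp only
        rw [abs_mul, abs_of_pos (by positivity), inv_mul_lt_iff₀ (by positivity), mul_one]
        linarith
      exact (abs_lt.mp h4).1
    · rw [hfK y hy]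
      norm_num
  have hpos : ∀ x : S, 0 < 1 + ext e f x := by
    intro x
    unfold ext
    split_ifs with hx
    · have := hfb (e x)
      linarith
    · norm_num
  have hsm : ∀ e' ∈ atlas P2 S, ContDiffOn ℝ ∞ ((fun x => 1 + ext e f x) ∘ e'.symm) e'.target := by
    intro e' he'
    have h1 := ext_smooth he hfs hK hKe hfK e' he'
    exact contDiffOn_const.add h1
  let g : RMetric S := g₀.scale (fun x => 1 + ext e f x) hsm hpos
  have hg : ∀ e' z, g.comp e' z = (1 + ext e f (e'.symm z)) • g₀.comp e' z := fun _ _ => rfl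
  refine ⟨g, hFU (Set.mem_sInter.mpr fun V hV => hN1 V hV g hg), ?_⟩
  refine Cert.congr hN2 fun y hy => ?_
  have hyt : y ∈ e.target := hball (Metric.ball_subset_closedBall hy)
  rw [hg, ext_of_mem f (e.map_target hyt), e.right_inv hyt]
  rfl

end Pool.Agent.Helper82.GS
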