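import Pool.Agent.Helper82.GS.Acc

/-!
# The formal solution of the transport equation (module GS-3)
-/

set_option maxSynthPendingDepth 3

namespace Pool.Agent.Helper82.GS

open MeasureTheory Filter Topology
open scoped ContDiff Manifold

/-- The amplitudes of the formal solution: `wkb 0 = χ`, `wkb (j+1) = -spray (wkb j / ℓ(v))`. -/
noncomputable def wkb (G : P2 → Bil) (ℓ : P2 →L[ℝ] ℝ) (χ : P2 → ℝ) : ℕ → P2 × P2 → ℂ
  | 0 => fun q => (χ q.1 : ℂ)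
  | j + 1 => fun q => -spray G (fun q' => wkb G ℓ χ j q' / (ℓ q'.2 : ℂ)) q

/-- The formal solution up to order `M`. -/
noncomputable def uWKB (G : P2 → Bil) (ℓ : P2 →L[ℝ] ℝ) (χ : P2 → ℝ) (N M : ℕ) (q : P2 × P2) : ℂ :=
  ∑ j ∈ Finset.range M, ((Complex.I * N) ^ (j + 1))⁻¹ * Complex.exp (Complex.I * N * (ℓ q.1 : ℂ)) *
    (wkb G ℓ χ j q / (ℓ q.2 : ℂ))

theorem isOpen_ell (ℓ : P2 →L[ℝ] ℝ) : IsOpen {q : P2 × P2 | ℓ q.2 ≠ 0} :=
  isOpen_ne_fun (ℓ.continuous.comp continuous_snd) continuous_const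

theorem contDiff_ell_snd (ℓ : P2 →L[ℝ] ℝ) :
    ContDiff ℝ ∞ fun q : P2 × P2 => (ℓ q.2 : ℂ) :=
  Complex.ofRealCLM.contDiff.comp (ℓ.contDiff.comp contDiff_snd)

theorem contDiffOn_div_ell {f : P2 × P2 → ℂ} {ℓ : P2 →L[ℝ] ℝ}
    (hf : ContDiffOn ℝ ∞ f {q | ℓ q.2 ≠ 0}) :
    ContDiffOn ℝ ∞ (fun q => f q / (ℓ q.2 : ℂ)) {q | ℓ q.2 ≠ 0} := by
  have h1 : ContDiffOn ℝ ∞ (fun q : P2 × P2 => ((ℓ q.2 : ℂ))⁻¹) {q | ℓ q.2 ≠ 0} :=
    (contDiff_ell_snd ℓ).contDiffOn.inv fun q hq => by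
      have : ℓ q.2 ≠ 0 := hq
      exact_mod_cast this
  refine (hf.mul h1).congr fun q _ => ?_
  rw [div_eq_mul_inv]

/-- The amplitudes are smooth where `ℓ(v) ≠ 0`, and supported over `K`. -/
theorem wkb_smooth {D : Set P2} (hD : IsOpen D) {G : P2 → Bil} (hG : ContDiffOn ℝ ∞ G D)
    (hpos : ∀ y ∈ D, PosDef (G y)) (ℓ : P2 →L[ℝ] ℝ) {χ : P2 → ℝ} (hχ : ContDiff ℝ ∞ χ) {K : Set P2}
    (hK : IsCompact K) (hKD : K ⊆ D) (hχK : ∀ y, y ∉ K → χ y = 0) (j : ℕ) :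
    ContDiffOn ℝ ∞ (wkb G ℓ χ j) {q | ℓ q.2 ≠ 0} ∧ ∀ q : P2 × P2, q.1 ∉ K → wkb G ℓ χ j q = 0 := by
  induction j with
  | zero =>
    refine ⟨ContDiff.contDiffOn ?_, fun q hq => ?_⟩
    · exact Complex.ofRealCLM.contDiff.comp (hχ.comp contDiff_fst)
    · simp only [wkb, hχK q.1 hq, Complex.ofReal_zero]
  | succ j ih =>
    obtain ⟨ih1, ih2⟩ := ih
    set h : P2 × P2 → ℂ := fun q' => wkb G ℓ χ j q' / (ℓ q'.2 : ℂ) with hh
    have hhs : ContDiffOn ℝ ∞ h {q | ℓ q.2 ≠ 0} := contDiffOn_div_ell ih1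
    have hz : ∀ q : P2 × P2, q.1 ∉ K → wkb G ℓ χ (j + 1) q = 0 := by
      intro q hq
      have h1 : ∀ᶠ q' : P2 × P2 in 𝓝 q, q'.1 ∉ K :=
        continuous_fst.continuousAt.eventually (hK.isClosed.isOpen_compl.mem_nhds hq)
      have h2 : h =ᶠ[𝓝 q] fun _ => 0 := by
        filter_upwards [h1] with q' hq'
        simp only [hh, ih2 q' hq', zero_div]
      change -spray G h q = 0
      unfold spray
      rw [h2.fderiv_eq]
      simp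
    refine ⟨fun q hq => ContDiffAt.contDiffWithinAt ?_, hz⟩
    by_cases hqK : q.1 ∈ K
    · have hqD : q.1 ∈ D := hKD hqK
      have h1 : ContDiffAt ℝ ∞ (fderiv ℝ h) q :=
        (hhs.fderiv_of_isOpen (isOpen_ell ℓ) (by simp)).contDiffAt ((isOpen_ell ℓ).mem_nhds hq)
      have h2 : ContDiffAt ℝ ∞ (fun q : P2 × P2 => acc (G q.1) (fderiv ℝ G q.1) q.2) q :=
        (contDiffOn_acc hD hG hpos).contDiffAt
          ((hD.prod isOpen_univ).mem_nhds ⟨hqD, Set.mem_univ _⟩)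
      have h3 : ContDiffAt ℝ ∞ (fun q : P2 × P2 =>
          (q.2, acc (G q.1) (fderiv ℝ G q.1) q.2)) q := contDiffAt_snd.prodMk h2
      exact (h1.clm_apply h3).neg
    · have h1 : ∀ᶠ q' : P2 × P2 in 𝓝 q, q'.1 ∉ K :=
        continuous_fst.continuousAt.eventually (hK.isClosed.isOpen_compl.mem_nhds hqK)
      refine contDiffAt_const (c := (0 : ℂ)) |>.congr_of_eventuallyEq ?_
      filter_upwards [h1] with q' hq'
      exact hz q' hq'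

/-- The formal solution solves the transport equation up to order `M`. -/
theorem spray_uWKB {D : Set P2} (hD : IsOpen D) {G : P2 → Bil} (hG : ContDiffOn ℝ ∞ G D)
    (hpos : ∀ y ∈ D, PosDef (G y)) (ℓ : P2 →L[ℝ] ℝ) {χ : P2 → ℝ} (hχ : ContDiff ℝ ∞ χ) {K : Set P2}
    (hK : IsCompact K) (hKD : K ⊆ D) (hχK : ∀ y, y ∉ K → χ y = 0) {N : ℕ} (hN : N ≠ 0) (M : ℕ)
    {q : P2 × P2} (hq : ℓ q.2 ≠ 0) :
    spray G (uWKB G ℓ χ N M) q = Complex.exp (Complex.I * N * (ℓ q.1 : ℂ)) *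
      ((χ q.1 : ℂ) - ((Complex.I * N) ^ M)⁻¹ * wkb G ℓ χ M q) := by
  set a : P2 := acc (G q.1) (fderiv ℝ G q.1) q.2 with ha
  set c : ℂ := Complex.I * N with hc
  have hc0 : c ≠ 0 := mul_ne_zero Complex.I_ne_zero (Nat.cast_ne_zero.2 hN)
  have hq' : (ℓ q.2 : ℂ) ≠ 0 := by exact_mod_cast hq
  set h : ℕ → P2 × P2 → ℂ := fun j q' => wkb G ℓ χ j q' / (ℓ q'.2 : ℂ) with hh
  have hhd : ∀ j, HasFDerivAt (h j) (fderiv ℝ (h j) q) q := fun j =>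
    (((contDiffOn_div_ell (wkb_smooth hD hG hpos ℓ hχ hK hKD hχK j).1).contDiffAt
      ((isOpen_ell ℓ).mem_nhds hq)).differentiableAt (by simp)).hasFDerivAt
  have hle : HasFDerivAt (fun q' : P2 × P2 => c * (ℓ q'.1 : ℂ))
      (c • (Complex.ofRealCLM.comp (ℓ.comp (ContinuousLinearMap.fst ℝ P2 P2)))) q := by
    have h1 : HasFDerivAt (fun q' : P2 × P2 => (ℓ q'.1 : ℂ))
        (Complex.ofRealCLM.comp (ℓ.comp (ContinuousLinearMap.fst ℝ P2 P2))) q :=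
      (Complex.ofRealCLM.comp (ℓ.comp (ContinuousLinearMap.fst ℝ P2 P2))).hasFDerivAt
    exact h1.const_mul c
  have hexp : HasFDerivAt (fun q' : P2 × P2 => Complex.exp (c * (ℓ q'.1 : ℂ)))
      (Complex.exp (c * (ℓ q.1 : ℂ)) •
        (c • (Complex.ofRealCLM.comp (ℓ.comp (ContinuousLinearMap.fst ℝ P2 P2))))) q := by
    have h1 := (Complex.hasDerivAt_exp (c * (ℓ q.1 : ℂ))).comp_hasFDerivAt q hle
    exact h1
  have ht : ∀ j, HasFDerivAt (fun q' : P2 × P2 => (c ^ (j + 1))⁻¹ *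
      Complex.exp (c * (ℓ q'.1 : ℂ)) * (h j q'))
      (((c ^ (j + 1))⁻¹ * Complex.exp (c * (ℓ q.1 : ℂ))) • fderiv ℝ (h j) q +
        (h j q) • ((c ^ (j + 1))⁻¹ • (Complex.exp (c * (ℓ q.1 : ℂ)) •
        (c • (Complex.ofRealCLM.comp (ℓ.comp (ContinuousLinearMap.fst ℝ P2 P2))))))) q := by
    intro j
    exact (hexp.const_mul ((c ^ (j + 1))⁻¹)).mul (hhd j)
  have hsum : HasFDerivAt (uWKB G ℓ χ N M) (∑ j ∈ Finset.range M,
      (((c ^ (j + 1))⁻¹ * Complex.exp (c * (ℓ q.1 : ℂ))) • fderiv ℝ (h j) q +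
        (h j q) • ((c ^ (j + 1))⁻¹ • (Complex.exp (c * (ℓ q.1 : ℂ)) •
        (c • (Complex.ofRealCLM.comp (ℓ.comp (ContinuousLinearMap.fst ℝ P2 P2)))))))) q :=
    HasFDerivAt.fun_sum fun j _ => ht j
  unfold spray
  rw [hsum.fderiv, ContinuousLinearMap.sum_apply]
  have hterm : ∀ j, ((((c ^ (j + 1))⁻¹ * Complex.exp (c * (ℓ q.1 : ℂ))) • fderiv ℝ (h j) q +
        (h j q) • ((c ^ (j + 1))⁻¹ • (Complex.exp (c * (ℓ q.1 : ℂ)) •
        (c • (Complex.ofRealCLM.comp (ℓ.comp (ContinuousLinearMap.fst ℝ P2 P2))))))) :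
          P2 × P2 →L[ℝ] ℂ) (q.2, a) =
      Complex.exp (c * (ℓ q.1 : ℂ)) * ((c ^ j)⁻¹ * wkb G ℓ χ j q -
        (c ^ (j + 1))⁻¹ * wkb G ℓ χ (j + 1) q) := by
    intro j
    have e1 : wkb G ℓ χ (j + 1) q = -(fderiv ℝ (h j) q (q.2, a)) := rfl
    have e2 : wkb G ℓ χ j q = h j q * (ℓ q.2 : ℂ) := by
      simp only [hh]
      rw [div_mul_cancel₀ _ hq']
    rw [e1, e2]
    simp only [ContinuousLinearMap.add_apply, ContinuousLinearMap.smul_apply, smul_eq_mul,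
      ContinuousLinearMap.comp_apply, ContinuousLinearMap.coe_fst', Complex.ofRealCLM_apply]
    rw [pow_succ, mul_inv]
    field_simp
    ring
  rw [Finset.sum_congr rfl fun j _ => hterm j, ← Finset.mul_sum,
    Finset.sum_range_sub' (fun j => (c ^ j)⁻¹ * wkb G ℓ χ j q) M]
  simp [wkb]

end Pool.Agent.Helper82.GS
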